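import Pool.Agent.FCQ.C.W1
import Pool.Agent.FCQ.C.W2
import Pool.Agent.FCQ.C.W3
import Pool.Agent.FCQ.C.W4
import Pool.Agent.FCQ.C.W5
import Pool.Agent.FCQ.C.W6
import Pool.Agent.FCQ.C.W7
import Pool.Agent.FCQ.C.W8
import Pool.Agent.FCQ.C.W9
import Pool.Agent.FCQ.C.W10
import Pool.Agent.FCQ.Stmts

/-!
# The certificates for the delayed chain
-/

set_option autoImplicit false

namespace Pool.Agent.FCQ.C

open MeasureTheory Set

/-- the points of the partition -/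
noncomputable def pa (k : ℕ) : ℝ :=
  if k ≤ 10 then (12 + k) / 192 else if k ≤ 16 then (34 + k) / 384 else (9 + k) / 192

noncomputable def pg (k : ℕ) : ℝ :=
  if k < 5 then 125 / 100 else if k < 10 then 131 / 100 else if k < 16 then 132 / 100 else
  if k < 17 then 131 / 100 else 125 / 100

noncomputable def pgA (k : ℕ) : ℝ :=
  if k < 5 then 265 / 100 else if k < 10 then 205 / 100 else if k < 16 then 190 / 100 else
  if k < 17 then 205 / 100 else 265 / 100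

theorem useWin {n i G GA : ℕ} (h : WinOK n i G GA) {lo hi g gA : ℝ} (h0 : 0 ≤ lo) (h1 : hi ≤ 1/4)
    (hlo : (i:ℝ) = n * (6 * lo)) (hhi : (n:ℝ) * (6 * hi) = i + 1) (hg : (G / 100 : ℝ) = g) (hgA : (GA / 100 : ℝ) = gA)
    (t' : ℝ) (ht0 : lo ≤ t') (ht1 : t' ≤ hi) : ∃ h V hA VA bb, Co t' (1/10) 4294967296 g gA h V hA VA bb := by
  subst hg hgA
  have hn : (0:ℝ) ≤ n := Nat.cast_nonneg n
  refine h t' (by linarith) (by linarith) ?_ ?_
  · rw [hlo]; exact mul_le_mul_of_nonneg_left (by linarith) hn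
  · rw [← hhi]; exact mul_le_mul_of_nonneg_left (by linarith) hn

theorem pa_step : ∀ k < 39, pa k + 1 / 1000 ≤ pa (k + 1) := by
  intro k hk
  interval_cases k <;> norm_num [pa]

theorem pr_all : ∀ k < 39, Pr (pg k) (pgA k) := by
  intro k hk
  unfold Pr
  interval_cases k <;> norm_num [pg, pgA]

theorem cw0 : ∀ t' : ℝ, pa 0 ≤ t' → t' ≤ pa (0 + 1) →
    ∃ h V hA VA bb, Co t' (1/10) 4294967296 (pg 0) (pgA 0) h V hA VA bb :=
  useWin winB12 (by norm_num [pa]) (by norm_num [pa]) (by norm_num [pa]) (by norm_num [pa]) (by norm_num [pg]) (by norm_num [pgA])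

theorem cw1 : ∀ t' : ℝ, pa 1 ≤ t' → t' ≤ pa (1 + 1) →
    ∃ h V hA VA bb, Co t' (1/10) 4294967296 (pg 1) (pgA 1) h V hA VA bb :=
  useWin winB13 (by norm_num [pa]) (by norm_num [pa]) (by norm_num [pa]) (by norm_num [pa]) (by norm_num [pg]) (by norm_num [pgA])

theorem cw2 : ∀ t' : ℝ, pa 2 ≤ t' → t' ≤ pa (2 + 1) →
    ∃ h V hA VA bb, Co t' (1/10) 4294967296 (pg 2) (pgA 2) h V hA VA bb :=
  useWin winB14 (by norm_num [pa]) (by norm_num [pa]) (by norm_num [pa]) (by norm_num [pa]) (by norm_num [pg]) (by norm_num [pgA])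

theorem cw3 : ∀ t' : ℝ, pa 3 ≤ t' → t' ≤ pa (3 + 1) →
    ∃ h V hA VA bb, Co t' (1/10) 4294967296 (pg 3) (pgA 3) h V hA VA bb :=
  useWin winB15 (by norm_num [pa]) (by norm_num [pa]) (by norm_num [pa]) (by norm_num [pa]) (by norm_num [pg]) (by norm_num [pgA])

theorem cw4 : ∀ t' : ℝ, pa 4 ≤ t' → t' ≤ pa (4 + 1) →
    ∃ h V hA VA bb, Co t' (1/10) 4294967296 (pg 4) (pgA 4) h V hA VA bb :=
  useWin winB16 (by norm_num [pa]) (by norm_num [pa]) (by norm_num [pa]) (by norm_num [pa]) (by norm_num [pg]) (by norm_num [pgA])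

theorem cw5 : ∀ t' : ℝ, pa 5 ≤ t' → t' ≤ pa (5 + 1) →
    ∃ h V hA VA bb, Co t' (1/10) 4294967296 (pg 5) (pgA 5) h V hA VA bb :=
  useWin winB17 (by norm_num [pa]) (by norm_num [pa]) (by norm_num [pa]) (by norm_num [pa]) (by norm_num [pg]) (by norm_num [pgA])

theorem cw6 : ∀ t' : ℝ, pa 6 ≤ t' → t' ≤ pa (6 + 1) →
    ∃ h V hA VA bb, Co t' (1/10) 4294967296 (pg 6) (pgA 6) h V hA VA bb :=
  useWin winB18 (by norm_num [pa]) (by norm_num [pa]) (by norm_num [pa]) (by norm_num [pa]) (by norm_num [pg]) (by norm_num [pgA])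

theorem cw7 : ∀ t' : ℝ, pa 7 ≤ t' → t' ≤ pa (7 + 1) →
    ∃ h V hA VA bb, Co t' (1/10) 4294967296 (pg 7) (pgA 7) h V hA VA bb :=
  useWin winB19 (by norm_num [pa]) (by norm_num [pa]) (by norm_num [pa]) (by norm_num [pa]) (by norm_num [pg]) (by norm_num [pgA])

theorem cw8 : ∀ t' : ℝ, pa 8 ≤ t' → t' ≤ pa (8 + 1) →
    ∃ h V hA VA bb, Co t' (1/10) 4294967296 (pg 8) (pgA 8) h V hA VA bb :=
  useWin winB20 (by norm_num [pa]) (by norm_num [pa]) (by norm_num [pa]) (by norm_num [pa]) (by norm_num [pg]) (by norm_num [pgA])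

theorem cw9 : ∀ t' : ℝ, pa 9 ≤ t' → t' ≤ pa (9 + 1) →
    ∃ h V hA VA bb, Co t' (1/10) 4294967296 (pg 9) (pgA 9) h V hA VA bb :=
  useWin winB21 (by norm_num [pa]) (by norm_num [pa]) (by norm_num [pa]) (by norm_num [pa]) (by norm_num [pg]) (by norm_num [pgA])

theorem cw10 : ∀ t' : ℝ, pa 10 ≤ t' → t' ≤ pa (10 + 1) →
    ∃ h V hA VA bb, Co t' (1/10) 4294967296 (pg 10) (pgA 10) h V hA VA bb :=
  useWin winC44 (by norm_num [pa]) (by norm_num [pa]) (by norm_num [pa]) (by norm_num [pa]) (by norm_num [pg]) (by norm_num [pgA])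

theorem cw11 : ∀ t' : ℝ, pa 11 ≤ t' → t' ≤ pa (11 + 1) →
    ∃ h V hA VA bb, Co t' (1/10) 4294967296 (pg 11) (pgA 11) h V hA VA bb :=
  useWin winC45 (by norm_num [pa]) (by norm_num [pa]) (by norm_num [pa]) (by norm_num [pa]) (by norm_num [pg]) (by norm_num [pgA])

theorem cw12 : ∀ t' : ℝ, pa 12 ≤ t' → t' ≤ pa (12 + 1) →
    ∃ h V hA VA bb, Co t' (1/10) 4294967296 (pg 12) (pgA 12) h V hA VA bb :=
  useWin winC46 (by norm_num [pa]) (by norm_num [pa]) (by norm_num [pa]) (by norm_num [pa]) (by norm_num [pg]) (by norm_num [pgA])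

theorem cw13 : ∀ t' : ℝ, pa 13 ≤ t' → t' ≤ pa (13 + 1) →
    ∃ h V hA VA bb, Co t' (1/10) 4294967296 (pg 13) (pgA 13) h V hA VA bb :=
  useWin winC47 (by norm_num [pa]) (by norm_num [pa]) (by norm_num [pa]) (by norm_num [pa]) (by norm_num [pg]) (by norm_num [pgA])

theorem cw14 : ∀ t' : ℝ, pa 14 ≤ t' → t' ≤ pa (14 + 1) →
    ∃ h V hA VA bb, Co t' (1/10) 4294967296 (pg 14) (pgA 14) h V hA VA bb :=
  useWin winC48 (by norm_num [pa]) (by norm_num [pa]) (by norm_num [pa]) (by norm_num [pa]) (by norm_num [pg]) (by norm_num [pgA])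

theorem cw15 : ∀ t' : ℝ, pa 15 ≤ t' → t' ≤ pa (15 + 1) →
    ∃ h V hA VA bb, Co t' (1/10) 4294967296 (pg 15) (pgA 15) h V hA VA bb :=
  useWin winC49 (by norm_num [pa]) (by norm_num [pa]) (by norm_num [pa]) (by norm_num [pa]) (by norm_num [pg]) (by norm_num [pgA])

theorem cw16 : ∀ t' : ℝ, pa 16 ≤ t' → t' ≤ pa (16 + 1) →
    ∃ h V hA VA bb, Co t' (1/10) 4294967296 (pg 16) (pgA 16) h V hA VA bb :=
  useWin winB25 (by norm_num [pa]) (by norm_num [pa]) (by norm_num [pa]) (by norm_num [pa]) (by norm_num [pg]) (by norm_num [pgA])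

theorem cw17 : ∀ t' : ℝ, pa 17 ≤ t' → t' ≤ pa (17 + 1) →
    ∃ h V hA VA bb, Co t' (1/10) 4294967296 (pg 17) (pgA 17) h V hA VA bb :=
  useWin winB26 (by norm_num [pa]) (by norm_num [pa]) (by norm_num [pa]) (by norm_num [pa]) (by norm_num [pg]) (by norm_num [pgA])

theorem cw18 : ∀ t' : ℝ, pa 18 ≤ t' → t' ≤ pa (18 + 1) →
    ∃ h V hA VA bb, Co t' (1/10) 4294967296 (pg 18) (pgA 18) h V hA VA bb :=
  useWin winB27 (by norm_num [pa]) (by norm_num [pa]) (by norm_num [pa]) (by norm_num [pa]) (by norm_num [pg]) (by norm_num [pgA])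

theorem cw19 : ∀ t' : ℝ, pa 19 ≤ t' → t' ≤ pa (19 + 1) →
    ∃ h V hA VA bb, Co t' (1/10) 4294967296 (pg 19) (pgA 19) h V hA VA bb :=
  useWin winB28 (by norm_num [pa]) (by norm_num [pa]) (by norm_num [pa]) (by norm_num [pa]) (by norm_num [pg]) (by norm_num [pgA])

theorem cw20 : ∀ t' : ℝ, pa 20 ≤ t' → t' ≤ pa (20 + 1) →
    ∃ h V hA VA bb, Co t' (1/10) 4294967296 (pg 20) (pgA 20) h V hA VA bb :=
  useWin winB29 (by norm_num [pa]) (by norm_num [pa]) (by norm_num [pa]) (by norm_num [pa]) (by norm_num [pg]) (by norm_num [pgA])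

theorem cw21 : ∀ t' : ℝ, pa 21 ≤ t' → t' ≤ pa (21 + 1) →
    ∃ h V hA VA bb, Co t' (1/10) 4294967296 (pg 21) (pgA 21) h V hA VA bb :=
  useWin winB30 (by norm_num [pa]) (by norm_num [pa]) (by norm_num [pa]) (by norm_num [pa]) (by norm_num [pg]) (by norm_num [pgA])

theorem cw22 : ∀ t' : ℝ, pa 22 ≤ t' → t' ≤ pa (22 + 1) →
    ∃ h V hA VA bb, Co t' (1/10) 4294967296 (pg 22) (pgA 22) h V hA VA bb :=
  useWin winB31 (by norm_num [pa]) (by norm_num [pa]) (by norm_num [pa]) (by norm_num [pa]) (by norm_num [pg]) (by norm_num [pgA])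

theorem cw23 : ∀ t' : ℝ, pa 23 ≤ t' → t' ≤ pa (23 + 1) →
    ∃ h V hA VA bb, Co t' (1/10) 4294967296 (pg 23) (pgA 23) h V hA VA bb :=
  useWin winB32 (by norm_num [pa]) (by norm_num [pa]) (by norm_num [pa]) (by norm_num [pa]) (by norm_num [pg]) (by norm_num [pgA])

theorem cw24 : ∀ t' : ℝ, pa 24 ≤ t' → t' ≤ pa (24 + 1) →
    ∃ h V hA VA bb, Co t' (1/10) 4294967296 (pg 24) (pgA 24) h V hA VA bb :=
  useWin winB33 (by norm_num [pa]) (by norm_num [pa]) (by norm_num [pa]) (by norm_num [pa]) (by norm_num [pg]) (by norm_num [pgA])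

theorem cw25 : ∀ t' : ℝ, pa 25 ≤ t' → t' ≤ pa (25 + 1) →
    ∃ h V hA VA bb, Co t' (1/10) 4294967296 (pg 25) (pgA 25) h V hA VA bb :=
  useWin winB34 (by norm_num [pa]) (by norm_num [pa]) (by norm_num [pa]) (by norm_num [pa]) (by norm_num [pg]) (by norm_num [pgA])

theorem cw26 : ∀ t' : ℝ, pa 26 ≤ t' → t' ≤ pa (26 + 1) →
    ∃ h V hA VA bb, Co t' (1/10) 4294967296 (pg 26) (pgA 26) h V hA VA bb :=
  useWin winB35 (by norm_num [pa]) (by norm_num [pa]) (by norm_num [pa]) (by norm_num [pa]) (by norm_num [pg]) (by norm_num [pgA])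

theorem cw27 : ∀ t' : ℝ, pa 27 ≤ t' → t' ≤ pa (27 + 1) →
    ∃ h V hA VA bb, Co t' (1/10) 4294967296 (pg 27) (pgA 27) h V hA VA bb :=
  useWin winB36 (by norm_num [pa]) (by norm_num [pa]) (by norm_num [pa]) (by norm_num [pa]) (by norm_num [pg]) (by norm_num [pgA])

theorem cw28 : ∀ t' : ℝ, pa 28 ≤ t' → t' ≤ pa (28 + 1) →
    ∃ h V hA VA bb, Co t' (1/10) 4294967296 (pg 28) (pgA 28) h V hA VA bb :=
  useWin winB37 (by norm_num [pa]) (by norm_num [pa]) (by norm_num [pa]) (by norm_num [pa]) (by norm_num [pg]) (by norm_num [pgA])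

theorem cw29 : ∀ t' : ℝ, pa 29 ≤ t' → t' ≤ pa (29 + 1) →
    ∃ h V hA VA bb, Co t' (1/10) 4294967296 (pg 29) (pgA 29) h V hA VA bb :=
  useWin winB38 (by norm_num [pa]) (by norm_num [pa]) (by norm_num [pa]) (by norm_num [pa]) (by norm_num [pg]) (by norm_num [pgA])

theorem cw30 : ∀ t' : ℝ, pa 30 ≤ t' → t' ≤ pa (30 + 1) →
    ∃ h V hA VA bb, Co t' (1/10) 4294967296 (pg 30) (pgA 30) h V hA VA bb :=
  useWin winB39 (by norm_num [pa]) (by norm_num [pa]) (by norm_num [pa]) (by norm_num [pa]) (by norm_num [pg]) (by norm_num [pgA])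

theorem cw31 : ∀ t' : ℝ, pa 31 ≤ t' → t' ≤ pa (31 + 1) →
    ∃ h V hA VA bb, Co t' (1/10) 4294967296 (pg 31) (pgA 31) h V hA VA bb :=
  useWin winB40 (by norm_num [pa]) (by norm_num [pa]) (by norm_num [pa]) (by norm_num [pa]) (by norm_num [pg]) (by norm_num [pgA])

theorem cw32 : ∀ t' : ℝ, pa 32 ≤ t' → t' ≤ pa (32 + 1) →
    ∃ h V hA VA bb, Co t' (1/10) 4294967296 (pg 32) (pgA 32) h V hA VA bb :=
  useWin winB41 (by norm_num [pa]) (by norm_num [pa]) (by norm_num [pa]) (by norm_num [pa]) (by norm_num [pg]) (by norm_num [pgA])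

theorem cw33 : ∀ t' : ℝ, pa 33 ≤ t' → t' ≤ pa (33 + 1) →
    ∃ h V hA VA bb, Co t' (1/10) 4294967296 (pg 33) (pgA 33) h V hA VA bb :=
  useWin winB42 (by norm_num [pa]) (by norm_num [pa]) (by norm_num [pa]) (by norm_num [pa]) (by norm_num [pg]) (by norm_num [pgA])

theorem cw34 : ∀ t' : ℝ, pa 34 ≤ t' → t' ≤ pa (34 + 1) →
    ∃ h V hA VA bb, Co t' (1/10) 4294967296 (pg 34) (pgA 34) h V hA VA bb :=
  useWin winB43 (by norm_num [pa]) (by norm_num [pa]) (by norm_num [pa]) (by norm_num [pa]) (by norm_num [pg]) (by norm_num [pgA])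

theorem cw35 : ∀ t' : ℝ, pa 35 ≤ t' → t' ≤ pa (35 + 1) →
    ∃ h V hA VA bb, Co t' (1/10) 4294967296 (pg 35) (pgA 35) h V hA VA bb :=
  useWin winB44 (by norm_num [pa]) (by norm_num [pa]) (by norm_num [pa]) (by norm_num [pa]) (by norm_num [pg]) (by norm_num [pgA])

theorem cw36 : ∀ t' : ℝ, pa 36 ≤ t' → t' ≤ pa (36 + 1) →
    ∃ h V hA VA bb, Co t' (1/10) 4294967296 (pg 36) (pgA 36) h V hA VA bb :=
  useWin winB45 (by norm_num [pa]) (by norm_num [pa]) (by norm_num [pa]) (by norm_num [pa]) (by norm_num [pg]) (by norm_num [pgA])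

theorem cw37 : ∀ t' : ℝ, pa 37 ≤ t' → t' ≤ pa (37 + 1) →
    ∃ h V hA VA bb, Co t' (1/10) 4294967296 (pg 37) (pgA 37) h V hA VA bb :=
  useWin winB46 (by norm_num [pa]) (by norm_num [pa]) (by norm_num [pa]) (by norm_num [pa]) (by norm_num [pg]) (by norm_num [pgA])

theorem cw38 : ∀ t' : ℝ, pa 38 ≤ t' → t' ≤ pa (38 + 1) →
    ∃ h V hA VA bb, Co t' (1/10) 4294967296 (pg 38) (pgA 38) h V hA VA bb :=
  useWin winB47 (by norm_num [pa]) (by norm_num [pa]) (by norm_num [pa]) (by norm_num [pa]) (by norm_num [pg]) (by norm_num [pgA])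

theorem co : Stmt_CO := by
  refine ⟨1 / 10, 4294967296, by norm_num, by norm_num, 39, pa, pg, pgA, by norm_num [pa], by norm_num [pa], ?_⟩
  intro k hk
  refine ⟨pa_step k hk, pr_all k hk, ?_⟩
  interval_cases k
  · exact cw0
  · exact cw1
  · exact cw2
  · exact cw3
  · exact cw4
  · exact cw5
  · exact cw6
  · exact cw7
  · exact cw8
  · exact cw9
  · exact cw10
  · exact cw11
  · exact cw12
  · exact cw13
  · exact cw14
  · exact cw15
  · exact cw16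
  · exact cw17
  · exact cw18
  · exact cw19
  · exact cw20
  · exact cw21
  · exact cw22
  · exact cw23
  · exact cw24
  · exact cw25
  · exact cw26
  · exact cw27
  · exact cw28
  · exact cw29
  · exact cw30
  · exact cw31
  · exact cw32
  · exact cw33
  · exact cw34
  · exact cw35
  · exact cw36
  · exact cw37
  · exact cw38

end Pool.Agent.FCQ.C
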