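import Pool.Agent.FCQ.C.G4

/-!
# Growth from the certificate for the delayed chain (GONE)
-/

set_option autoImplicit false

namespace Pool.Agent.FCQ.C

open MeasureTheory Set

noncomputable section

theorem dv0 : dv 0 = -3 := dv_zero
theorem dv1 : dv 1 = 0 := dv_one
theorem dv2 : dv 2 = 3 := dv_two

/-- one step in the normalised variable -/
theorem T_norm {t l d : ℝ} (hl : 2 * l = 1 + t) (hd : l * (2 * d) = 1 - t) (φ : ℝ → ℝ) (X : ℝ) :
    T t φ (l * X) = TT d (fun Y => φ (l * Y)) X := by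
  unfold TT
  rw [T_apply]
  simp only [Fin.sum_univ_five, Fin.sum_univ_three, sv0, sv1, sv2, sv3, sv4, W0, W1, W2, W3, W4, cl0, cl1, cl2, cl3, cl4,
    pd00, pd01, pd02, pd10, pd11, pd12, pd20, pd21, pd22, dl00, dl01, dl02, dl10, dl11, dl12, dl20, dl21, dl22]
  have ht : t = 2 * l - 1 := by linarith
  have hld : l * d = 1 - l := by linarith
  have a0 : l * (4 * X - -6 - d * 0) = 4 * (l * X) + 3 + 3 * t := by rw [ht]; ring
  have a1 : l * (4 * X - -3 - d * -3) = 4 * (l * X) + 3 := by linear_combination (3:ℝ) * hld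
  have a2 : l * (4 * X - -3 - d * 3) = 4 * (l * X) + 3 * t := by rw [ht]; linear_combination (-3:ℝ) * hld
  have a3 : l * (4 * X - 0 - d * -6) = 4 * (l * X) + 3 - 3 * t := by rw [ht]; linear_combination (6:ℝ) * hld
  have a4 : l * (4 * X - 0 - d * 0) = 4 * (l * X) := by ring
  have a5 : l * (4 * X - 0 - d * 6) = 4 * (l * X) - 3 + 3 * t := by rw [ht]; linear_combination (-6:ℝ) * hld
  have a6 : l * (4 * X - 3 - d * -3) = 4 * (l * X) - 3 * t := by rw [ht]; linear_combination (3:ℝ) * hld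
  have a7 : l * (4 * X - 3 - d * 3) = 4 * (l * X) - 3 := by linear_combination (-3:ℝ) * hld
  have a8 : l * (4 * X - 6 - d * 0) = 4 * (l * X) - 3 - 3 * t := by rw [ht]; ring
  rw [a0, a1, a2, a3, a4, a5, a6, a7, a8]
  ring

theorem T_norm_iter {t l d : ℝ} (hl : 2 * l = 1 + t) (hd : l * (2 * d) = 1 - t) (φ : ℝ → ℝ) (n : ℕ) :
    ∀ X, (T t)^[n] φ (l * X) = FF d (fun Y => φ (l * Y)) n X := by
  induction n with
  | zero => intro X; rfl
  | succ n ih =>
    intro X
    rw [iter_succ', FF_succ, T_norm hl hd]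
    congr 1
    funext Y
    exact ih Y

/-- change of variables -/
theorem cov2 (H : ℝ → ENNReal) (hH : Measurable H) {l : ℝ} (hl : 0 < l) :
    ∫⁻ x, H (l⁻¹ * x) = ENNReal.ofReal l * ∫⁻ y, H y := by
  have h1 : ∫⁻ x, H (l⁻¹ * x) = ∫⁻ z, H z ∂(Measure.map (fun x : ℝ => l⁻¹ * x) volume) := by
    rw [lintegral_map (f := H) hH (by fun_prop)]
  rw [h1, Real.map_volume_mul_left (by positivity : l⁻¹ ≠ 0), lintegral_smul_measure]
  have h2 : |(l⁻¹)⁻¹| = l := by rw [inv_inv, abs_of_pos hl]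
  rw [h2]
  rfl

theorem gone : Stmt_GONE := by
  intro c0 C0 hc0 hC0
  refine ⟨64 + 196608 * (C0 + C0 ^ 2) / c0, ?_, ?_⟩
  · have : 0 ≤ 196608 * (C0 + C0 ^ 2) / c0 := by positivity
    linarith
  intro u G GA j h V hA VA bb hu0 hu hj hG hGA hc r hr
  obtain ⟨m, rfl⟩ : ∃ m, j = m + 2 := ⟨j - 2, by omega⟩
  have hGp : 0 < G := by linarith
  have hq1 : 1 ≤ GA / G := by rw [le_div_iff₀ hGp]; linarith
  -- the directions
  set d : ℝ := u / 4 ^ (m + 2) with hd
  have hu00 : 0 ≤ u := by linarith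
  have hd0 : 0 ≤ d := by positivity
  have hd1 : d ≤ 1/64 := by
    rw [hd, div_le_iff₀ (by positivity)]
    have h1 : (16:ℝ) ≤ 4 ^ (m + 2) := by
      rw [pow_add]
      have : (1:ℝ) ≤ 4 ^ m := one_le_pow₀ (by norm_num)
      nlinarith
    linarith
  have ht : tau (m + 2) u = (1 - d) / (1 + d) := rfl
  set t : ℝ := tau (m + 2) u with htt
  set l : ℝ := 1 / (1 + d) with hl
  have hlp : 0 < l := by positivity
  have hl1 : l ≤ 1 := by rw [hl, div_le_one (by positivity)]; linarith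
  have hdp : (1 + d) ≠ 0 := by positivity
  have e1 : 2 * l = 1 + t := by rw [hl, ht]; field_simp; ring
  have e2 : l * (2 * d) = 1 - t := by rw [hl, ht]; field_simp; ring
  have ht1 : t ≤ 1 := by
    have : 0 ≤ l * (2 * d) := by positivity
    linarith
  -- the base function
  set χ : ℝ → ℝ := fun Y => chi (169/100) (l * Y) with hχ
  have χ0 : ∀ x, 0 ≤ χ x := fun x => chi_nonneg _ _
  have mχ : Measurable χ := (measurable_chi _).comp (measurable_id.const_mul l)
  have χ1 : ∀ x, |x| ≤ 167/100 → 1 ≤ χ x := by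
    intro x hx
    have h1 : |l * x| ≤ 169/100 - 1/50 := by
      rw [abs_mul, abs_of_pos hlp]
      calc l * |x| ≤ 1 * |x| := mul_le_mul_of_nonneg_right hl1 (abs_nonneg _)
        _ ≤ _ := by linarith
    show 1 ≤ chi (169/100) (l * x)
    unfold chi
    rw [if_pos h1]
  have hb : ∀ c, 0 ≤ bb c := fun c => le_trans hc0.le (hc.bp c)
  have hb1 : ∀ c, bb c ≤ 1 := fun c => by
    have h1 := Finset.single_le_sum (f := bb) (fun c _ => hb c) (Finset.mem_univ c)
    exact h1.trans hc.bs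
  have mFF : ∀ n, Measurable (FF d χ n) := fun n => FF_meas mχ n
  -- to the normalised variable
  have hX : ∫⁻ x in Icc (-(9 / 10 + t)) (9 / 10 + t), (ENNReal.ofReal ((T t)^[r] (chi (169/100)) x))⁻¹ ^ 2 ≤
      ∫⁻ x in Icc (-(19/10 : ℝ)) (19/10), (ENNReal.ofReal (FF d χ r x))⁻¹ ^ 2 := by
    rw [← lintegral_indicator measurableSet_Icc, ← lintegral_indicator measurableSet_Icc]
    have hm : Measurable ((Icc (-(19/10 : ℝ)) (19/10)).indicator fun x => (ENNReal.ofReal (FF d χ r x))⁻¹ ^ 2) :=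
      (((mFF r).ennreal_ofReal.inv).pow_const 2).indicator measurableSet_Icc
    have h1 := cov2 _ hm hlp
    calc ∫⁻ x, (Icc (-(9 / 10 + t)) (9 / 10 + t)).indicator
          (fun x => (ENNReal.ofReal ((T t)^[r] (chi (169/100)) x))⁻¹ ^ 2) x
        ≤ ∫⁻ x, (Icc (-(19/10 : ℝ)) (19/10)).indicator (fun x => (ENNReal.ofReal (FF d χ r x))⁻¹ ^ 2) (l⁻¹ * x) := by
          refine lintegral_mono fun x => ?_
          by_cases hx : x ∈ Icc (-(9 / 10 + t)) (9 / 10 + t)
          · rw [indicator_of_mem hx]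
            have e3 : l * (l⁻¹ * x) = x := by rw [← mul_assoc, mul_inv_cancel₀ hlp.ne', one_mul]
            have h2 : l⁻¹ * x ∈ Icc (-(19/10 : ℝ)) (19/10) := by
              have hb2 : 9/10 + t ≤ l * (19/10) := by linarith
              rw [mem_Icc] at hx ⊢
              constructor
              · have : -(19/10) ≤ l⁻¹ * x ↔ l * (-(19/10)) ≤ x := by
                  rw [← mul_le_mul_iff_right₀ hlp, e3]
                rw [this]; linarith [hx.1]
              · have : l⁻¹ * x ≤ 19/10 ↔ x ≤ l * (19/10) := by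
                  rw [← mul_le_mul_iff_right₀ hlp, e3]
                rw [this]; linarith [hx.2]
            rw [indicator_of_mem h2]
            have h3 := T_norm_iter e1 e2 (chi (169/100)) r (l⁻¹ * x)
            rw [e3] at h3
            rw [h3]
          · rw [indicator_of_notMem hx]
            exact zero_le
      _ = ENNReal.ofReal l * _ := h1
      _ ≤ 1 * _ := by
          refine mul_le_mul_left ?_ _
          rw [← ENNReal.ofReal_one]
          exact ENNReal.ofReal_le_ofReal hl1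
      _ = _ := one_mul _
  refine hX.trans ?_
  have hq : 1 ≤ (GA / G) ^ (m + 2) := one_le_pow₀ hq1
  have hGr : 1 ≤ G ^ r := one_le_pow₀ hG
  have hpos : 0 ≤ 196608 * (C0 + C0 ^ 2) / c0 := by positivity
  rcases Nat.lt_or_ge r 2 with h2 | h2
  · have h1 : r = 1 := by omega
    subst h1
    have h3 : ∫⁻ x in Icc (-(19/10 : ℝ)) (19/10), (ENNReal.ofReal (FF d χ 1 x))⁻¹ ^ 2 ≤
        ∫⁻ x in Icc (-(19/10 : ℝ)) (19/10), ENNReal.ofReal (4 ^ 2) := by
      refine setLIntegral_mono' measurableSet_Icc fun x hx => ?_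
      have h4 : |x| ≤ 61/32 := abs_le.2 ⟨by linarith [hx.1], by linarith [hx.2]⟩
      exact GMID.inv_sq_le (by norm_num) (FF1_lower hd0 hd1 χ0 χ1 h4)
    refine h3.trans ?_
    rw [lintegral_const, Measure.restrict_apply MeasurableSet.univ, univ_inter, Real.volume_Icc,
      ← ENNReal.ofReal_mul (by positivity)]
    apply ENNReal.ofReal_le_ofReal
    have h5 : 1 ≤ (GA / G) ^ (m + 2) * G ^ 1 := by
      calc (1:ℝ) = 1 * 1 := by norm_num
        _ ≤ _ := mul_le_mul hq hGr (by norm_num) (by positivity)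
    have h6 : (64 + 196608 * (C0 + C0 ^ 2) / c0) * (GA / G) ^ (m + 2) * G ^ 1
        = (64 + 196608 * (C0 + C0 ^ 2) / c0) * ((GA / G) ^ (m + 2) * G ^ 1) := by ring
    rw [h6]
    nlinarith
  · obtain ⟨n, rfl⟩ : ∃ n, r = n + 2 := ⟨r - 2, by omega⟩
    have h3 : ∫⁻ x in Icc (-(19/10 : ℝ)) (19/10), (ENNReal.ofReal (FF d χ (n + 2) x))⁻¹ ^ 2 ≤
        ENNReal.ofReal (1 / c0) * II (VA 2) (FF d χ (n + 2)) := by
      have hm : Measurable fun x => ENNReal.ofReal (VA 2 x) * (ENNReal.ofReal (FF d χ (n + 2) x))⁻¹ ^ 2 :=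
        (hc.mVA 2).ennreal_ofReal.mul (((mFF (n + 2)).ennreal_ofReal.inv).pow_const 2)
      unfold II
      rw [← lintegral_const_mul _ hm, ← lintegral_indicator measurableSet_Icc]
      refine lintegral_mono fun x => ?_
      by_cases hx : x ∈ Icc (-(19/10 : ℝ)) (19/10)
      · rw [indicator_of_mem hx]
        have h4 : |x| ≤ 19/10 := abs_le.2 ⟨hx.1, hx.2⟩
        have h5 := hc.loA 2 x h4
        have h6 : 1 ≤ ENNReal.ofReal (1 / c0) * ENNReal.ofReal (VA 2 x) := by
          rw [← ENNReal.ofReal_mul (by positivity), ← ENNReal.ofReal_one]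
          apply ENNReal.ofReal_le_ofReal
          rw [one_div, ← div_eq_inv_mul, le_div_iff₀ hc0, one_mul]
          exact h5
        show _ ≤ ENNReal.ofReal (1 / c0) * (ENNReal.ofReal (VA 2 x) * _)
        rw [← mul_assoc]
        exact le_mul_of_one_le_left zero_le h6
      · rw [indicator_of_notMem hx]
        exact zero_le
    have h7 := II_growth (u := u) (d := d) hc hG hGA hC0.le hb hb1 χ0 χ1 mχ m hu00 hu rfl n
    refine h3.trans ((mul_le_mul_right h7 _).trans ?_)
    rw [← ENNReal.ofReal_mul (by positivity)]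
    apply ENNReal.ofReal_le_ofReal
    have h9 : G ^ n ≤ G ^ (n + 2) := pow_le_pow_right₀ hG (by omega)
    have h10 : 1 / c0 * (196608 * (C0 + C0 ^ 2) * ((GA / G) ^ (m + 2) * G ^ n))
        = 196608 * (C0 + C0 ^ 2) / c0 * (GA / G) ^ (m + 2) * G ^ n := by
      field_simp
    rw [h10]
    have h11 : 196608 * (C0 + C0 ^ 2) / c0 * (GA / G) ^ (m + 2) * G ^ n ≤
        196608 * (C0 + C0 ^ 2) / c0 * (GA / G) ^ (m + 2) * G ^ (n + 2) :=
      mul_le_mul_of_nonneg_left h9 (by positivity)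
    have h12 : 0 ≤ (GA / G) ^ (m + 2) * G ^ (n + 2) := by positivity
    nlinarith

end

end Pool.Agent.FCQ.C
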