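import Mathlib

/-!
# Certificate for the delayed chain: the checker

Everything is computed with natural numbers, so that the kernel evaluates it quickly.
-/

set_option autoImplicit false

namespace Pool.Agent.FCQ.C

/-- lane `p` (32 bits) of the table `T` -/
def lk (T p : ℕ) : ℕ :=
  Nat.land (Nat.shiftRight T (Nat.mul (nat_lit 32) p)) (nat_lit 4294967295)

/-- a table of `len` entries which starts at the index `a`, zero elsewhere -/
def tab (a len T p : ℕ) : ℕ :=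
  cond (Nat.ble a p) (cond (Nat.ble len (Nat.sub p a)) (nat_lit 0) (lk T (Nat.sub p a))) (nat_lit 0)

/-- conjunction over `i < n` -/
def allB (f : ℕ → Bool) (n : ℕ) : Bool := Nat.rec true (fun k ih => cond (f k) ih false) n

/-- evaluate an argument -/
def frc (x : ℕ) (g : ℕ → Bool) : Bool := Nat.rec (g (nat_lit 0)) (fun k _ => g (Nat.succ k)) x

/-- `4 Σ_k W_k f(y - sv_k)` on indices, `n` cells per unit -/
def H1 (f : ℕ → ℕ) (n y : ℕ) : ℕ :=
  Nat.add (Nat.mul (nat_lit 6) (f y))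
    (Nat.add (Nat.mul (nat_lit 4) (Nat.add (f (Nat.add y (Nat.mul (nat_lit 3) n)))
        (f (Nat.sub y (Nat.mul (nat_lit 3) n)))))
      (Nat.add (f (Nat.add y (Nat.mul (nat_lit 6) n))) (f (Nat.sub y (Nat.mul (nat_lit 6) n)))))

/-- the entry `c` of a triple -/
def pick3 (x y z c : ℕ) : ℕ := Nat.rec x (fun k _ => Nat.rec y (fun _ _ => z) k) c

/-- minimum and maximum of two values -/
def mn (a b : ℕ) : ℕ := cond (Nat.ble a b) a b
def mx (a b : ℕ) : ℕ := cond (Nat.ble a b) b a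

/-- upper bound of `2^20 (24 h / t)^3` -/
def KK (h t : ℕ) : ℕ :=
  Nat.succ (Nat.div (Nat.mul (nat_lit 14495514624) (Nat.mul h (Nat.mul h h))) (Nat.mul t (Nat.mul t t)))

/-- the five forced values `A0, A1, A1', A2, A2'` -/
def AA (f : ℕ → ℕ) (n i q : ℕ) (g : ℕ → ℕ → ℕ → ℕ → ℕ → Bool) : Bool :=
  frc (H1 f n q) fun A0 =>
  frc (mn (H1 f n (Nat.add q i)) (H1 f n (Nat.add q (Nat.succ i)))) fun A1 =>
  frc (mn (H1 f n (Nat.sub q (Nat.succ i))) (H1 f n (Nat.sub q i))) fun B1 =>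
  frc (mn (H1 f n (Nat.add q (Nat.add i i))) (mn (H1 f n (Nat.add q (Nat.succ (Nat.add i i))))
    (H1 f n (Nat.add q (Nat.succ (Nat.succ (Nat.add i i))))))) fun A2 =>
  frc (mn (H1 f n (Nat.sub q (Nat.succ (Nat.succ (Nat.add i i)))))
    (mn (H1 f n (Nat.sub q (Nat.succ (Nat.add i i)))) (H1 f n (Nat.sub q (Nat.add i i))))) fun B2 =>
  g A0 A1 B1 A2 B2

/-- the six coefficients (without the weights of the digits) -/
def CC (f : ℕ → ℕ) (n i h q : ℕ) (b0 b1 b2 : ℕ) (g : ℕ → ℕ → ℕ → ℕ → ℕ → ℕ → Bool) : Bool :=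
  AA f n i q fun A0 A1 B1 A2 B2 =>
  frc (Nat.mul b0 (KK h (Nat.add A0 (Nat.add (Nat.mul (nat_lit 4) B1) B2)))) fun K00 =>
  frc (Nat.mul (Nat.mul (nat_lit 4) b0) (KK h (Nat.add A1 (Nat.add (Nat.mul (nat_lit 4) A0) B1)))) fun K01 =>
  frc (Nat.mul b0 (KK h (Nat.add A0 (Nat.add (Nat.mul (nat_lit 4) A1) A2)))) fun K02 =>
  frc (Nat.mul (Nat.mul (nat_lit 3) b1) (KK h (Nat.mul (nat_lit 3) (Nat.add A0 B1)))) fun K10 =>
  frc (Nat.mul (Nat.mul (nat_lit 3) b1) (KK h (Nat.mul (nat_lit 3) (Nat.add A0 A1)))) fun K12 =>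
  frc (Nat.mul (Nat.mul (nat_lit 6) b2) (KK h (Nat.mul (nat_lit 6) A0))) fun K21 =>
  g K00 K01 K02 K10 K12 K21

/-- the sum over the classes `Q1` and `e` for one digit; `v Q1` is the table of `V Q1 c` -/
def SS (v : ℕ → ℕ → ℕ) (n i q K00 K01 K02 K10 K12 K21 : ℕ) : ℕ :=
  Nat.add (Nat.mul K00 (mx (v (nat_lit 0) (Nat.div (Nat.sub (Nat.add q (Nat.mul (nat_lit 36) n)) (Nat.succ i)) (nat_lit 4)))
      (v (nat_lit 0) (Nat.div (Nat.sub (Nat.add q (Nat.mul (nat_lit 36) n)) i) (nat_lit 4)))))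
  (Nat.add (Nat.mul K01 (v (nat_lit 0) (Nat.div (Nat.add q (Nat.mul (nat_lit 36) n)) (nat_lit 4))))
  (Nat.add (Nat.mul K02 (mx (v (nat_lit 0) (Nat.div (Nat.add (Nat.add q (Nat.mul (nat_lit 36) n)) i) (nat_lit 4)))
      (v (nat_lit 0) (Nat.div (Nat.add (Nat.add q (Nat.mul (nat_lit 36) n)) (Nat.succ i)) (nat_lit 4)))))
  (Nat.add (Nat.mul K10 (mx (v (nat_lit 1) (Nat.div (Nat.sub (Nat.mul (nat_lit 2) (Nat.add q (Nat.mul (nat_lit 36) n))) (Nat.succ i)) (nat_lit 8)))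
      (v (nat_lit 1) (Nat.div (Nat.sub (Nat.succ (Nat.mul (nat_lit 2) (Nat.add q (Nat.mul (nat_lit 36) n)))) i) (nat_lit 8)))))
  (Nat.add (Nat.mul K12 (mx (v (nat_lit 1) (Nat.div (Nat.add (Nat.mul (nat_lit 2) (Nat.add q (Nat.mul (nat_lit 36) n))) i) (nat_lit 8)))
      (v (nat_lit 1) (Nat.div (Nat.add (Nat.mul (nat_lit 2) (Nat.add q (Nat.mul (nat_lit 36) n))) (Nat.succ (Nat.succ i))) (nat_lit 8)))))
    (Nat.mul K21 (v (nat_lit 2) (Nat.div (Nat.add q (Nat.mul (nat_lit 36) n)) (nat_lit 4))))))))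

/-- the check for one class `Q2` and one cell -/
def chk1 (n M i b0 b1 b2 G : ℕ) (f : ℕ → ℕ) (v : ℕ → ℕ → ℕ → ℕ) (bc : ℕ → ℕ) (Q2 p : ℕ) : Bool :=
  frc (f p) fun h =>
  cond (CC f n i h p b0 b1 b2 fun K00 K01 K02 K10 K12 K21 =>
      allB (fun c => Nat.ble
        (Nat.mul (nat_lit 600) (SS (fun Q => v Q c) n i p K00 K01 K02 K10 K12 K21))
        (Nat.mul G (Nat.mul (nat_lit 100663296) (Nat.mul (bc c) (v Q2 (nat_lit 0) p))))) (nat_lit 3))
  (cond (CC f n i h (Nat.add p (Nat.mul (nat_lit 3) n)) b0 b1 b2 fun K00 K01 K02 K10 K12 K21 =>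
      CC f n i h (Nat.sub p (Nat.mul (nat_lit 3) n)) b0 b1 b2 fun L00 L01 L02 L10 L12 L21 =>
      allB (fun c => Nat.ble
        (Nat.mul (nat_lit 400) (Nat.add
          (SS (fun Q => v Q c) n i (Nat.add p (Nat.mul (nat_lit 3) n)) K00 K01 K02 K10 K12 K21)
          (SS (fun Q => v Q c) n i (Nat.sub p (Nat.mul (nat_lit 3) n)) L00 L01 L02 L10 L12 L21)))
        (Nat.mul G (Nat.mul (nat_lit 100663296) (Nat.mul (bc c) (v Q2 (nat_lit 1) p))))) (nat_lit 3))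
  (CC f n i h (Nat.add p (Nat.mul (nat_lit 6) n)) b0 b1 b2 fun K00 K01 K02 K10 K12 K21 =>
      CC f n i h (Nat.sub p (Nat.mul (nat_lit 6) n)) b0 b1 b2 fun L00 L01 L02 L10 L12 L21 =>
      allB (fun c => Nat.ble
        (Nat.mul (nat_lit 100) (Nat.add
          (SS (fun Q => v Q c) n i (Nat.add p (Nat.mul (nat_lit 6) n)) K00 K01 K02 K10 K12 K21)
          (SS (fun Q => v Q c) n i (Nat.sub p (Nat.mul (nat_lit 6) n)) L00 L01 L02 L10 L12 L21)))
        (Nat.mul G (Nat.mul (nat_lit 100663296) (Nat.mul (bc c) (v Q2 (nat_lit 2) p))))) (nat_lit 3))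
    false) false

end Pool.Agent.FCQ.C
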