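import Pool.Agent.FCQ.C.Sound3

/-!
# The checker for the filling phase
-/

set_option autoImplicit false

namespace Pool.Agent.FCQ.C

/-- upper bound of `2^20 (4 h / t)^3` -/
def KA (h t : ℕ) : ℕ :=
  Nat.succ (Nat.div (Nat.mul (nat_lit 67108864) (Nat.mul h (Nat.mul h h))) (Nat.mul t (Nat.mul t t)))

def chkA (n G : ℕ) (f : ℕ → ℕ) (v : ℕ → ℕ → ℕ) (bc : ℕ → ℕ) (p : ℕ) : Bool :=
  frc (f p) fun h =>
  cond (frc (KA h (H1 f n p)) fun K =>
      allB (fun c => Nat.ble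
        (Nat.mul (nat_lit 300000) (Nat.mul K (v c (Nat.div (Nat.add p (Nat.mul (nat_lit 36) n)) (nat_lit 4)))))
        (Nat.mul G (Nat.mul (nat_lit 8388608) (Nat.mul (bc c) (v (nat_lit 0) p))))) (nat_lit 3))
  (cond (frc (KA h (H1 f n (Nat.add p (Nat.mul (nat_lit 3) n)))) fun K =>
      frc (KA h (H1 f n (Nat.sub p (Nat.mul (nat_lit 3) n)))) fun L =>
      allB (fun c => Nat.ble
        (Nat.mul (nat_lit 200000) (Nat.add
          (Nat.mul K (v c (Nat.div (Nat.add (Nat.add p (Nat.mul (nat_lit 3) n)) (Nat.mul (nat_lit 36) n)) (nat_lit 4))))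
          (Nat.mul L (v c (Nat.div (Nat.add (Nat.sub p (Nat.mul (nat_lit 3) n)) (Nat.mul (nat_lit 36) n)) (nat_lit 4))))))
        (Nat.mul G (Nat.mul (nat_lit 8388608) (Nat.mul (bc c) (v (nat_lit 1) p))))) (nat_lit 3))
  (frc (KA h (H1 f n (Nat.add p (Nat.mul (nat_lit 6) n)))) fun K =>
      frc (KA h (H1 f n (Nat.sub p (Nat.mul (nat_lit 6) n)))) fun L =>
      allB (fun c => Nat.ble
        (Nat.mul (nat_lit 50000) (Nat.add
          (Nat.mul K (v c (Nat.div (Nat.add (Nat.add p (Nat.mul (nat_lit 6) n)) (Nat.mul (nat_lit 36) n)) (nat_lit 4))))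
          (Nat.mul L (v c (Nat.div (Nat.add (Nat.sub p (Nat.mul (nat_lit 6) n)) (Nat.mul (nat_lit 36) n)) (nat_lit 4))))))
        (Nat.mul G (Nat.mul (nat_lit 8388608) (Nat.mul (bc c) (v (nat_lit 2) p))))) (nat_lit 3))
    false) false

theorem KA_def (h t : ℕ) : KA h t = 67108864 * (h * (h * h)) / (t * (t * t)) + 1 := rfl

theorem KA_le {h t : ℕ} {T : ℝ} (ht : 0 < t) (hT : (t:ℝ) ≤ T) :
    1048576 * (4 * (h:ℝ) / T) ^ 3 ≤ (KA h t : ℝ) := by
  have ht' : (0:ℝ) < (t:ℝ) := by exact_mod_cast ht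
  have hb : 0 < t * (t * t) := by positivity
  have h1 : 67108864 * (h * (h * h)) < (67108864 * (h * (h * h)) / (t * (t * t)) + 1) * (t * (t * t)) := by
    have h2 := Nat.div_add_mod (67108864 * (h * (h * h))) (t * (t * t))
    have h3 := Nat.mod_lt (67108864 * (h * (h * h))) hb
    have h4 : (67108864 * (h * (h * h)) / (t * (t * t)) + 1) * (t * (t * t))
      = t * (t * t) * (67108864 * (h * (h * h)) / (t * (t * t))) + t * (t * t) := by ring
    rw [h4]; omega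
  rw [← KA_def] at h1
  have h2 : (67108864:ℝ) * ((h:ℝ) * ((h:ℝ) * (h:ℝ))) ≤ (KA h t : ℝ) * ((t:ℝ) * ((t:ℝ) * (t:ℝ))) := by
    exact_mod_cast h1.le
  have h3 : (4 * (h:ℝ) / T) ^ 3 ≤ (4 * (h:ℝ) / (t:ℝ)) ^ 3 := by
    apply pow_le_pow_left₀
    · have : (0:ℝ) < T := lt_of_lt_of_le ht' hT
      positivity
    · apply div_le_div_of_nonneg_left _ ht' hT
      positivity
  have h4 : 1048576 * (4 * (h:ℝ) / (t:ℝ)) ^ 3 = (67108864:ℝ) * ((h:ℝ) * ((h:ℝ) * (h:ℝ))) / ((t:ℝ) * ((t:ℝ) * (t:ℝ))) := by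
    field_simp
    ring
  have h5 : 1048576 * (4 * (h:ℝ) / (t:ℝ)) ^ 3 ≤ (KA h t : ℝ) := by
    rw [h4, div_le_iff₀ (by positivity)]
    exact h2
  linarith

theorem chkA_def (n G : ℕ) (f : ℕ → ℕ) (v : ℕ → ℕ → ℕ) (bc : ℕ → ℕ) (p : ℕ) :
    chkA n G f v bc p =
  (frc (f p) fun h =>
  cond (frc (KA h (H1 f n p)) fun K =>
      allB (fun c => Nat.ble (300000 * (K * (v c ((p + 36 * n) / 4)))) (G * (8388608 * (bc c * v 0 p)))) 3)
  (cond (frc (KA h (H1 f n (p + 3 * n))) fun K =>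
      frc (KA h (H1 f n (p - 3 * n))) fun L =>
      allB (fun c => Nat.ble (200000 * (K * (v c ((p + 3 * n + 36 * n) / 4)) + L * (v c ((p - 3 * n + 36 * n) / 4))))
        (G * (8388608 * (bc c * v 1 p)))) 3)
  (frc (KA h (H1 f n (p + 6 * n))) fun K =>
      frc (KA h (H1 f n (p - 6 * n))) fun L =>
      allB (fun c => Nat.ble (50000 * (K * (v c ((p + 6 * n + 36 * n) / 4)) + L * (v c ((p - 6 * n + 36 * n) / 4))))
        (G * (8388608 * (bc c * v 2 p)))) 3)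
    false) false) := rfl

/-- the term of one digit, `y = r + sv_k` -/
noncomputable def TA1 (n : ℕ) (f g : ℕ → ℕ) (hv y : ℝ) : ℝ := (4 * hv / HR n f y) ^ 3 * rf n g (y / 4)

section
variable {n G : ℕ} {f : ℕ → ℕ} {v : ℕ → ℕ → ℕ} {bc : ℕ → ℕ} {p q : ℕ} {r y : ℝ}

theorem TA1_le (g : ℕ → ℕ) {h : ℕ} (hc : cell n y q) (hh : 0 < h → 0 < H1 f n q) :
    1048576 * TA1 n f g (h:ℝ) y ≤ (KA h (H1 f n q) * g ((q + 36 * n) / 4) : ℝ) := by
  have hV := vB g hc
  have hV0 := rf_nonneg n g (y / 4)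
  have e := H1_eq (f := f) hc
  have hK : 1048576 * (4 * (h:ℝ) / HR n f y) ^ 3 ≤ (KA h (H1 f n q) : ℝ) := by
    rcases Nat.eq_zero_or_pos h with h0 | h0
    · subst h0
      simp
    · exact KA_le (hh h0) (le_of_eq e.symm)
  unfold TA1
  calc 1048576 * ((4 * (h:ℝ) / HR n f y) ^ 3 * rf n g (y / 4))
      = (1048576 * (4 * (h:ℝ) / HR n f y) ^ 3) * rf n g (y / 4) := by ring
    _ ≤ _ := mul_le_mul hK hV hV0 (Nat.cast_nonneg _)

theorem chkA_sound (hchk : chkA n G f v bc p = true) (hc : cell n r p) (hp : 6 * n ≤ p) (c : ℕ) (hc3 : c < 3) :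
    (3/8) * TA1 n f (v c) (f p) r ≤ (G/100) * (bc c / 1000) * rf n (v 0) r ∧
    (1/4) * (TA1 n f (v c) (f p) (r + 3) + TA1 n f (v c) (f p) (r - 3)) ≤ (G/100) * (bc c / 1000) * rf n (v 1) r ∧
    (1/16) * (TA1 n f (v c) (f p) (r + 6) + TA1 n f (v c) (f p) (r - 6)) ≤ (G/100) * (bc c / 1000) * rf n (v 2) r := by
  rw [chkA_def, frc_eq, cond_true, cond_true, frc_eq, frc_eq, frc_eq, frc_eq, frc_eq, allB_iff, allB_iff, allB_iff] at hchk
  obtain ⟨k0, k1, k2⟩ := hchk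
  have k0 := Nat.le_of_ble_eq_true (k0 c hc3)
  have k1 := Nat.le_of_ble_eq_true (k1 c hc3)
  have k2 := Nat.le_of_ble_eq_true (k2 c hc3)
  have c3 : cell n (r + 3) (p + 3 * n) := by have := cell_add 3 hc; exact_mod_cast this
  have c3' : cell n (r - 3) (p - 3 * n) := by have := cell_sub 3 (by omega) hc; exact_mod_cast this
  have c6 : cell n (r + 6) (p + 6 * n) := by have := cell_add 6 hc; exact_mod_cast this
  have c6' : cell n (r - 6) (p - 6 * n) := by have := cell_sub 6 (by omega) hc; exact_mod_cast this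
  have s0 := TA1_le (f := f) (h := f p) (v c) hc H1_pos0
  have s3 := TA1_le (f := f) (h := f p) (v c) c3 H1_pos3
  have s3' := TA1_le (f := f) (h := f p) (v c) c3' (H1_pos3' (by omega))
  have s6 := TA1_le (f := f) (h := f p) (v c) c6 H1_pos6
  have s6' := TA1_le (f := f) (h := f p) (v c) c6' (H1_pos6' (by omega))
  have r0 := rf_cell (f := v 0) hc
  have r1 := rf_cell (f := v 1) hc
  have r2 := rf_cell (f := v 2) hc
  rw [r0, r1, r2]
  rify at k0 k1 k2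
  refine ⟨?_, ?_, ?_⟩
  · linarith
  · linarith
  · linarith

end

end Pool.Agent.FCQ.C
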