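import Pool.Agent.FCQ.Defs
import Pool.Agent.FCQ.C.ChkA

/-!
# From the checker to the structure `Co`
-/

set_option autoImplicit false

namespace Pool.Agent.FCQ.C

open MeasureTheory Set

theorem sv0 : sv 0 = -6 := by unfold sv; norm_num
theorem sv1 : sv 1 = -3 := by
  unfold sv
  rw [show ((1 : Fin 5).val : ℝ) = 1 by norm_num]; norm_num
theorem sv2 : sv 2 = 0 := by
  unfold sv
  rw [show ((2 : Fin 5).val : ℝ) = 2 by norm_num]; norm_num
theorem sv3 : sv 3 = 3 := by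
  unfold sv
  rw [show ((3 : Fin 5).val : ℝ) = 3 by norm_num]; norm_num
theorem sv4 : sv 4 = 6 := by
  unfold sv
  rw [show ((4 : Fin 5).val : ℝ) = 4 by norm_num]; norm_num
theorem W0 : W 0 = 1/4 := rfl
theorem W1 : W 1 = 1 := rfl
theorem W2 : W 2 = 3/2 := rfl
theorem W3 : W 3 = 1 := rfl
theorem W4 : W 4 = 1/4 := rfl
theorem cl0 : cl 0 = 2 := rfl
theorem cl1 : cl 1 = 1 := rfl
theorem cl2 : cl 2 = 0 := rfl
theorem cl3 : cl 3 = 1 := rfl
theorem cl4 : cl 4 = 2 := rfl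
theorem pd00 : pd 0 0 = 1/6 := rfl
theorem pd01 : pd 0 1 = 2/3 := rfl
theorem pd02 : pd 0 2 = 1/6 := rfl
theorem pd10 : pd 1 0 = 1/2 := rfl
theorem pd11 : pd 1 1 = 0 := rfl
theorem pd12 : pd 1 2 = 1/2 := rfl
theorem pd20 : pd 2 0 = 0 := rfl
theorem pd21 : pd 2 1 = 1 := rfl
theorem pd22 : pd 2 2 = 0 := rfl
theorem dl00 : dl 0 0 = -6 := by unfold dl; norm_num
theorem dl01 : dl 0 1 = 0 := by unfold dl; norm_num
theorem dl02 : dl 0 2 = 6 := by unfold dl; norm_num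
theorem dl10 : dl 1 0 = -3 := by unfold dl; norm_num
theorem dl11 : dl 1 1 = 0 := by unfold dl; norm_num
theorem dl12 : dl 1 2 = 3 := by unfold dl; norm_num
theorem dl20 : dl 2 0 = 0 := by
  show ((0 : Fin 3).val - 1 : ℝ) * 0 = 0; norm_num
theorem dl21 : dl 2 1 = 0 := by
  show (((1 : Fin 3).val : ℝ) - 1) * 0 = 0; norm_num
theorem dl22 : dl 2 2 = 0 := by
  show (((2 : Fin 3).val : ℝ) - 1) * 0 = 0; norm_num

/-- `4 Σ W_k φ(y - sv_k)` -/
noncomputable def HF (φ : ℝ → ℝ) (y : ℝ) : ℝ :=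
  6 * φ y + (4 * (φ (y + 3) + φ (y - 3)) + (φ (y + 6) + φ (y - 6)))

theorem HF_rf (n : ℕ) (f : ℕ → ℕ) (y : ℝ) : HF (rf n f) y = HR n f y := rfl

theorem TA_eq (φ : ℝ → ℝ) (z : ℝ) : TA φ (z / 4) = HF φ z / 4 := by
  unfold TA HF
  rw [Fin.sum_univ_five, sv0, sv1, sv2, sv3, sv4, W0, W1, W2, W3, W4]
  have e0 : 4 * (z / 4) - -6 = z + 6 := by ring
  have e1 : 4 * (z / 4) - -3 = z + 3 := by ring
  have e2 : 4 * (z / 4) - 0 = z := by ring
  have e3 : 4 * (z / 4) - 3 = z - 3 := by ring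
  have e4 : 4 * (z / 4) - 6 = z - 6 := by ring
  rw [e0, e1, e2, e3, e4]
  ring

theorem TD_eq (t' : ℝ) (Q : Fin 3) (φ : ℝ → ℝ) (z : ℝ) :
    TD t' Q φ (z / 4) = (pd Q 0 * HF φ (z - t' * dl Q 0) + pd Q 1 * HF φ (z - t' * dl Q 1)
      + pd Q 2 * HF φ (z - t' * dl Q 2)) / 4 := by
  unfold TD HF
  simp only [Fin.sum_univ_five, Fin.sum_univ_three, sv0, sv1, sv2, sv3, sv4, W0, W1, W2, W3, W4]
  have e0 : ∀ w : ℝ, 4 * (z / 4) - -6 - w = z - w + 6 := by intro w; ring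
  have e1 : ∀ w : ℝ, 4 * (z / 4) - -3 - w = z - w + 3 := by intro w; ring
  have e2 : ∀ w : ℝ, 4 * (z / 4) - 0 - w = z - w := by intro w; ring
  have e3 : ∀ w : ℝ, 4 * (z / 4) - 3 - w = z - w - 3 := by intro w; ring
  have e4 : ∀ w : ℝ, 4 * (z / 4) - 6 - w = z - w - 6 := by intro w; ring
  simp only [e0, e1, e2, e3, e4]
  ring

theorem div24 (a b : ℝ) : a / (b / 4) = 24 * a / (6 * b) := by
  rcases eq_or_ne b 0 with h | h
  · rw [h]; simp
  · field_simp; ring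

/-- the sum over the classes and `e` for one digit -/
theorem inner_eq (n : ℕ) (f : ℕ → ℕ) (v : ℕ → ℕ → ℕ) (hv b0 b1 b2 y t' w : ℝ) (bb : Fin 3 → ℝ)
    (h0 : bb 0 = b0 / 1000) (h1 : bb 1 = b1 / 1000) (h2 : bb 2 = b2 / 1000) (V : Fin 3 → ℝ → ℝ)
    (hV : ∀ Q, V Q = rf n (v Q.val)) (φ : ℝ → ℝ) (hφ : φ = rf n f) :
    ∑ Q1 : Fin 3, ∑ e : Fin 3, w * pd Q1 e * bb Q1 *
        (hv / TD t' Q1 φ ((y + t' * dl Q1 e) / 4)) ^ 3 * V Q1 ((y + t' * dl Q1 e) / 4)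
      = w * SR n f v hv b0 b1 b2 y (6 * t') / 1000 := by
  have v0 : V 0 = rf n (v 0) := hV 0
  have v1 : V 1 = rf n (v 1) := by rw [hV 1]; rfl
  have v2 : V 2 = rf n (v 2) := by rw [hV 2]; rfl
  simp only [Fin.sum_univ_three, TD_eq, div24, pd00, pd01, pd02, pd10, pd11, pd12, pd20, pd21, pd22, dl00, dl01, dl02,
    dl10, dl11, dl12, dl20, dl21, dl22, h0, h1, h2, v0, v1, v2, hφ, HF_rf]
  unfold SR
  have a1 : y + t' * -6 - t' * -6 = y := by ring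
  have a2 : y + t' * -6 - t' * 0 = y - 6 * t' := by ring
  have a3 : y + t' * -6 - t' * 6 = y - 2 * (6 * t') := by ring
  have a4 : y + t' * 0 - t' * -6 = y + 6 * t' := by ring
  have a5 : y + t' * 0 - t' * 0 = y := by ring
  have a6 : y + t' * 0 - t' * 6 = y - 6 * t' := by ring
  have a7 : y + t' * 6 - t' * -6 = y + 2 * (6 * t') := by ring
  have a8 : y + t' * 6 - t' * 0 = y + 6 * t' := by ring
  have a9 : y + t' * 6 - t' * 6 = y := by ring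
  have c1 : y + t' * -3 - t' * -3 = y := by ring
  have c2 : y + t' * -3 - t' * 3 = y - 6 * t' := by ring
  have c3 : y + t' * 3 - t' * -3 = y + 6 * t' := by ring
  have c4 : y + t' * 3 - t' * 3 = y := by ring
  have d1 : y + t' * -6 = y - 6 * t' := by ring
  have d2 : y + t' * 0 = y := by ring
  have d3 : y + t' * 6 = y + 6 * t' := by ring
  have d4 : y + t' * -3 = y - 6 * t' / 2 := by ring
  have d5 : y + t' * 3 = y + 6 * t' / 2 := by ring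
  rw [a1, a2, a3, a4, a5, a6, a7, a8, a9, c1, c2, c3, c4, d1, d2, d3, d4, d5]
  have g1 : 6 * (1 / 6 * HR n f y + 2 / 3 * HR n f (y - 6 * t') + 1 / 6 * HR n f (y - 2 * (6 * t')))
    = HR n f y + (4 * HR n f (y - 6 * t') + HR n f (y - 2 * (6 * t'))) := by ring
  have g2 : 6 * (1 / 6 * HR n f (y + 6 * t') + 2 / 3 * HR n f y + 1 / 6 * HR n f (y - 6 * t'))
    = HR n f (y + 6 * t') + (4 * HR n f y + HR n f (y - 6 * t')) := by ring
  have g3 : 6 * (1 / 6 * HR n f (y + 2 * (6 * t')) + 2 / 3 * HR n f (y + 6 * t') + 1 / 6 * HR n f y)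
    = HR n f y + (4 * HR n f (y + 6 * t') + HR n f (y + 2 * (6 * t'))) := by ring
  have g4 : 6 * (1 / 2 * HR n f y + 0 * HR n f (y - 6 * t' / 2 - t' * 0) + 1 / 2 * HR n f (y - 6 * t'))
    = 3 * (HR n f y + HR n f (y - 6 * t')) := by ring
  have g5 : 6 * (1 / 2 * HR n f (y + 6 * t') + 0 * HR n f (y + 6 * t' / 2 - t' * 0) + 1 / 2 * HR n f y)
    = 3 * (HR n f y + HR n f (y + 6 * t')) := by ring
  have g6 : 6 * (0 * HR n f y + 1 * HR n f y + 0 * HR n f y) = 6 * HR n f y := by ring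
  rw [g1, g2, g3, g4, g5, g6]
  ring

end Pool.Agent.FCQ.C
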