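import Pool.Agent.FCQ.C.Co1

/-!
# The structure `Co` from the checks
-/

set_option autoImplicit false

namespace Pool.Agent.FCQ.C

open MeasureTheory Set

theorem rf_meas (n : ℕ) (f : ℕ → ℕ) : Measurable (rf n f) := by
  have h : rf n f = (fun z : ℤ => ((f (z + 12 * (n:ℤ)).toNat : ℕ) : ℝ)) ∘ (fun x : ℝ => ⌊(n:ℝ) * x⌋) := rfl
  rw [h]
  exact (measurable_from_top).comp (Int.measurable_floor.comp (measurable_id.const_mul _))

theorem tab_def (a len T p : ℕ) : tab a len T p =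
    cond (Nat.ble a p) (cond (Nat.ble len (p - a)) 0 (lk T (p - a))) 0 := rfl

theorem lk_le (T p : ℕ) : lk T p ≤ 4294967295 := by
  unfold lk
  exact Nat.and_le_right

theorem tab_le (a len T p : ℕ) : tab a len T p ≤ 4294967295 := by
  rw [tab_def]
  cases Nat.ble a p with
  | false => exact Nat.zero_le _
  | true =>
    cases Nat.ble len (p - a) with
    | true => exact Nat.zero_le _
    | false => exact lk_le _ _

theorem tab_out {a len T p : ℕ} (h : ¬ (a ≤ p ∧ p < a + len)) : tab a len T p = 0 := by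
  rw [tab_def]
  cases h1 : Nat.ble a p with
  | false => rfl
  | true =>
    have h2 : a ≤ p := Nat.le_of_ble_eq_true h1
    have h3 : len ≤ p - a := by omega
    rw [Nat.ble_eq_true_of_le h3]; rfl

/-- the real function of a table in the window -/
noncomputable def rt (n M T : ℕ) : ℝ → ℝ := rf n (tab (12 * n - M) (2 * M) T)

theorem rt_nonneg (n M T : ℕ) (x : ℝ) : 0 ≤ rt n M T x := rf_nonneg _ _ _

theorem rt_le (n M T : ℕ) (x : ℝ) : rt n M T x ≤ 4294967296 := by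
  have h : rt n M T x ≤ ((4294967295 : ℕ) : ℝ) := by
    unfold rt rf; exact_mod_cast tab_le _ _ _ _
  refine h.trans ?_
  norm_num

theorem idx_of_abs {n M : ℕ} {x : ℝ} (hM : M ≤ 12 * n) (h1 : -(M:ℝ) ≤ n * x) (h2 : (n:ℝ) * x < M) :
    ∃ p : ℕ, cell n x p ∧ 12 * n - M ≤ p ∧ p < 12 * n - M + 2 * M := by
  have f1 : -(M:ℤ) ≤ ⌊(n:ℝ) * x⌋ := Int.le_floor.2 (by push_cast; exact h1)
  have f2 : ⌊(n:ℝ) * x⌋ < (M:ℤ) := Int.floor_lt.2 (by push_cast; exact h2)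
  refine ⟨(⌊(n:ℝ) * x⌋ + 12 * (n:ℤ)).toNat, ?_, ?_, ?_⟩
  · unfold cell; rw [Int.toNat_of_nonneg (by omega)]
  · omega
  · omega

theorem rt_supp {n M T : ℕ} {x : ℝ} (hM : M < 12 * n) (h : rt n M T x ≠ 0) :
    -(M:ℝ) ≤ n * x ∧ (n:ℝ) * x < M := by
  unfold rt rf at h
  have h1 : tab (12 * n - M) (2 * M) T (⌊(n:ℝ) * x⌋ + 12 * (n:ℤ)).toNat ≠ 0 := fun hh => h (by rw [hh]; simp)
  have h2 : 12 * n - M ≤ (⌊(n:ℝ) * x⌋ + 12 * (n:ℤ)).toNat ∧
      (⌊(n:ℝ) * x⌋ + 12 * (n:ℤ)).toNat < 12 * n - M + 2 * M := by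
    by_contra hh
    exact h1 (tab_out hh)
  have g1 : -(M:ℤ) ≤ ⌊(n:ℝ) * x⌋ := by omega
  have g2 : ⌊(n:ℝ) * x⌋ < (M:ℤ) := by omega
  constructor
  · have := Int.floor_le ((n:ℝ) * x)
    have h3 : (-(M:ℝ)) ≤ (⌊(n:ℝ) * x⌋ : ℝ) := by exact_mod_cast g1
    linarith
  · have := Int.lt_floor_add_one ((n:ℝ) * x)
    have h3 : (⌊(n:ℝ) * x⌋ : ℝ) + 1 ≤ M := by exact_mod_cast g2
    linarith

/-- a lower bound of the table gives a lower bound of the function -/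
theorem rt_ge {n M T : ℕ} {x : ℝ} (hM : M < 12 * n) (h1 : -(M:ℝ) ≤ n * x) (h2 : (n:ℝ) * x < M)
    (hT : ∀ c < 2 * M, 1 ≤ tab (12 * n - M) (2 * M) T (12 * n - M + c)) : 1 ≤ rt n M T x := by
  obtain ⟨p, hc, hp1, hp2⟩ := idx_of_abs hM.le h1 h2
  unfold rt
  rw [rf_cell hc]
  have := hT (p - (12 * n - M)) (by omega)
  have e : 12 * n - M + (p - (12 * n - M)) = p := by omega
  rw [e] at this
  exact_mod_cast this

/-- the digit which brings `4x` back to `|y| ≤ 15/8` -/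
theorem digit_back {x : ℝ} (hx : |x| ≤ 63/32) : ∃ k : Fin 5, |4 * x - sv k| ≤ 15/8 := by
  rw [abs_le] at hx
  by_cases h1 : x < -9/8
  · refine ⟨0, ?_⟩
    rw [sv0, abs_le]; constructor <;> linarith
  by_cases h2 : x < -3/8
  · refine ⟨1, ?_⟩
    rw [sv1, abs_le]; constructor <;> linarith
  by_cases h3 : x < 3/8
  · refine ⟨2, ?_⟩
    rw [sv2, abs_le]; constructor <;> linarith
  by_cases h4 : x < 9/8
  · refine ⟨3, ?_⟩
    rw [sv3, abs_le]; constructor <;> linarith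
  · refine ⟨4, ?_⟩
    rw [sv4, abs_le]; constructor <;> linarith

theorem Wge (k : Fin 5) : 1/4 ≤ W k := by
  fin_cases k
  · show 1/4 ≤ W 0; rw [W0]
  · show 1/4 ≤ W 1; rw [W1]; norm_num
  · show 1/4 ≤ W 2; rw [W2]; norm_num
  · show 1/4 ≤ W 3; rw [W3]; norm_num
  · show 1/4 ≤ W 4; rw [W4]

theorem pdnn (Q e : Fin 3) : 0 ≤ pd Q e := by
  fin_cases Q <;> fin_cases e
  · show 0 ≤ pd 0 0; rw [pd00]; norm_num
  · show 0 ≤ pd 0 1; rw [pd01]; norm_num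
  · show 0 ≤ pd 0 2; rw [pd02]; norm_num
  · show 0 ≤ pd 1 0; rw [pd10]; norm_num
  · show 0 ≤ pd 1 1; rw [pd11]
  · show 0 ≤ pd 1 2; rw [pd12]; norm_num
  · show 0 ≤ pd 2 0; rw [pd20]
  · show 0 ≤ pd 2 1; rw [pd21]; norm_num
  · show 0 ≤ pd 2 2; rw [pd22]

/-- a class admits a shift which does not increase -/
theorem pick_shift (Q : Fin 3) (z : ℝ) : ∃ e : Fin 3, 1/2 ≤ pd Q e ∧
    ∀ t' : ℝ, 0 ≤ t' → t' ≤ 1/4 → |z| ≤ 15/8 → |z - t' * dl Q e| ≤ 15/8 := by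
  fin_cases Q
  · refine ⟨1, by show 1/2 ≤ pd 0 1; rw [pd01]; norm_num, ?_⟩
    intro t' _ _ hz
    show |z - t' * dl 0 1| ≤ 15/8
    rw [dl01, mul_zero, sub_zero]; exact hz
  · by_cases h : 0 ≤ z
    · refine ⟨2, by show 1/2 ≤ pd 1 2; rw [pd12], ?_⟩
      intro t' h0 h1 hz
      show |z - t' * dl 1 2| ≤ 15/8
      rw [dl12]
      rw [abs_le] at hz ⊢
      constructor <;> linarith
    · refine ⟨0, by show 1/2 ≤ pd 1 0; rw [pd10], ?_⟩
      intro t' h0 h1 hz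
      show |z - t' * dl 1 0| ≤ 15/8
      rw [dl10]
      rw [abs_le] at hz ⊢
      push Not at h
      constructor <;> linarith
  · refine ⟨1, by show 1/2 ≤ pd 2 1; rw [pd21]; norm_num, ?_⟩
    intro t' _ _ hz
    show |z - t' * dl 2 1| ≤ 15/8
    rw [dl21, mul_zero, sub_zero]; exact hz

theorem TD_pos {t' : ℝ} (h0 : 0 ≤ t') (h1 : t' ≤ 1/4) (Q : Fin 3) {φ : ℝ → ℝ} (hφ : ∀ x, 0 ≤ φ x)
    (hφ1 : ∀ x, |x| ≤ 15/8 → 1 ≤ φ x) {x : ℝ} (hx : |x| ≤ 63/32) : 0 < TD t' Q φ x := by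
  obtain ⟨k, hk⟩ := digit_back hx
  obtain ⟨e, he, hs⟩ := pick_shift Q (4 * x - sv k)
  have h2 := hφ1 _ (hs t' h0 h1 hk)
  have hterm : ∀ (k : Fin 5) (e : Fin 3), 0 ≤ W k * pd Q e * φ (4 * x - sv k - t' * dl Q e) := fun k e =>
    mul_nonneg (mul_nonneg (le_trans (by norm_num) (Wge k)) (pdnn Q e)) (hφ _)
  have h3 : W k * pd Q e * φ (4 * x - sv k - t' * dl Q e) ≤ TD t' Q φ x := by
    unfold TD
    refine le_trans ?_ (Finset.single_le_sum (f := fun k => ∑ e : Fin 3, W k * pd Q e * φ (4 * x - sv k - t' * dl Q e))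
      (fun k _ => Finset.sum_nonneg fun e _ => hterm k e) (Finset.mem_univ k))
    exact Finset.single_le_sum (f := fun e => W k * pd Q e * φ (4 * x - sv k - t' * dl Q e))
      (fun e _ => hterm k e) (Finset.mem_univ e)
  have h4 : 0 < W k * pd Q e * φ (4 * x - sv k - t' * dl Q e) := by
    have := Wge k
    apply mul_pos (mul_pos (by linarith) (by linarith)) (by linarith)
  linarith

theorem TA_pos {φ : ℝ → ℝ} (hφ : ∀ x, 0 ≤ φ x)
    (hφ1 : ∀ x, |x| ≤ 15/8 → 1 ≤ φ x) {x : ℝ} (hx : |x| ≤ 63/32) : 0 < TA φ x := by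
  obtain ⟨k, hk⟩ := digit_back hx
  have h2 := hφ1 _ hk
  have hterm : ∀ (k : Fin 5), 0 ≤ W k * φ (4 * x - sv k) := fun k =>
    mul_nonneg (le_trans (by norm_num) (Wge k)) (hφ _)
  have h3 : W k * φ (4 * x - sv k) ≤ TA φ x := by
    unfold TA
    exact Finset.single_le_sum (f := fun k => W k * φ (4 * x - sv k)) (fun k _ => hterm k) (Finset.mem_univ k)
  have h4 : 0 < W k * φ (4 * x - sv k) := by
    have := Wge k
    apply mul_pos (by linarith) (by linarith)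
  linarith

/-- the filter sums -/
theorem sum_cl (k0 : Fin 3) (F : Fin 5 → ℝ) :
    ∑ k ∈ Finset.univ.filter (fun k => cl k = k0), F k =
      if k0 = 0 then F 2 else if k0 = 1 then F 1 + F 3 else F 0 + F 4 := by
  rw [Finset.sum_filter, Fin.sum_univ_five, cl0, cl1, cl2, cl3, cl4]
  fin_cases k0 <;> simp

end Pool.Agent.FCQ.C
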