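import Pool.Agent.FCQ.C.Co2

/-!
# The structure `Co` from the checks: conclusion
-/

set_option autoImplicit false

namespace Pool.Agent.FCQ.C

open MeasureTheory Set

/-- the check of a window -/
def okB (n M i b0 b1 b2 G a len : ℕ) (Th : ℕ → ℕ) (Tv : ℕ → ℕ → ℕ) : Bool :=
  allB (fun Q2 => allB (fun c => chk1 n M i b0 b1 b2 G (fun p => tab a len (Th Q2) p)
    (fun Q k p => tab a len (Tv Q k) p) (fun k => pick3 b0 b1 b2 k) Q2 (Nat.add a c)) len) (nat_lit 3)

/-- the positivity check of a window -/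
def posB (a len : ℕ) (Th : ℕ → ℕ) (Tv : ℕ → ℕ → ℕ) : Bool :=
  allB (fun Q => allB (fun c => cond (Nat.ble (nat_lit 1) (tab a len (Th Q) (Nat.add a c)))
    (allB (fun k => Nat.ble (nat_lit 1) (tab a len (Tv Q k) (Nat.add a c))) (nat_lit 3)) false) len) (nat_lit 3)

/-- the check of the filling phase -/
def okA (n b0 b1 b2 G a len : ℕ) (Th : ℕ) (Tv : ℕ → ℕ) : Bool :=
  allB (fun c => chkA n G (fun p => tab a len Th p) (fun k p => tab a len (Tv k) p)
    (fun k => pick3 b0 b1 b2 k) (Nat.add a c)) len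

def posA (a len : ℕ) (Th : ℕ) (Tv : ℕ → ℕ) : Bool :=
  allB (fun c => cond (Nat.ble (nat_lit 1) (tab a len Th (Nat.add a c)))
    (allB (fun k => Nat.ble (nat_lit 1) (tab a len (Tv k) (Nat.add a c))) (nat_lit 3)) false) len

theorem range_of_abs {n M : ℕ} {x : ℝ} (hn : 0 < n) (hM : 32 * M = 63 * n) (hx : |x| ≤ 19/10) :
    -(M:ℝ) ≤ n * x ∧ (n:ℝ) * x < M := by
  have h1 : (32:ℝ) * M = 63 * n := by exact_mod_cast hM
  have h2 : (0:ℝ) < n := by exact_mod_cast hn
  rw [abs_le] at hx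
  constructor
  · nlinarith [hx.1]
  · nlinarith [hx.2]

theorem abs_of_range {n M : ℕ} {x : ℝ} (hn : 0 < n) (hM : 32 * M = 63 * n)
    (h : -(M:ℝ) ≤ n * x ∧ (n:ℝ) * x < M) : |x| ≤ 63/32 := by
  have h1 : (32:ℝ) * M = 63 * n := by exact_mod_cast hM
  have h2 : (0:ℝ) < n := by exact_mod_cast hn
  rw [abs_le]
  constructor
  · by_contra hh; push Not at hh; nlinarith [h.1]
  · by_contra hh; push Not at hh; nlinarith [h.2]

section
variable {n M i b0 b1 b2 G : ℕ} {Th : ℕ → ℕ} {Tv : ℕ → ℕ → ℕ}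
variable {nA MA GA : ℕ} {ThA : ℕ} {TvA : ℕ → ℕ}

theorem posB_h (h : posB (12 * n - M) (2 * M) Th Tv = true) (Q : Fin 3) :
    ∀ c < 2 * M, 1 ≤ tab (12 * n - M) (2 * M) (Th Q.val) (12 * n - M + c) := by
  intro c hc
  unfold posB at h
  rw [allB_iff] at h
  have h1 := h Q.val Q.isLt
  rw [allB_iff] at h1
  have h2 := h1 c hc
  rw [cond_true] at h2
  exact Nat.le_of_ble_eq_true h2.1

theorem posB_v (h : posB (12 * n - M) (2 * M) Th Tv = true) (Q k : Fin 3) :
    ∀ c < 2 * M, 1 ≤ tab (12 * n - M) (2 * M) (Tv Q.val k.val) (12 * n - M + c) := by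
  intro c hc
  unfold posB at h
  rw [allB_iff] at h
  have h1 := h Q.val Q.isLt
  rw [allB_iff] at h1
  have h2 := h1 c hc
  rw [cond_true, allB_iff] at h2
  exact Nat.le_of_ble_eq_true (h2.2 k.val k.isLt)

theorem posA_h (h : posA (12 * n - M) (2 * M) ThA TvA = true) :
    ∀ c < 2 * M, 1 ≤ tab (12 * n - M) (2 * M) ThA (12 * n - M + c) := by
  intro c hc
  unfold posA at h
  rw [allB_iff] at h
  have h2 := h c hc
  rw [cond_true] at h2
  exact Nat.le_of_ble_eq_true h2.1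

theorem posA_v (h : posA (12 * n - M) (2 * M) ThA TvA = true) (k : Fin 3) :
    ∀ c < 2 * M, 1 ≤ tab (12 * n - M) (2 * M) (TvA k.val) (12 * n - M + c) := by
  intro c hc
  unfold posA at h
  rw [allB_iff] at h
  have h2 := h c hc
  rw [cond_true, allB_iff] at h2
  exact Nat.le_of_ble_eq_true (h2.2 k.val k.isLt)

theorem ineqB (hn : 0 < n) (hM : 32 * M = 63 * n) (hi : i + 1 ≤ 2 * n) {t' : ℝ}
    (h1 : (i:ℝ) ≤ n * (6 * t')) (h2 : (n:ℝ) * (6 * t') ≤ i + 1)
    (hok : okB n M i b0 b1 b2 G (12 * n - M) (2 * M) Th Tv = true) (Q2 k0 c : Fin 3) (r : ℝ) :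
    ∑ k ∈ Finset.univ.filter (fun k => cl k = k0), ∑ Q1 : Fin 3, ∑ e : Fin 3,
      W k / 4 * pd Q1 e * ((pick3 b0 b1 b2 Q1.val : ℕ) / 1000 : ℝ) *
        (rt n M (Th Q2.val) r / TD t' Q1 (rt n M (Th Q2.val)) ((r + sv k + t' * dl Q1 e) / 4)) ^ 3 *
          rt n M (Tv Q1.val c.val) ((r + sv k + t' * dl Q1 e) / 4)
      ≤ (G / 100 : ℝ) * ((pick3 b0 b1 b2 c.val : ℕ) / 1000 : ℝ) * rt n M (Tv Q2.val k0.val) r := by
  have hRHS : 0 ≤ (G / 100 : ℝ) * ((pick3 b0 b1 b2 c.val : ℕ) / 1000 : ℝ) * rt n M (Tv Q2.val k0.val) r :=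
    mul_nonneg (by positivity) (rt_nonneg _ _ _ _)
  by_cases hr : rt n M (Th Q2.val) r = 0
  · rw [hr]
    refine le_trans (le_of_eq ?_) hRHS
    refine Finset.sum_eq_zero fun k _ => Finset.sum_eq_zero fun Q1 _ => Finset.sum_eq_zero fun e _ => ?_
    rw [zero_div]; ring
  · have hM12 : M < 12 * n := by omega
    obtain ⟨g1, g2⟩ := rt_supp hM12 hr
    obtain ⟨p, hc, hp1, hp2⟩ := idx_of_abs hM12.le g1 g2
    unfold okB at hok
    rw [allB_iff] at hok
    have k1 := hok Q2.val Q2.isLt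
    rw [allB_iff] at k1
    have k2 := k1 (p - (12 * n - M)) (by omega)
    have ep : Nat.add (12 * n - M) (p - (12 * n - M)) = p := by
      show 12 * n - M + (p - (12 * n - M)) = p
      omega
    rw [ep] at k2
    have k3 := chk1_sound k2 hc (by omega) h1 h2 c.val c.isLt
    have erp : rt n M (Th Q2.val) r = ((tab (12 * n - M) (2 * M) (Th Q2.val) p : ℕ) : ℝ) := by
      unfold rt; exact rf_cell hc
    have key : ∀ (k : Fin 5), ∑ Q1 : Fin 3, ∑ e : Fin 3,
      W k / 4 * pd Q1 e * ((pick3 b0 b1 b2 Q1.val : ℕ) / 1000 : ℝ) *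
        (rt n M (Th Q2.val) r / TD t' Q1 (rt n M (Th Q2.val)) ((r + sv k + t' * dl Q1 e) / 4)) ^ 3 *
          rt n M (Tv Q1.val c.val) ((r + sv k + t' * dl Q1 e) / 4)
        = W k / 4 * SR n (fun p => tab (12 * n - M) (2 * M) (Th Q2.val) p)
          (fun Q => fun p => tab (12 * n - M) (2 * M) (Tv Q c.val) p)
          ((tab (12 * n - M) (2 * M) (Th Q2.val) p : ℕ) : ℝ) b0 b1 b2 (r + sv k) (6 * t') / 1000 := by
      intro k
      rw [erp]
      exact inner_eq n (fun p => tab (12 * n - M) (2 * M) (Th Q2.val) p)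
        (fun Q => fun p => tab (12 * n - M) (2 * M) (Tv Q c.val) p) _ b0 b1 b2 (r + sv k) t' (W k / 4)
        (fun Q1 => ((pick3 b0 b1 b2 Q1.val : ℕ) / 1000 : ℝ)) rfl rfl rfl
        (fun Q1 => rt n M (Tv Q1.val c.val)) (fun Q => rfl) _ rfl
    simp only [key]
    rw [sum_cl]
    obtain ⟨m0, m1, m2⟩ := k3
    fin_cases k0
    · have e1 : ((⟨0, by omega⟩ : Fin 3) = 0) = True := by simp
      simp only [e1, if_true]
      rw [W2, sv2, add_zero]
      have : rf n (fun p => tab (12 * n - M) (2 * M) (Tv Q2.val 0) p) r = rt n M (Tv Q2.val 0) r := rfl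
      rw [this] at m0
      linarith
    · have e1 : ((⟨1, by omega⟩ : Fin 3) = 0) = False := by simp
      have e2 : ((⟨1, by omega⟩ : Fin 3) = 1) = True := by simp
      simp only [e1, e2, if_false, if_true]
      rw [W1, W3, sv1, sv3, ← sub_eq_add_neg]
      have : rf n (fun p => tab (12 * n - M) (2 * M) (Tv Q2.val 1) p) r = rt n M (Tv Q2.val 1) r := rfl
      rw [this] at m1
      linarith
    · have e1 : ((⟨2, by omega⟩ : Fin 3) = 0) = False := by simp
      have e2 : ((⟨2, by omega⟩ : Fin 3) = 1) = False := by simp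
      simp only [e1, e2, if_false]
      rw [W0, W4, sv0, sv4, ← sub_eq_add_neg]
      have : rf n (fun p => tab (12 * n - M) (2 * M) (Tv Q2.val 2) p) r = rt n M (Tv Q2.val 2) r := rfl
      rw [this] at m2
      linarith

theorem ineqA' (hn : 0 < n) (hM : 32 * M = 63 * n)
    (hok : okA n b0 b1 b2 G (12 * n - M) (2 * M) ThA TvA = true) (k0 c : Fin 3) (r : ℝ) :
    ∑ k ∈ Finset.univ.filter (fun k => cl k = k0),
      W k / 4 * (rt n M ThA r / TA (rt n M ThA) ((r + sv k) / 4)) ^ 3 * rt n M (TvA c.val) ((r + sv k) / 4)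
      ≤ (G / 100 : ℝ) * ((pick3 b0 b1 b2 c.val : ℕ) / 1000 : ℝ) * rt n M (TvA k0.val) r := by
  have hRHS : 0 ≤ (G / 100 : ℝ) * ((pick3 b0 b1 b2 c.val : ℕ) / 1000 : ℝ) * rt n M (TvA k0.val) r :=
    mul_nonneg (by positivity) (rt_nonneg _ _ _ _)
  by_cases hr : rt n M ThA r = 0
  · rw [hr]
    refine le_trans (le_of_eq ?_) hRHS
    refine Finset.sum_eq_zero fun k _ => ?_
    rw [zero_div]; ring
  · have hM12 : M < 12 * n := by omega
    obtain ⟨g1, g2⟩ := rt_supp hM12 hr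
    obtain ⟨p, hc, hp1, hp2⟩ := idx_of_abs hM12.le g1 g2
    unfold okA at hok
    rw [allB_iff] at hok
    have k2 := hok (p - (12 * n - M)) (by omega)
    have ep : Nat.add (12 * n - M) (p - (12 * n - M)) = p := by
      show 12 * n - M + (p - (12 * n - M)) = p
      omega
    rw [ep] at k2
    have k3 := chkA_sound k2 hc (by omega) c.val c.isLt
    have erp : rt n M ThA r = ((tab (12 * n - M) (2 * M) ThA p : ℕ) : ℝ) := by
      unfold rt; exact rf_cell hc
    have key : ∀ (k : Fin 5),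
      W k / 4 * (rt n M ThA r / TA (rt n M ThA) ((r + sv k) / 4)) ^ 3 * rt n M (TvA c.val) ((r + sv k) / 4)
        = W k / 4 * TA1 n (fun p => tab (12 * n - M) (2 * M) ThA p)
          (fun p => tab (12 * n - M) (2 * M) (TvA c.val) p)
          ((tab (12 * n - M) (2 * M) ThA p : ℕ) : ℝ) (r + sv k) := by
      intro k
      rw [erp, TA_eq]
      have e4 : ∀ a b : ℝ, a / (b / 4) = 4 * a / b := by
        intro a b
        rcases eq_or_ne b 0 with h | h
        · rw [h]; simp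
        · field_simp
      rw [e4]
      unfold TA1 rt
      rw [HF_rf]
      ring
    simp only [key]
    rw [sum_cl]
    obtain ⟨m0, m1, m2⟩ := k3
    fin_cases k0
    · have e1 : ((⟨0, by omega⟩ : Fin 3) = 0) = True := by simp
      simp only [e1, if_true]
      rw [W2, sv2, add_zero]
      have : rf n (fun p => tab (12 * n - M) (2 * M) (TvA 0) p) r = rt n M (TvA 0) r := rfl
      rw [this] at m0
      linarith
    · have e1 : ((⟨1, by omega⟩ : Fin 3) = 0) = False := by simp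
      have e2 : ((⟨1, by omega⟩ : Fin 3) = 1) = True := by simp
      simp only [e1, e2, if_false, if_true]
      rw [W1, W3, sv1, sv3, ← sub_eq_add_neg]
      have : rf n (fun p => tab (12 * n - M) (2 * M) (TvA 1) p) r = rt n M (TvA 1) r := rfl
      rw [this] at m1
      linarith
    · have e1 : ((⟨2, by omega⟩ : Fin 3) = 0) = False := by simp
      have e2 : ((⟨2, by omega⟩ : Fin 3) = 1) = False := by simp
      simp only [e1, e2, if_false]
      rw [W0, W4, sv0, sv4, ← sub_eq_add_neg]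
      have : rf n (fun p => tab (12 * n - M) (2 * M) (TvA 2) p) r = rt n M (TvA 2) r := rfl
      rw [this] at m2
      linarith

end

end Pool.Agent.FCQ.C
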