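import Pool.Agent.FCQ.C.Co3

/-!
# The structure `Co` from the checks: the certificate of a window
-/

set_option autoImplicit false

namespace Pool.Agent.FCQ.C

open MeasureTheory Set

theorem mkCo {n M i b0 b1 b2 G a len : ℕ} {Th : ℕ → ℕ} {Tv : ℕ → ℕ → ℕ}
    {nA MA GA aA lenA : ℕ} {ThA : ℕ} {TvA : ℕ → ℕ}
    (hn : 0 < n) (hM : 32 * M = 63 * n) (hi : i + 1 ≤ 2 * n) (ha : a = 12 * n - M) (hlen : len = 2 * M)
    (hnA : 0 < nA) (hMA : 32 * MA = 63 * nA) (haA : aA = 12 * nA - MA) (hlenA : lenA = 2 * MA)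
    (hb : b0 + b1 + b2 ≤ 1000) (hb0 : 100 ≤ b0) (hb1 : 100 ≤ b1) (hb2 : 100 ≤ b2)
    (hok : okB n M i b0 b1 b2 G a len Th Tv = true) (hpos : posB a len Th Tv = true)
    (hokA : okA nA b0 b1 b2 GA aA lenA ThA TvA = true) (hposA : posA aA lenA ThA TvA = true)
    {t' : ℝ} (ht0 : 0 ≤ t') (ht1 : t' ≤ 1/4) (h1 : (i:ℝ) ≤ n * (6 * t')) (h2 : (n:ℝ) * (6 * t') ≤ i + 1) :
    Co t' (1/10) 4294967296 (G / 100) (GA / 100) (fun Q => rt n M (Th Q.val)) (fun Q c => rt n M (Tv Q.val c.val))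
      (rt nA MA ThA) (fun c => rt nA MA (TvA c.val)) (fun c => ((pick3 b0 b1 b2 c.val : ℕ) / 1000 : ℝ)) := by
  subst ha hlen haA hlenA
  have hM12 : M < 12 * n := by omega
  have hM12A : MA < 12 * nA := by omega
  have posh : ∀ Q : Fin 3, ∀ x : ℝ, |x| ≤ 19/10 → 1 ≤ rt n M (Th Q.val) x := fun Q x hx => by
    obtain ⟨g1, g2⟩ := range_of_abs hn hM hx
    exact rt_ge hM12 g1 g2 (posB_h hpos Q)
  have poshA : ∀ x : ℝ, |x| ≤ 19/10 → 1 ≤ rt nA MA ThA x := fun x hx => by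
    obtain ⟨g1, g2⟩ := range_of_abs hnA hMA hx
    exact rt_ge hM12A g1 g2 (posA_h hposA)
  have supV : ∀ (Q c : Fin 3) (x : ℝ), rt n M (Tv Q.val c.val) x ≠ 0 → |x| ≤ 63 / 32 := fun Q c x h =>
    abs_of_range hn hM (rt_supp hM12 h)
  have supVA : ∀ (c : Fin 3) (x : ℝ), rt nA MA (TvA c.val) x ≠ 0 → |x| ≤ 63 / 32 := fun c x h =>
    abs_of_range hnA hMA (rt_supp hM12A h)
  refine
    { mh := fun Q => rf_meas _ _
      mV := fun Q c => rf_meas _ _
      mhA := rf_meas _ _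
      mVA := fun c => rf_meas _ _
      h0 := fun Q x => rt_nonneg _ _ _ _
      hC := fun Q x => rt_le _ _ _ _
      V0 := fun Q c x => rt_nonneg _ _ _ _
      VC := fun Q c x => rt_le _ _ _ _
      hA0 := fun x => rt_nonneg _ _ _ _
      hAC := fun x => rt_le _ _ _ _
      VA0 := fun c x => rt_nonneg _ _ _ _
      VAC := fun c x => rt_le _ _ _ _
      lo := ?_
      loA := ?_
      dom := ?_
      sup := supV
      supA := supVA
      bp := ?_
      bs := ?_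
      pos := ?_
      posA := ?_
      ineq := ?_
      ineqA := ?_ }
  · intro Q c x hx
    obtain ⟨g1, g2⟩ := range_of_abs hn hM hx
    have := rt_ge hM12 g1 g2 (posB_v hpos Q c)
    linarith
  · intro c x hx
    obtain ⟨g1, g2⟩ := range_of_abs hnA hMA hx
    have := rt_ge hM12A g1 g2 (posA_v hposA c)
    linarith
  · intro Q c x
    by_cases h : rt nA MA (TvA c.val) x = 0
    · show rt nA MA (TvA c.val) x ≤ 4294967296 * rt n M (Tv Q.val c.val) x
      rw [h]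
      exact mul_nonneg (by norm_num) (rt_nonneg _ _ _ _)
    · obtain ⟨g1, g2⟩ := rt_supp hM12A h
      have e1 : (32:ℝ) * MA = 63 * nA := by exact_mod_cast hMA
      have e2 : (32:ℝ) * M = 63 * n := by exact_mod_cast hM
      have e3 : (0:ℝ) < nA := by exact_mod_cast hnA
      have e4 : (0:ℝ) < n := by exact_mod_cast hn
      have f1 : -(63/32) ≤ x := by
        by_contra hh; push Not at hh; nlinarith
      have f2 : x < 63/32 := by
        by_contra hh; push Not at hh; nlinarith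
      have j1 : -(M:ℝ) ≤ n * x := by nlinarith
      have j2 : (n:ℝ) * x < M := by nlinarith
      have := rt_ge hM12 j1 j2 (posB_v hpos Q c)
      have h3 := rt_le nA MA (TvA c.val) x
      show rt nA MA (TvA c.val) x ≤ 4294967296 * rt n M (Tv Q.val c.val) x
      linarith
  · intro c
    fin_cases c
    · show (1/10 : ℝ) ≤ ((b0 : ℕ) : ℝ) / 1000
      have : (100:ℝ) ≤ b0 := by exact_mod_cast hb0
      linarith
    · show (1/10 : ℝ) ≤ ((b1 : ℕ) : ℝ) / 1000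
      have : (100:ℝ) ≤ b1 := by exact_mod_cast hb1
      linarith
    · show (1/10 : ℝ) ≤ ((b2 : ℕ) : ℝ) / 1000
      have : (100:ℝ) ≤ b2 := by exact_mod_cast hb2
      linarith
  · rw [Fin.sum_univ_three]
    show ((b0 : ℕ) : ℝ) / 1000 + ((b1 : ℕ) : ℝ) / 1000 + ((b2 : ℕ) : ℝ) / 1000 ≤ 1
    have : (b0:ℝ) + b1 + b2 ≤ 1000 := by exact_mod_cast hb
    linarith
  · intro Q1 Q2 c x hx
    exact TD_pos ht0 ht1 Q1 (fun x => rt_nonneg _ _ _ _) (fun y hy => posh Q2 y (by linarith)) (supV Q1 c x hx)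
  · intro c x hx
    exact TA_pos (fun x => rt_nonneg _ _ _ _) (fun y hy => poshA y (by linarith)) (supVA c x hx)
  · intro Q2 k0 c r
    exact ineqB hn hM hi h1 h2 hok Q2 k0 c r
  · intro k0 c r
    exact ineqA' hnA hMA hokA k0 c r

/-- the certificate of a window -/
def WinOK (n i G GA : ℕ) : Prop := ∀ t' : ℝ, 0 ≤ t' → t' ≤ 1/4 → (i:ℝ) ≤ n * (6 * t') → (n:ℝ) * (6 * t') ≤ i + 1 →
  ∃ h V hA VA bb, Co t' (1/10) 4294967296 (G / 100) (GA / 100) h V hA VA bb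

theorem mkWin {n M i b0 b1 b2 G a len : ℕ} {Th : ℕ → ℕ} {Tv : ℕ → ℕ → ℕ}
    {nA MA GA aA lenA : ℕ} {ThA : ℕ} {TvA : ℕ → ℕ}
    (hn : 0 < n) (hM : 32 * M = 63 * n) (hi : i + 1 ≤ 2 * n) (ha : a = 12 * n - M) (hlen : len = 2 * M)
    (hnA : 0 < nA) (hMA : 32 * MA = 63 * nA) (haA : aA = 12 * nA - MA) (hlenA : lenA = 2 * MA)
    (hb : b0 + b1 + b2 ≤ 1000) (hb0 : 100 ≤ b0) (hb1 : 100 ≤ b1) (hb2 : 100 ≤ b2)
    (hokA : okA nA b0 b1 b2 GA aA lenA ThA TvA = true) (hposA : posA aA lenA ThA TvA = true)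
    (hok : okB n M i b0 b1 b2 G a len Th Tv = true) (hpos : posB a len Th Tv = true) : WinOK n i G GA :=
  fun _ ht0 ht1 h1 h2 => ⟨_, _, _, _, _, mkCo hn hM hi ha hlen hnA hMA haA hlenA hb hb0 hb1 hb2 hok hpos hokA hposA
    ht0 ht1 h1 h2⟩

end Pool.Agent.FCQ.C
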