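import Pool.Agent.FCQ.C.Co2

/-!
# The delayed chain: operators and the queue
-/

set_option autoImplicit false

namespace Pool.Agent.FCQ.C

noncomputable section

/-- the transfer operator in the normalised variable, `d = t* ` -/
def TT (d : ℝ) (F : ℝ → ℝ) (X : ℝ) : ℝ :=
  ∑ k : Fin 5, W k * ∑ e : Fin 3, pd (cl k) e * F (4 * X - sv k - d * dl (cl k) e)

/-- average over the shifts of a queue -/
def av : ℝ → List (Fin 3) → (ℝ → ℝ) → ℝ → ℝ
  | _, [], F, X => F X
  | c, q :: l, F, X => ∑ e : Fin 3, pd q e * av (c / 4) l F (X - c * dl q e)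

theorem av_nil (c : ℝ) (F : ℝ → ℝ) (X : ℝ) : av c [] F X = F X := rfl
theorem av_cons (c : ℝ) (q : Fin 3) (l : List (Fin 3)) (F : ℝ → ℝ) (X : ℝ) :
    av c (q :: l) F X = ∑ e : Fin 3, pd q e * av (c / 4) l F (X - c * dl q e) := rfl

theorem av_sum {ι : Type} (s : Finset ι) (w : ι → ℝ) (l : List (Fin 3)) : ∀ (c : ℝ) (F : ι → ℝ → ℝ) (X : ℝ),
    av c l (fun Y => ∑ k ∈ s, w k * F k Y) X = ∑ k ∈ s, w k * av c l (F k) X := by
  induction l with
  | nil => intro c F X; rfl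
  | cons q l ih =>
    intro c F X
    simp only [av_cons, ih, Finset.mul_sum]
    rw [Finset.sum_comm]
    refine Finset.sum_congr rfl fun k _ => Finset.sum_congr rfl fun e _ => by ring

theorem av_scale (l : List (Fin 3)) (s : ℝ) : ∀ (c : ℝ) (F : ℝ → ℝ) (X : ℝ),
    av c l (fun Y => F (4 * Y - s)) X = av (4 * c) l F (4 * X - s) := by
  induction l with
  | nil => intro c F X; rfl
  | cons q l ih =>
    intro c F X
    simp only [av_cons, ih]
    refine Finset.sum_congr rfl fun e _ => ?_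
    have e1 : 4 * (c / 4) = 4 * c / 4 := by ring
    have e2 : 4 * (X - c * dl q e) - s = 4 * X - s - 4 * c * dl q e := by ring
    rw [e1, e2]

theorem av_snoc (l : List (Fin 3)) (k : Fin 3) : ∀ (c : ℝ) (F : ℝ → ℝ) (X : ℝ),
    av c (l ++ [k]) F X = av c l (fun Y => ∑ e : Fin 3, pd k e * F (Y - c / 4 ^ l.length * dl k e)) X := by
  induction l with
  | nil => intro c F X; simp [av_cons, av_nil]
  | cons q l ih =>
    intro c F X
    simp only [List.cons_append, av_cons, ih, List.length_cons]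
    refine Finset.sum_congr rfl fun e _ => ?_
    have e1 : c / 4 / 4 ^ l.length = c / 4 ^ (l.length + 1) := by
      rw [pow_succ]; field_simp
    rw [e1]

/-- the recursion of the queue -/
theorem av_TT (u : ℝ) (q : Fin 3) (l : List (Fin 3)) (d : ℝ) (hd : d = u / 4 ^ (l.length + 1)) (F : ℝ → ℝ) (X : ℝ) :
    av (u / 4) (q :: l) (TT d F) X
      = ∑ k : Fin 5, W k * ∑ e : Fin 3, pd q e * av (u / 4) (l ++ [cl k]) F (4 * X - sv k - u * dl q e) := by
  have e0 : TT d F = fun Y => ∑ k ∈ (Finset.univ : Finset (Fin 5)), W k *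
      (fun k Z => (fun Z' => ∑ e : Fin 3, pd (cl k) e * F (Z' - d * dl (cl k) e)) (4 * Z - sv k)) k Y := rfl
  rw [e0, av_sum]
  refine Finset.sum_congr rfl fun k _ => ?_
  congr 1
  refine (av_scale (q :: l) (sv k) (u / 4) (fun Z' => ∑ e : Fin 3, pd (cl k) e * F (Z' - d * dl (cl k) e)) X).trans ?_
  rw [av_cons]
  have e1 : 4 * (u / 4) = u := by ring
  rw [e1]
  refine Finset.sum_congr rfl fun e _ => ?_
  rw [av_snoc]
  have e2 : u / 4 / 4 ^ l.length = d := by rw [hd, pow_succ]; field_simp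
  rw [e2]

theorem pd_nonneg (q e : Fin 3) : 0 ≤ pd q e := pdnn q e

theorem pd_sum (q : Fin 3) : ∑ e : Fin 3, pd q e = 1 := by
  rw [Fin.sum_univ_three]
  fin_cases q
  · show pd 0 0 + pd 0 1 + pd 0 2 = 1
    rw [pd00, pd01, pd02]; norm_num
  · show pd 1 0 + pd 1 1 + pd 1 2 = 1
    rw [pd10, pd11, pd12]; norm_num
  · show pd 2 0 + pd 2 1 + pd 2 2 = 1
    rw [pd20, pd21, pd22]; norm_num

theorem W_ge (k : Fin 5) : 1/4 ≤ W k := Wge k

theorem W_nonneg (k : Fin 5) : 0 ≤ W k := le_trans (by norm_num) (Wge k)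

theorem dl_le (q e : Fin 3) : |dl q e| ≤ 6 := by
  fin_cases q <;> fin_cases e
  · show |dl 0 0| ≤ 6; rw [dl00]; norm_num
  · show |dl 0 1| ≤ 6; rw [dl01]; norm_num
  · show |dl 0 2| ≤ 6; rw [dl02]; norm_num
  · show |dl 1 0| ≤ 6; rw [dl10]; norm_num
  · show |dl 1 1| ≤ 6; rw [dl11]; norm_num
  · show |dl 1 2| ≤ 6; rw [dl12]; norm_num
  · show |dl 2 0| ≤ 6; rw [dl20]; norm_num
  · show |dl 2 1| ≤ 6; rw [dl21]; norm_num
  · show |dl 2 2| ≤ 6; rw [dl22]; norm_num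

theorem av_nonneg (l : List (Fin 3)) {F : ℝ → ℝ} (hF : ∀ x, 0 ≤ F x) : ∀ (c X : ℝ), 0 ≤ av c l F X := by
  induction l with
  | nil => intro c X; exact hF X
  | cons q l ih =>
    intro c X
    rw [av_cons]
    exact Finset.sum_nonneg fun e _ => mul_nonneg (pd_nonneg q e) (ih _ _)

theorem av_meas (l : List (Fin 3)) {F : ℝ → ℝ} (hF : Measurable F) : ∀ (c : ℝ), Measurable (av c l F) := by
  induction l with
  | nil => intro c; exact hF
  | cons q l ih =>
    intro c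
    have : av c (q :: l) F = fun X => ∑ e : Fin 3, pd q e * av (c / 4) l F (X - c * dl q e) := rfl
    rw [this]
    refine Finset.measurable_sum _ fun e _ => ?_
    exact ((ih (c/4)).comp (measurable_id.sub_const _)).const_mul _

theorem av_le (l : List (Fin 3)) {F : ℝ → ℝ} {C : ℝ} (hF : ∀ x, F x ≤ C) : ∀ (c X : ℝ), av c l F X ≤ C := by
  induction l with
  | nil => intro c X; exact hF X
  | cons q l ih =>
    intro c X
    rw [av_cons]
    calc ∑ e : Fin 3, pd q e * av (c / 4) l F (X - c * dl q e) ≤ ∑ e : Fin 3, pd q e * C :=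
          Finset.sum_le_sum fun e _ => mul_le_mul_of_nonneg_left (ih _ _) (pd_nonneg q e)
      _ = C := by rw [← Finset.sum_mul, pd_sum, one_mul]

theorem TT_nonneg {d : ℝ} {F : ℝ → ℝ} (hF : ∀ x, 0 ≤ F x) (X : ℝ) : 0 ≤ TT d F X :=
  Finset.sum_nonneg fun k _ => mul_nonneg (W_nonneg k)
    (Finset.sum_nonneg fun e _ => mul_nonneg (pd_nonneg _ e) (hF _))

theorem TT_meas {d : ℝ} {F : ℝ → ℝ} (hF : Measurable F) : Measurable (TT d F) := by
  unfold TT
  refine Finset.measurable_sum _ fun k _ => Measurable.const_mul ?_ _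
  refine Finset.measurable_sum _ fun e _ => Measurable.const_mul ?_ _
  exact hF.comp (((measurable_id.const_mul 4).sub_const _).sub_const _)

/-- lower bound of the average over the queue: first three shifts with the sign of `X` -/
theorem pick (q : Fin 3) (X : ℝ) : ∃ e : Fin 3, 1/2 ≤ pd q e ∧
    ((0 ≤ X → 0 ≤ dl q e ∧ dl q e ≤ 3) ∧ (X < 0 → -3 ≤ dl q e ∧ dl q e ≤ 0)) := by
  have p01 : pd 0 1 = 2/3 := pd01
  have p10 : pd 1 0 = 1/2 := pd10
  have p12 : pd 1 2 = 1/2 := pd12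
  have p21 : pd 2 1 = 1 := pd21
  have d01 : dl 0 1 = 0 := dl01
  have d10 : dl 1 0 = -3 := dl10
  have d12 : dl 1 2 = 3 := dl12
  have d21 : dl 2 1 = 0 := dl21
  fin_cases q
  · exact ⟨1, by show 1/2 ≤ pd 0 1; rw [p01]; norm_num, fun _ => by show 0 ≤ dl 0 1 ∧ dl 0 1 ≤ 3; rw [d01]; norm_num,
      fun _ => by show -3 ≤ dl 0 1 ∧ dl 0 1 ≤ 0; rw [d01]; norm_num⟩
  · by_cases h : 0 ≤ X
    · exact ⟨2, by show 1/2 ≤ pd 1 2; rw [p12], fun _ => by show 0 ≤ dl 1 2 ∧ dl 1 2 ≤ 3; rw [d12]; norm_num,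
        fun h' => absurd h (not_le.2 h')⟩
    · exact ⟨0, by show 1/2 ≤ pd 1 0; rw [p10], fun h' => absurd h' h,
        fun _ => by show -3 ≤ dl 1 0 ∧ dl 1 0 ≤ 0; rw [d10]; norm_num⟩
  · exact ⟨1, by show 1/2 ≤ pd 2 1; rw [p21]; norm_num, fun _ => by show 0 ≤ dl 2 1 ∧ dl 2 1 ≤ 3; rw [d21]; norm_num,
      fun _ => by show -3 ≤ dl 2 1 ∧ dl 2 1 ≤ 0; rw [d21]; norm_num⟩

theorem av_ge_rest (l : List (Fin 3)) {F : ℝ → ℝ} {m R : ℝ} (hF : ∀ x, |x| ≤ R → m ≤ F x) :
    ∀ (c X : ℝ), 0 ≤ c → |X| + 8 * c ≤ R → m ≤ av c l F X := by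
  induction l with
  | nil => intro c X hc h; exact hF X (by linarith)
  | cons q l ih =>
    intro c X hc h
    rw [av_cons]
    have : ∀ e : Fin 3, pd q e * m ≤ pd q e * av (c / 4) l F (X - c * dl q e) := by
      intro e
      apply mul_le_mul_of_nonneg_left _ (pd_nonneg q e)
      apply ih (c/4) _ (by linarith)
      have h1 : |X - c * dl q e| ≤ |X| + c * 6 := by
        calc |X - c * dl q e| ≤ |X| + |c * dl q e| := abs_sub _ _
          _ ≤ |X| + c * 6 := by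
            rw [abs_mul, abs_of_nonneg hc]
            have := mul_le_mul_of_nonneg_left (dl_le q e) hc
            linarith
      linarith
    calc m = ∑ e : Fin 3, pd q e * m := by rw [← Finset.sum_mul, pd_sum, one_mul]
      _ ≤ _ := Finset.sum_le_sum fun e _ => this e

theorem av_pick (q : Fin 3) (l : List (Fin 3)) {F : ℝ → ℝ} (hF0 : ∀ x, 0 ≤ F x) {c X m : ℝ} (hm : 0 ≤ m)
    (h : ∀ e, ((0 ≤ X → 0 ≤ dl q e ∧ dl q e ≤ 3) ∧ (X < 0 → -3 ≤ dl q e ∧ dl q e ≤ 0)) →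
      m ≤ av (c / 4) l F (X - c * dl q e)) : m / 2 ≤ av c (q :: l) F X := by
  obtain ⟨e, he, hs⟩ := pick q X
  rw [av_cons]
  have h1 : pd q e * av (c / 4) l F (X - c * dl q e) ≤ ∑ e : Fin 3, pd q e * av (c / 4) l F (X - c * dl q e) :=
    Finset.single_le_sum (f := fun e => pd q e * av (c / 4) l F (X - c * dl q e))
      (fun e _ => mul_nonneg (pd_nonneg q e) (av_nonneg l hF0 _ _)) (Finset.mem_univ e)
  have h2 := h e hs
  have h3 : 1/2 * m ≤ pd q e * av (c / 4) l F (X - c * dl q e) := mul_le_mul he h2 hm (le_trans (by norm_num) he)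
  linarith

/-- the shift keeps `|X|` below `max |X| (3c)` -/
theorem shift_bd {c X δ R : ℝ} (hc : 0 ≤ c) (hX : |X| ≤ R) (hR : 3 * c ≤ R)
    (h : (0 ≤ X → 0 ≤ δ ∧ δ ≤ 3) ∧ (X < 0 → -3 ≤ δ ∧ δ ≤ 0)) : |X - c * δ| ≤ R := by
  rw [abs_le] at hX ⊢
  by_cases h0 : 0 ≤ X
  · obtain ⟨h1, h2⟩ := h.1 h0
    have h3 := mul_nonneg hc h1
    have h4 := mul_le_mul_of_nonneg_left h2 hc
    constructor <;> linarith
  · obtain ⟨h1, h2⟩ := h.2 (lt_of_not_ge h0)
    have h3 := mul_le_mul_of_nonneg_left h1 hc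
    have h4 : c * δ ≤ 0 := mul_nonpos_of_nonneg_of_nonpos hc h2
    push Not at h0
    constructor <;> linarith

theorem av_lower {u : ℝ} (hu0 : 0 ≤ u) (hu : u ≤ 1/4) {F : ℝ → ℝ} (hF0 : ∀ x, 0 ≤ F x) {m : ℝ} (hm : 0 ≤ m)
    (hF : ∀ x, |x| ≤ 253/128 → m ≤ F x) (q1 q2 q3 : Fin 3) (l : List (Fin 3)) {X : ℝ} (hX : |X| ≤ 63/32) :
    m / 8 ≤ av (u / 4) (q1 :: q2 :: q3 :: l) F X := by
  have e8 : m / 8 = m / 2 / 2 / 2 := by ring
  rw [e8]
  apply av_pick q1 _ hF0 (by positivity)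
  intro e1 h1
  apply av_pick q2 _ hF0 (by positivity)
  intro e2 h2
  apply av_pick q3 _ hF0 hm
  intro e3 h3
  apply av_ge_rest l hF
  · positivity
  · have g1 : |X - u / 4 * dl q1 e1| ≤ 63/32 := shift_bd (by positivity) hX (by linarith) h1
    have g2 : |X - u / 4 * dl q1 e1 - u / 4 / 4 * dl q2 e2| ≤ 63/32 := shift_bd (by positivity) g1 (by linarith) h2
    have g3 : |X - u / 4 * dl q1 e1 - u / 4 / 4 * dl q2 e2 - u / 4 / 4 / 4 * dl q3 e3| ≤ 63/32 :=
      shift_bd (by positivity) g2 (by linarith) h3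
    linarith

/-- a digit which brings `4X` back -/
theorem digit {X : ℝ} (hX : |X| ≤ 253/128) : ∃ k : Fin 5, |4 * X - sv k| ≤ 4 * (253/128) - 6 ∧
    (|4 * X - sv k| ≤ 3/2 ∨ ((k = 0 ∨ k = 4) ∧ |4 * X - sv k| ≤ max (3/2) (4 * |X| - 6))) := by
  rw [abs_le] at hX
  by_cases h1 : X < -9/8
  · refine ⟨0, ?_, Or.inr ⟨Or.inl rfl, ?_⟩⟩
    · have : sv 0 = -6 := sv0
      rw [this, abs_le]; constructor <;> linarith
    · have : sv 0 = -6 := sv0
      rw [this, abs_of_neg (by linarith : X < 0), abs_le]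
      constructor
      · have := le_max_right (3/2) (4 * -X - 6)
        linarith
      · have := le_max_left (3/2) (4 * -X - 6)
        linarith
  by_cases h2 : X < -3/8
  · refine ⟨1, ?_, Or.inl ?_⟩ <;>
    · have : sv 1 = -3 := sv1
      rw [this, abs_le]; constructor <;> linarith
  by_cases h3 : X < 3/8
  · refine ⟨2, ?_, Or.inl ?_⟩ <;>
    · have : sv 2 = 0 := sv2
      rw [this, abs_le]; constructor <;> linarith
  by_cases h4 : X < 9/8
  · refine ⟨3, ?_, Or.inl ?_⟩ <;>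
    · have : sv 3 = 3 := sv3
      rw [this, abs_le]; constructor <;> linarith
  · refine ⟨4, ?_, Or.inr ⟨Or.inr rfl, ?_⟩⟩
    · have : sv 4 = 6 := sv4
      rw [this, abs_le]; constructor <;> linarith
    · have : sv 4 = 6 := sv4
      rw [this, abs_of_nonneg (by linarith : 0 ≤ X), abs_le]
      constructor
      · have := le_max_left (3/2) (4 * X - 6)
        linarith
      · have := le_max_right (3/2) (4 * X - 6)
        linarith

/-- lower bound of `T F` -/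
theorem TT_lower {d : ℝ} (hd0 : 0 ≤ d) {F : ℝ → ℝ} (hF0 : ∀ x, 0 ≤ F x) {m X R : ℝ}
    (hX : |X| ≤ 253/128) (hR1 : 3/2 + 6 * d ≤ R) (hR2 : 4 * |X| - 6 ≤ R)
    (hF : ∀ x, |x| ≤ R → m ≤ F x) : m / 4 ≤ TT d F X := by
  obtain ⟨k, -, hk⟩ := digit hX
  have h1 : W k * ∑ e : Fin 3, pd (cl k) e * F (4 * X - sv k - d * dl (cl k) e) ≤ TT d F X :=
    Finset.single_le_sum (f := fun k => W k * ∑ e : Fin 3, pd (cl k) e * F (4 * X - sv k - d * dl (cl k) e))
      (fun k _ => mul_nonneg (W_nonneg k) (Finset.sum_nonneg fun e _ => mul_nonneg (pd_nonneg _ e) (hF0 _)))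
      (Finset.mem_univ k)
  have h2 : ∀ e : Fin 3, |4 * X - sv k - d * dl (cl k) e| ≤ R := by
    intro e
    rcases hk with hk | ⟨hk1, hk2⟩
    · calc |4 * X - sv k - d * dl (cl k) e| ≤ |4 * X - sv k| + |d * dl (cl k) e| := abs_sub _ _
        _ ≤ 3/2 + d * 6 := by
          rw [abs_mul, abs_of_nonneg hd0]
          have := mul_le_mul_of_nonneg_left (dl_le (cl k) e) hd0
          linarith
        _ ≤ R := by linarith
    · have h0 : dl (cl k) e = 0 := by
        have h2 : ∀ e : Fin 3, dl 2 e = 0 := by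
          intro e
          fin_cases e
          · exact dl20
          · exact dl21
          · exact dl22
        rcases hk1 with rfl | rfl
        · rw [cl0]; exact h2 e
        · rw [cl4]; exact h2 e
      rw [h0, mul_zero, sub_zero]
      refine hk2.trans (max_le ?_ hR2)
      linarith
  have h3 : m ≤ ∑ e : Fin 3, pd (cl k) e * F (4 * X - sv k - d * dl (cl k) e) := by
    calc m = ∑ e : Fin 3, pd (cl k) e * m := by rw [← Finset.sum_mul, pd_sum, one_mul]
      _ ≤ _ := Finset.sum_le_sum fun e _ => mul_le_mul_of_nonneg_left (hF _ (h2 e)) (pd_nonneg _ e)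
  have h4 : 0 ≤ ∑ e : Fin 3, pd (cl k) e * F (4 * X - sv k - d * dl (cl k) e) :=
    Finset.sum_nonneg fun e _ => mul_nonneg (pd_nonneg _ e) (hF0 _)
  have h5 := mul_le_mul_of_nonneg_right (W_ge k) h4
  linarith

end

end Pool.Agent.FCQ.C
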