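import Pool.Agent.FCQ.C.G1
import Pool.Agent.FCQ.JEN
import Pool.Agent.FCQ.GMID

/-!
# The delayed chain: the steps of the functionals
-/

set_option autoImplicit false

namespace Pool.Agent.FCQ.C

open MeasureTheory Set

noncomputable section

/-- the functional -/
def II (V B : ℝ → ℝ) : ENNReal := ∫⁻ x, ENNReal.ofReal (V x) * (ENNReal.ofReal (B x))⁻¹ ^ 2

theorem II_dom {V V' B : ℝ → ℝ} {C : ℝ} (hV : Measurable V) (hB : Measurable B) (hC : 0 ≤ C)
    (h : ∀ x, V' x ≤ C * V x) : II V' B ≤ ENNReal.ofReal C * II V B := by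
  unfold II
  have hm : Measurable fun x => ENNReal.ofReal (V x) * (ENNReal.ofReal (B x))⁻¹ ^ 2 :=
    hV.ennreal_ofReal.mul ((hB.ennreal_ofReal.inv).pow_const 2)
  rw [← lintegral_const_mul _ hm]
  refine lintegral_mono fun x => ?_
  show ENNReal.ofReal (V' x) * _ ≤ ENNReal.ofReal C * (ENNReal.ofReal (V x) * _)
  rw [← mul_assoc, ← ENNReal.ofReal_mul hC]
  exact mul_le_mul_left (ENNReal.ofReal_le_ofReal (h x)) _

theorem sum15 {M : Type*} [AddCommMonoid M] (F : Fin 5 → Fin 3 → M) :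
    ∑ d : Fin (5 * 3), F (finProdFinEquiv.symm d).1 (finProdFinEquiv.symm d).2 =
      ∑ a : Fin 5, ∑ b : Fin 3, F a b :=
  (Equiv.sum_comp (finProdFinEquiv (m := 5) (n := 3)).symm (fun q => F q.1 q.2)).trans
    (Fintype.sum_prod_type _)

/-- Jensen for one step of the delayed chain -/
theorem jen15 (u : ℝ) (q : Fin 3) (h : ℝ → ℝ) (B : Fin 5 → ℝ → ℝ) (h0 : ∀ y, 0 ≤ h y)
    (B0 : ∀ k y, 0 ≤ B k y) (x : ℝ) (hp : 0 < TD u q h x) :
    (ENNReal.ofReal (∑ k : Fin 5, ∑ e : Fin 3, W k * pd q e * B k (4 * x - sv k - u * dl q e)))⁻¹ ^ 2 ≤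
      ENNReal.ofReal (1 / (TD u q h x) ^ 3) *
      ∑ k : Fin 5, ∑ e : Fin 3,
        ENNReal.ofReal (W k * pd q e * h (4 * x - sv k - u * dl q e) ^ 3) *
          (ENNReal.ofReal (B k (4 * x - sv k - u * dl q e)))⁻¹ ^ 2 := by
  let e := (finProdFinEquiv (m := 5) (n := 3)).symm
  have e1 : ∑ d : Fin (5 * 3), (W (e d).1 * pd q (e d).2) *
      h (4 * x - sv (e d).1 - u * dl q (e d).2) = TD u q h x :=
    sum15 (fun a b => W a * pd q b * h (4 * x - sv a - u * dl q b))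
  have e3 : ∑ d : Fin (5 * 3), (W (e d).1 * pd q (e d).2) *
      B (e d).1 (4 * x - sv (e d).1 - u * dl q (e d).2)
        = ∑ k : Fin 5, ∑ e : Fin 3, W k * pd q e * B k (4 * x - sv k - u * dl q e) :=
    sum15 (fun a b => W a * pd q b * B a (4 * x - sv a - u * dl q b))
  have e2 := sum15 (fun a b => ENNReal.ofReal (W a * pd q b * h (4 * x - sv a - u * dl q b) ^ 3) *
    (ENNReal.ofReal (B a (4 * x - sv a - u * dl q b)))⁻¹ ^ 2)
  have h1 := JEN_thm (5 * 3) (fun d => W (e d).1 * pd q (e d).2)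
    (fun d => h (4 * x - sv (e d).1 - u * dl q (e d).2))
    (fun d => B (e d).1 (4 * x - sv (e d).1 - u * dl q (e d).2))
    (fun d => mul_nonneg (W_nonneg _) (pd_nonneg _ _)) (fun d => h0 _) (fun d => B0 _ _)
    (by rw [e1]; exact hp)
  rw [e3, e1] at h1
  rw [← e2]
  exact h1

theorem TD_meas (u : ℝ) (q : Fin 3) {φ : ℝ → ℝ} (hφ : Measurable φ) : Measurable (TD u q φ) := by
  unfold TD
  refine Finset.measurable_sum _ fun k _ => Finset.measurable_sum _ fun e _ => Measurable.const_mul ?_ _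
  exact hφ.comp (((measurable_id.const_mul 4).sub_const _).sub_const _)

theorem TD_nonneg (u : ℝ) (q : Fin 3) {φ : ℝ → ℝ} (hφ : ∀ x, 0 ≤ φ x) (x : ℝ) : 0 ≤ TD u q φ x :=
  Finset.sum_nonneg fun k _ => Finset.sum_nonneg fun e _ =>
    mul_nonneg (mul_nonneg (W_nonneg k) (pd_nonneg _ e)) (hφ _)

/-- the coefficient of a digit after the change of variables -/
def co1 (u : ℝ) (q : Fin 3) (h V : ℝ → ℝ) (k : Fin 5) (e : Fin 3) (r : ℝ) : ℝ :=
  W k / 4 * pd q e * (h r / TD u q h ((r + sv k + u * dl q e) / 4)) ^ 3 * V ((r + sv k + u * dl q e) / 4)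

theorem co1_nonneg {u : ℝ} {q : Fin 3} {h V : ℝ → ℝ} (h0 : ∀ x, 0 ≤ h x) (V0 : ∀ x, 0 ≤ V x)
    (k : Fin 5) (e : Fin 3) (r : ℝ) : 0 ≤ co1 u q h V k e r := by
  unfold co1
  have a1 := W_nonneg k
  have a2 := pd_nonneg q e
  have a3 := h0 r
  have a4 := TD_nonneg u q h0 ((r + sv k + u * dl q e) / 4)
  have a5 := V0 ((r + sv k + u * dl q e) / 4)
  positivity

theorem co1_meas {u : ℝ} {q : Fin 3} {h V : ℝ → ℝ} (mh : Measurable h) (mV : Measurable V)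
    (k : Fin 5) (e : Fin 3) : Measurable (co1 u q h V k e) := by
  unfold co1
  have m1 : Measurable fun y : ℝ => (y + sv k + u * dl q e) / 4 := by fun_prop
  exact (((mh.div ((TD_meas u q mh).comp m1)).pow_const 3).const_mul _).mul (mV.comp m1)

theorem stepTD (u : ℝ) (q : Fin 3) {h V : ℝ → ℝ} {B : Fin 5 → ℝ → ℝ} (h0 : ∀ y, 0 ≤ h y) (V0 : ∀ x, 0 ≤ V x)
    (mh : Measurable h) (mV : Measurable V) (B0 : ∀ k y, 0 ≤ B k y) (mB : ∀ k, Measurable (B k))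
    (hp : ∀ x, V x ≠ 0 → 0 < TD u q h x) :
    II V (fun x => ∑ k : Fin 5, ∑ e : Fin 3, W k * pd q e * B k (4 * x - sv k - u * dl q e)) ≤
      ∑ k : Fin 5, ∑ e : Fin 3, ∫⁻ r, ENNReal.ofReal (co1 u q h V k e r) * (ENNReal.ofReal (B k r))⁻¹ ^ 2 := by
  have mBB : ∀ k, Measurable fun y => (ENNReal.ofReal (B k y))⁻¹ ^ 2 := fun k =>
    ((mB k).ennreal_ofReal.inv).pow_const 2
  have hm : ∀ (k : Fin 5) (e : Fin 3), Measurable (fun y => ENNReal.ofReal (4 * co1 u q h V k e y) *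
      (ENNReal.ofReal (B k y))⁻¹ ^ 2) := fun k e =>
    (((co1_meas mh mV k e).const_mul 4).ennreal_ofReal).mul (mBB k)
  have h1 : II V (fun x => ∑ k : Fin 5, ∑ e : Fin 3, W k * pd q e * B k (4 * x - sv k - u * dl q e)) ≤
      ∫⁻ x, ∑ k : Fin 5, ∑ e : Fin 3, (fun y => ENNReal.ofReal (4 * co1 u q h V k e y) *
        (ENNReal.ofReal (B k y))⁻¹ ^ 2) (4 * x - (sv k + u * dl q e)) := by
    refine lintegral_mono fun x => ?_
    by_cases hV : V x = 0
    · show ENNReal.ofReal (V x) * _ ≤ _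
      rw [hV, ENNReal.ofReal_zero, zero_mul]
      exact zero_le
    · have h2 := jen15 u q h B h0 B0 x (hp x hV)
      refine (mul_le_mul_right h2 _).trans (le_of_eq ?_)
      rw [Finset.mul_sum, Finset.mul_sum]
      refine Finset.sum_congr rfl fun k _ => ?_
      rw [Finset.mul_sum, Finset.mul_sum]
      refine Finset.sum_congr rfl fun e _ => ?_
      have h4 : (4 * x - (sv k + u * dl q e) + sv k + u * dl q e) / 4 = x := by ring
      have h5 : 4 * x - sv k - u * dl q e = 4 * x - (sv k + u * dl q e) := by ring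
      show _ = ENNReal.ofReal (4 * co1 u q h V k e (4 * x - (sv k + u * dl q e))) *
        (ENNReal.ofReal (B k (4 * x - (sv k + u * dl q e))))⁻¹ ^ 2
      unfold co1
      rw [h4, h5, ← mul_assoc, ← mul_assoc, ← ENNReal.ofReal_mul (V0 x),
        ← ENNReal.ofReal_mul (mul_nonneg (V0 x) (by have := TD_nonneg u q h0 x; positivity))]
      congr 2
      rw [div_pow]
      ring
  refine h1.trans (le_of_eq ?_)
  have hm2 : ∀ (k : Fin 5) (e : Fin 3), Measurable (fun x => (fun y => ENNReal.ofReal (4 * co1 u q h V k e y) *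
      (ENNReal.ofReal (B k y))⁻¹ ^ 2) (4 * x - (sv k + u * dl q e))) := fun k e => (hm k e).comp (by fun_prop)
  rw [lintegral_finsetSum _ fun a _ => Finset.measurable_sum _ fun c _ => hm2 a c]
  refine Finset.sum_congr rfl fun k _ => ?_
  rw [lintegral_finsetSum _ fun c _ => hm2 k c]
  refine Finset.sum_congr rfl fun e _ => ?_
  rw [GMID.cov _ (hm k e), ← lintegral_const_mul _ (hm k e)]
  refine lintegral_congr fun y => ?_
  rw [← mul_assoc, ← ENNReal.ofReal_mul (by norm_num)]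
  congr 2
  ring

/-- the step of the delayed chain, summed over the first class -/
theorem stepB {u c0 C0 G GA : ℝ} {h : Fin 3 → ℝ → ℝ} {V : Fin 3 → Fin 3 → ℝ → ℝ} {hA : ℝ → ℝ}
    {VA : Fin 3 → ℝ → ℝ} {bb : Fin 3 → ℝ} (hc : Co u c0 C0 G GA h V hA VA bb) (hG : 0 ≤ G) (hb : ∀ c, 0 ≤ bb c)
    (Q2 c : Fin 3) {B : Fin 3 → ℝ → ℝ} (B0 : ∀ k y, 0 ≤ B k y) (mB : ∀ k, Measurable (B k)) :
    ∑ Q1 : Fin 3, ENNReal.ofReal (bb Q1) *
      II (V Q1 c) (fun x => ∑ k : Fin 5, W k * ∑ e : Fin 3, pd Q1 e * B (cl k) (4 * x - sv k - u * dl Q1 e)) ≤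
    ENNReal.ofReal (G * bb c) * ∑ k0 : Fin 3, II (V Q2 k0) (B k0) := by
  have hst : ∀ Q1 : Fin 3, ENNReal.ofReal (bb Q1) *
      II (V Q1 c) (fun x => ∑ k : Fin 5, W k * ∑ e : Fin 3, pd Q1 e * B (cl k) (4 * x - sv k - u * dl Q1 e)) ≤
      ∫⁻ r, ∑ k : Fin 5, ∑ e : Fin 3, ENNReal.ofReal (bb Q1 * co1 u Q1 (h Q2) (V Q1 c) k e r) *
        (ENNReal.ofReal (B (cl k) r))⁻¹ ^ 2 := by
    intro Q1
    have e1 : (fun x => ∑ k : Fin 5, W k * ∑ e : Fin 3, pd Q1 e * B (cl k) (4 * x - sv k - u * dl Q1 e)) =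
        fun x => ∑ k : Fin 5, ∑ e : Fin 3, W k * pd Q1 e * (fun k => B (cl k)) k (4 * x - sv k - u * dl Q1 e) := by
      funext x
      refine Finset.sum_congr rfl fun k _ => ?_
      rw [Finset.mul_sum]
      exact Finset.sum_congr rfl fun e _ => by ring
    rw [e1]
    have h1 := stepTD u Q1 (h := h Q2) (V := V Q1 c) (B := fun k => B (cl k)) (hc.h0 Q2) (hc.V0 Q1 c) (hc.mh Q2)
      (hc.mV Q1 c) (fun k y => B0 _ y) (fun k => mB _) (hc.pos Q1 Q2 c)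
    refine (mul_le_mul_right h1 _).trans (le_of_eq ?_)
    have hm : ∀ (k : Fin 5) (e : Fin 3), Measurable (fun r => ENNReal.ofReal (bb Q1 * co1 u Q1 (h Q2) (V Q1 c) k e r) *
        (ENNReal.ofReal (B (cl k) r))⁻¹ ^ 2) := fun k e =>
      (((co1_meas (hc.mh Q2) (hc.mV Q1 c) k e).const_mul _).ennreal_ofReal).mul
        (((mB (cl k)).ennreal_ofReal.inv).pow_const 2)
    rw [lintegral_finsetSum _ fun a _ => Finset.measurable_sum _ fun c _ => hm a c, Finset.mul_sum]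
    refine Finset.sum_congr rfl fun k _ => ?_
    rw [lintegral_finsetSum _ fun c _ => hm k c, Finset.mul_sum]
    refine Finset.sum_congr rfl fun e _ => ?_
    rw [← lintegral_const_mul]
    · refine lintegral_congr fun r => ?_
      rw [← mul_assoc, ← ENNReal.ofReal_mul (hb Q1)]
    · exact ((co1_meas (hc.mh Q2) (hc.mV Q1 c) k e).ennreal_ofReal).mul
        (((mB (cl k)).ennreal_ofReal.inv).pow_const 2)
  have hmm : ∀ (Q1 : Fin 3) (k : Fin 5) (e : Fin 3), Measurable (fun r =>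
      ENNReal.ofReal (bb Q1 * co1 u Q1 (h Q2) (V Q1 c) k e r) * (ENNReal.ofReal (B (cl k) r))⁻¹ ^ 2) := fun Q1 k e =>
    (((co1_meas (hc.mh Q2) (hc.mV Q1 c) k e).const_mul _).ennreal_ofReal).mul
      (((mB (cl k)).ennreal_ofReal.inv).pow_const 2)
  refine (Finset.sum_le_sum fun Q1 _ => hst Q1).trans ?_
  rw [← lintegral_finsetSum _ fun Q1 _ => Finset.measurable_sum _ fun k _ => Finset.measurable_sum _ fun e _ => hmm Q1 k e]
  have hmV : ∀ k0 : Fin 3, Measurable fun r => ENNReal.ofReal (V Q2 k0 r) * (ENNReal.ofReal (B k0 r))⁻¹ ^ 2 := fun k0 =>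
    (hc.mV Q2 k0).ennreal_ofReal.mul (((mB k0).ennreal_ofReal.inv).pow_const 2)
  have e5 : ENNReal.ofReal (G * bb c) * ∑ k0 : Fin 3, II (V Q2 k0) (B k0) =
      ∫⁻ r, ∑ k0 : Fin 3, ENNReal.ofReal (G * bb c * V Q2 k0 r) * (ENNReal.ofReal (B k0 r))⁻¹ ^ 2 := by
    unfold II
    rw [← lintegral_finsetSum _ fun k0 _ => hmV k0, ← lintegral_const_mul _ (Finset.measurable_sum _ fun k0 _ => hmV k0)]
    refine lintegral_congr fun r => ?_
    rw [Finset.mul_sum]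
    refine Finset.sum_congr rfl fun k0 _ => ?_
    rw [← mul_assoc, ← ENNReal.ofReal_mul (mul_nonneg hG (hb c))]
  rw [e5]
  refine lintegral_mono fun r => ?_
  -- regroup by classes
  have e6 : ∑ Q1 : Fin 3, ∑ k : Fin 5, ∑ e : Fin 3, ENNReal.ofReal (bb Q1 * co1 u Q1 (h Q2) (V Q1 c) k e r) *
        (ENNReal.ofReal (B (cl k) r))⁻¹ ^ 2
      = ∑ k0 : Fin 3, ∑ k ∈ Finset.univ.filter (fun k => cl k = k0), ∑ Q1 : Fin 3, ∑ e : Fin 3,
          ENNReal.ofReal (bb Q1 * co1 u Q1 (h Q2) (V Q1 c) k e r) * (ENNReal.ofReal (B k0 r))⁻¹ ^ 2 := by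
    rw [Finset.sum_comm]
    rw [← Finset.sum_fiberwise_of_maps_to (s := Finset.univ) (t := Finset.univ) (g := cl) (fun _ _ => Finset.mem_univ _)]
    refine Finset.sum_congr rfl fun k0 _ => Finset.sum_congr rfl fun k hk => ?_
    rw [(Finset.mem_filter.1 hk).2]
  show ∑ Q1 : Fin 3, ∑ k : Fin 5, ∑ e : Fin 3, ENNReal.ofReal (bb Q1 * co1 u Q1 (h Q2) (V Q1 c) k e r) *
        (ENNReal.ofReal (B (cl k) r))⁻¹ ^ 2 ≤ _
  rw [e6]
  refine Finset.sum_le_sum fun k0 _ => ?_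
  have hnn : ∀ (k : Fin 5) (Q1 e : Fin 3), 0 ≤ bb Q1 * co1 u Q1 (h Q2) (V Q1 c) k e r := fun k Q1 e =>
    mul_nonneg (hb Q1) (co1_nonneg (hc.h0 Q2) (hc.V0 Q1 c) k e r)
  calc ∑ k ∈ Finset.univ.filter (fun k => cl k = k0), ∑ Q1 : Fin 3, ∑ e : Fin 3,
          ENNReal.ofReal (bb Q1 * co1 u Q1 (h Q2) (V Q1 c) k e r) * (ENNReal.ofReal (B k0 r))⁻¹ ^ 2
      = ENNReal.ofReal (∑ k ∈ Finset.univ.filter (fun k => cl k = k0), ∑ Q1 : Fin 3, ∑ e : Fin 3,
          bb Q1 * co1 u Q1 (h Q2) (V Q1 c) k e r) * (ENNReal.ofReal (B k0 r))⁻¹ ^ 2 := by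
        rw [ENNReal.ofReal_sum_of_nonneg fun k _ => Finset.sum_nonneg fun Q1 _ => Finset.sum_nonneg fun e _ => hnn k Q1 e,
          Finset.sum_mul]
        refine Finset.sum_congr rfl fun k _ => ?_
        rw [ENNReal.ofReal_sum_of_nonneg fun Q1 _ => Finset.sum_nonneg fun e _ => hnn k Q1 e, Finset.sum_mul]
        refine Finset.sum_congr rfl fun Q1 _ => ?_
        rw [ENNReal.ofReal_sum_of_nonneg fun e _ => hnn k Q1 e, Finset.sum_mul]
    _ ≤ ENNReal.ofReal (G * bb c * V Q2 k0 r) * (ENNReal.ofReal (B k0 r))⁻¹ ^ 2 := by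
        refine mul_le_mul_left (ENNReal.ofReal_le_ofReal ?_) _
        refine le_trans (le_of_eq ?_) (hc.ineq Q2 k0 c r)
        refine Finset.sum_congr rfl fun k _ => Finset.sum_congr rfl fun Q1 _ => Finset.sum_congr rfl fun e _ => ?_
        unfold co1
        ring

/-! ### The filling phase -/

theorem jen5 (h : ℝ → ℝ) (B : Fin 5 → ℝ → ℝ) (h0 : ∀ y, 0 ≤ h y)
    (B0 : ∀ k y, 0 ≤ B k y) (x : ℝ) (hp : 0 < TA h x) :
    (ENNReal.ofReal (∑ k : Fin 5, W k * B k (4 * x - sv k)))⁻¹ ^ 2 ≤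
      ENNReal.ofReal (1 / (TA h x) ^ 3) *
      ∑ k : Fin 5, ENNReal.ofReal (W k * h (4 * x - sv k) ^ 3) * (ENNReal.ofReal (B k (4 * x - sv k)))⁻¹ ^ 2 :=
  JEN_thm 5 W (fun d => h (4 * x - sv d)) (fun d => B d (4 * x - sv d))
    (fun d => W_nonneg _) (fun d => h0 _) (fun d => B0 _ _) hp

theorem TA_meas {φ : ℝ → ℝ} (hφ : Measurable φ) : Measurable (TA φ) := by
  unfold TA
  refine Finset.measurable_sum _ fun k _ => Measurable.const_mul ?_ _
  exact hφ.comp ((measurable_id.const_mul 4).sub_const _)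

theorem TA_nonneg {φ : ℝ → ℝ} (hφ : ∀ x, 0 ≤ φ x) (x : ℝ) : 0 ≤ TA φ x :=
  Finset.sum_nonneg fun k _ => mul_nonneg (W_nonneg k) (hφ _)

def co2 (h V : ℝ → ℝ) (k : Fin 5) (r : ℝ) : ℝ :=
  W k / 4 * (h r / TA h ((r + sv k) / 4)) ^ 3 * V ((r + sv k) / 4)

theorem co2_nonneg {h V : ℝ → ℝ} (h0 : ∀ x, 0 ≤ h x) (V0 : ∀ x, 0 ≤ V x) (k : Fin 5) (r : ℝ) : 0 ≤ co2 h V k r := by
  unfold co2
  have a1 := W_nonneg k
  have a3 := h0 r
  have a4 := TA_nonneg h0 ((r + sv k) / 4)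
  have a5 := V0 ((r + sv k) / 4)
  positivity

theorem co2_meas {h V : ℝ → ℝ} (mh : Measurable h) (mV : Measurable V) (k : Fin 5) : Measurable (co2 h V k) := by
  unfold co2
  have m1 : Measurable fun y : ℝ => (y + sv k) / 4 := by fun_prop
  exact (((mh.div ((TA_meas mh).comp m1)).pow_const 3).const_mul _).mul (mV.comp m1)

theorem stepTA {h V : ℝ → ℝ} {B : Fin 5 → ℝ → ℝ} (h0 : ∀ y, 0 ≤ h y) (V0 : ∀ x, 0 ≤ V x)
    (mh : Measurable h) (mV : Measurable V) (B0 : ∀ k y, 0 ≤ B k y) (mB : ∀ k, Measurable (B k))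
    (hp : ∀ x, V x ≠ 0 → 0 < TA h x) :
    II V (fun x => ∑ k : Fin 5, W k * B k (4 * x - sv k)) ≤
      ∑ k : Fin 5, ∫⁻ r, ENNReal.ofReal (co2 h V k r) * (ENNReal.ofReal (B k r))⁻¹ ^ 2 := by
  have mBB : ∀ k, Measurable fun y => (ENNReal.ofReal (B k y))⁻¹ ^ 2 := fun k =>
    ((mB k).ennreal_ofReal.inv).pow_const 2
  have hm : ∀ (k : Fin 5), Measurable (fun y => ENNReal.ofReal (4 * co2 h V k y) *
      (ENNReal.ofReal (B k y))⁻¹ ^ 2) := fun k =>
    (((co2_meas mh mV k).const_mul 4).ennreal_ofReal).mul (mBB k)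
  have h1 : II V (fun x => ∑ k : Fin 5, W k * B k (4 * x - sv k)) ≤
      ∫⁻ x, ∑ k : Fin 5, (fun y => ENNReal.ofReal (4 * co2 h V k y) *
        (ENNReal.ofReal (B k y))⁻¹ ^ 2) (4 * x - sv k) := by
    refine lintegral_mono fun x => ?_
    by_cases hV : V x = 0
    · show ENNReal.ofReal (V x) * _ ≤ _
      rw [hV, ENNReal.ofReal_zero, zero_mul]
      exact zero_le
    · have h2 := jen5 h B h0 B0 x (hp x hV)
      refine (mul_le_mul_right h2 _).trans (le_of_eq ?_)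
      rw [Finset.mul_sum, Finset.mul_sum]
      refine Finset.sum_congr rfl fun k _ => ?_
      have h4 : (4 * x - sv k + sv k) / 4 = x := by ring
      show _ = ENNReal.ofReal (4 * co2 h V k (4 * x - sv k)) * (ENNReal.ofReal (B k (4 * x - sv k)))⁻¹ ^ 2
      unfold co2
      rw [h4, ← mul_assoc, ← mul_assoc, ← ENNReal.ofReal_mul (V0 x),
        ← ENNReal.ofReal_mul (mul_nonneg (V0 x) (by have := TA_nonneg h0 x; positivity))]
      congr 2
      rw [div_pow]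
      ring
  refine h1.trans (le_of_eq ?_)
  have hm2 : ∀ (k : Fin 5), Measurable (fun x => (fun y => ENNReal.ofReal (4 * co2 h V k y) *
      (ENNReal.ofReal (B k y))⁻¹ ^ 2) (4 * x - sv k)) := fun k => (hm k).comp (by fun_prop)
  rw [lintegral_finsetSum _ fun a _ => hm2 a]
  refine Finset.sum_congr rfl fun k _ => ?_
  rw [GMID.cov _ (hm k), ← lintegral_const_mul _ (hm k)]
  refine lintegral_congr fun y => ?_
  rw [← mul_assoc, ← ENNReal.ofReal_mul (by norm_num)]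
  congr 2
  ring

/-- the step of the filling phase -/
theorem stepA {u c0 C0 G GA : ℝ} {h : Fin 3 → ℝ → ℝ} {V : Fin 3 → Fin 3 → ℝ → ℝ} {hA : ℝ → ℝ}
    {VA : Fin 3 → ℝ → ℝ} {bb : Fin 3 → ℝ} (hc : Co u c0 C0 G GA h V hA VA bb) (hG : 0 ≤ GA) (hb : ∀ c, 0 ≤ bb c)
    (c : Fin 3) {B : Fin 3 → ℝ → ℝ} (B0 : ∀ k y, 0 ≤ B k y) (mB : ∀ k, Measurable (B k)) :
    II (VA c) (fun x => ∑ k : Fin 5, W k * B (cl k) (4 * x - sv k)) ≤
    ENNReal.ofReal (GA * bb c) * ∑ k0 : Fin 3, II (VA k0) (B k0) := by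
  have h1 := stepTA (h := hA) (V := VA c) (B := fun k => B (cl k)) hc.hA0 (hc.VA0 c) hc.mhA (hc.mVA c)
    (fun k y => B0 _ y) (fun k => mB _) (hc.posA c)
  refine h1.trans ?_
  have hmm : ∀ (k : Fin 5), Measurable (fun r =>
      ENNReal.ofReal (co2 hA (VA c) k r) * (ENNReal.ofReal (B (cl k) r))⁻¹ ^ 2) := fun k =>
    ((co2_meas hc.mhA (hc.mVA c) k).ennreal_ofReal).mul
      (((mB (cl k)).ennreal_ofReal.inv).pow_const 2)
  rw [← lintegral_finsetSum _ fun k _ => hmm k]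
  have hmV : ∀ k0 : Fin 3, Measurable fun r => ENNReal.ofReal (VA k0 r) * (ENNReal.ofReal (B k0 r))⁻¹ ^ 2 := fun k0 =>
    (hc.mVA k0).ennreal_ofReal.mul (((mB k0).ennreal_ofReal.inv).pow_const 2)
  have e5 : ENNReal.ofReal (GA * bb c) * ∑ k0 : Fin 3, II (VA k0) (B k0) =
      ∫⁻ r, ∑ k0 : Fin 3, ENNReal.ofReal (GA * bb c * VA k0 r) * (ENNReal.ofReal (B k0 r))⁻¹ ^ 2 := by
    unfold II
    rw [← lintegral_finsetSum _ fun k0 _ => hmV k0, ← lintegral_const_mul _ (Finset.measurable_sum _ fun k0 _ => hmV k0)]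
    refine lintegral_congr fun r => ?_
    rw [Finset.mul_sum]
    refine Finset.sum_congr rfl fun k0 _ => ?_
    rw [← mul_assoc, ← ENNReal.ofReal_mul (mul_nonneg hG (hb c))]
  rw [e5]
  refine lintegral_mono fun r => ?_
  have e6 : ∑ k : Fin 5, ENNReal.ofReal (co2 hA (VA c) k r) * (ENNReal.ofReal (B (cl k) r))⁻¹ ^ 2
      = ∑ k0 : Fin 3, ∑ k ∈ Finset.univ.filter (fun k => cl k = k0),
          ENNReal.ofReal (co2 hA (VA c) k r) * (ENNReal.ofReal (B k0 r))⁻¹ ^ 2 := by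
    rw [← Finset.sum_fiberwise_of_maps_to (s := Finset.univ) (t := Finset.univ) (g := cl) (fun _ _ => Finset.mem_univ _)]
    refine Finset.sum_congr rfl fun k0 _ => Finset.sum_congr rfl fun k hk => ?_
    rw [(Finset.mem_filter.1 hk).2]
  show ∑ k : Fin 5, ENNReal.ofReal (co2 hA (VA c) k r) * (ENNReal.ofReal (B (cl k) r))⁻¹ ^ 2 ≤ _
  rw [e6]
  refine Finset.sum_le_sum fun k0 _ => ?_
  have hnn : ∀ (k : Fin 5), 0 ≤ co2 hA (VA c) k r := fun k => co2_nonneg hc.hA0 (hc.VA0 c) k r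
  calc ∑ k ∈ Finset.univ.filter (fun k => cl k = k0),
          ENNReal.ofReal (co2 hA (VA c) k r) * (ENNReal.ofReal (B k0 r))⁻¹ ^ 2
      = ENNReal.ofReal (∑ k ∈ Finset.univ.filter (fun k => cl k = k0), co2 hA (VA c) k r) *
          (ENNReal.ofReal (B k0 r))⁻¹ ^ 2 := by
        rw [ENNReal.ofReal_sum_of_nonneg fun k _ => hnn k, Finset.sum_mul]
    _ ≤ ENNReal.ofReal (GA * bb c * VA k0 r) * (ENNReal.ofReal (B k0 r))⁻¹ ^ 2 := by
        refine mul_le_mul_left (ENNReal.ofReal_le_ofReal ?_) _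
        exact hc.ineqA k0 c r

end

end Pool.Agent.FCQ.C
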