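import Pool.Agent.FCQ.C.G2

/-!
# The delayed chain: the functionals on queues
-/

set_option autoImplicit false

namespace Pool.Agent.FCQ.C

open MeasureTheory Set

noncomputable section

/-- sum over the lists of length `m` -/
def SL : ℕ → (List (Fin 3) → ENNReal) → ENNReal
  | 0, g => g []
  | m + 1, g => ∑ a : Fin 3, SL m (fun l => g (a :: l))

theorem SL_zero (g : List (Fin 3) → ENNReal) : SL 0 g = g [] := rfl
theorem SL_succ (m : ℕ) (g : List (Fin 3) → ENNReal) : SL (m + 1) g = ∑ a : Fin 3, SL m (fun l => g (a :: l)) := rfl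

theorem SL_snoc (m : ℕ) : ∀ g : List (Fin 3) → ENNReal, SL (m + 1) g = ∑ a : Fin 3, SL m (fun l => g (l ++ [a])) := by
  induction m with
  | zero => intro g; rfl
  | succ m ih =>
    intro g
    rw [SL_succ]
    have h1 : ∀ a : Fin 3, SL (m + 1) (fun l => g (a :: l)) = ∑ b : Fin 3, SL m (fun l => g (a :: (l ++ [b]))) :=
      fun a => ih _
    simp only [h1]
    rw [Finset.sum_comm]
    refine Finset.sum_congr rfl fun b _ => ?_
    rfl

theorem SL_sum (m : ℕ) : ∀ g : Fin 3 → List (Fin 3) → ENNReal, SL m (fun l => ∑ a, g a l) = ∑ a, SL m (g a) := by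
  induction m with
  | zero => intro g; rfl
  | succ m ih =>
    intro g
    simp only [SL_succ, ih]
    exact Finset.sum_comm

theorem SL_mul (m : ℕ) (c : ENNReal) : ∀ g : List (Fin 3) → ENNReal, SL m (fun l => c * g l) = c * SL m g := by
  induction m with
  | zero => intro g; rfl
  | succ m ih =>
    intro g
    simp only [SL_succ, ih, Finset.mul_sum]

theorem SL_mono (m : ℕ) : ∀ {g g' : List (Fin 3) → ENNReal}, (∀ l, l.length = m → g l ≤ g' l) → SL m g ≤ SL m g' := by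
  induction m with
  | zero => intro g g' h; exact h [] rfl
  | succ m ih =>
    intro g g' h
    simp only [SL_succ]
    refine Finset.sum_le_sum fun a _ => ih fun l hl => h _ (by rw [List.length_cons, hl])

/-- product of the weights -/
def pb (bb : Fin 3 → ℝ) : List (Fin 3) → ENNReal
  | [] => 1
  | a :: l => ENNReal.ofReal (bb a) * pb bb l

theorem pb_nil (bb : Fin 3 → ℝ) : pb bb [] = 1 := rfl
theorem pb_cons (bb : Fin 3 → ℝ) (a : Fin 3) (l : List (Fin 3)) : pb bb (a :: l) = ENNReal.ofReal (bb a) * pb bb l := rfl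

theorem pb_snoc (bb : Fin 3 → ℝ) (a : Fin 3) (l : List (Fin 3)) : pb bb (l ++ [a]) = pb bb l * ENNReal.ofReal (bb a) := by
  induction l with
  | nil => simp [pb_cons, pb_nil]
  | cons b l ih => rw [List.cons_append, pb_cons, pb_cons, ih, mul_assoc]

theorem SL_pb {bb : Fin 3 → ℝ} (hb : ∀ c, 0 ≤ bb c) (hs : ∑ c, bb c ≤ 1) (m : ℕ) : SL m (pb bb) ≤ 1 := by
  induction m with
  | zero => exact le_refl _
  | succ m ih =>
    rw [SL_succ]
    have h1 : ∀ a : Fin 3, SL m (fun l => pb bb (a :: l)) = ENNReal.ofReal (bb a) * SL m (pb bb) := fun a => by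
      rw [← SL_mul]; rfl
    simp only [h1]
    rw [← Finset.sum_mul]
    have h2 : ∑ a : Fin 3, ENNReal.ofReal (bb a) ≤ 1 := by
      rw [← ENNReal.ofReal_sum_of_nonneg fun a _ => hb a, ← ENNReal.ofReal_one]
      exact ENNReal.ofReal_le_ofReal hs
    calc (∑ a : Fin 3, ENNReal.ofReal (bb a)) * SL m (pb bb) ≤ 1 * 1 := mul_le_mul' h2 ih
      _ = 1 := one_mul _

/-- the iterates of the operator in the normalised variable -/
def FF (d : ℝ) (χ : ℝ → ℝ) (n : ℕ) : ℝ → ℝ := (TT d)^[n] χ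

theorem FF_succ (d : ℝ) (χ : ℝ → ℝ) (n : ℕ) : FF d χ (n + 1) = TT d (FF d χ n) :=
  Function.iterate_succ_apply' _ _ _

theorem FF_nonneg {d : ℝ} {χ : ℝ → ℝ} (h : ∀ x, 0 ≤ χ x) (n : ℕ) : ∀ x, 0 ≤ FF d χ n x := by
  induction n with
  | zero => exact h
  | succ n ih => intro x; rw [FF_succ]; exact TT_nonneg ih x

theorem FF_meas {d : ℝ} {χ : ℝ → ℝ} (h : Measurable χ) (n : ℕ) : Measurable (FF d χ n) := by
  induction n with
  | zero => exact h
  | succ n ih => rw [FF_succ]; exact TT_meas ih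

/-- the averages over the queue -/
def AQ (u d : ℝ) (χ : ℝ → ℝ) (n : ℕ) (Q : List (Fin 3)) : ℝ → ℝ := av (u / 4) Q (FF d χ n)

theorem AQ_nonneg {u d : ℝ} {χ : ℝ → ℝ} (h : ∀ x, 0 ≤ χ x) (n : ℕ) (Q : List (Fin 3)) (x : ℝ) :
    0 ≤ AQ u d χ n Q x := av_nonneg Q (FF_nonneg h n) _ _

theorem AQ_meas {u d : ℝ} {χ : ℝ → ℝ} (h : Measurable χ) (n : ℕ) (Q : List (Fin 3)) :
    Measurable (AQ u d χ n Q) := av_meas Q (FF_meas h n) _

theorem AQ_succ {u d : ℝ} (χ : ℝ → ℝ) (n : ℕ) (q : Fin 3) (l : List (Fin 3)) (hd : d = u / 4 ^ (l.length + 1)) :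
    AQ u d χ (n + 1) (q :: l) =
      fun X => ∑ k : Fin 5, W k * ∑ e : Fin 3, pd q e * (fun k0 => AQ u d χ n (l ++ [k0])) (cl k) (4 * X - sv k - u * dl q e) := by
  funext X
  unfold AQ
  rw [FF_succ]
  exact av_TT u q l d hd _ X

theorem AQ_succ2 {u d : ℝ} (χ : ℝ → ℝ) (n : ℕ) (l : List (Fin 3)) (hd : d = u / 4 ^ (l.length + 1)) :
    AQ u d χ (n + 1) (2 :: l) =
      fun X => ∑ k : Fin 5, W k * (fun k0 => AQ u d χ n (l ++ [k0])) (cl k) (4 * X - sv k) := by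
  rw [AQ_succ χ n 2 l hd]
  funext X
  refine Finset.sum_congr rfl fun k _ => ?_
  rw [Fin.sum_univ_three, pd20, pd21, pd22, dl21, mul_zero, sub_zero]
  ring

section
variable {u d c0 C0 G GA : ℝ} {h : Fin 3 → ℝ → ℝ} {V : Fin 3 → Fin 3 → ℝ → ℝ} {hA : ℝ → ℝ}
variable {VA : Fin 3 → ℝ → ℝ} {bb : Fin 3 → ℝ} {χ : ℝ → ℝ}

/-- the functional of the full queue, length `m + 2` -/
def PB (u d : ℝ) (χ : ℝ → ℝ) (V : Fin 3 → Fin 3 → ℝ → ℝ) (bb : Fin 3 → ℝ) (m n : ℕ) : ENNReal :=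
  ∑ Q1 : Fin 3, SL m (fun l => ∑ c : Fin 3, ENNReal.ofReal (bb Q1) * pb bb l * II (V Q1 c) (AQ u d χ n (Q1 :: (l ++ [c]))))

theorem PB_step (hc : Co u c0 C0 G GA h V hA VA bb) (hG : 0 ≤ G) (hb : ∀ c, 0 ≤ bb c) (χ0 : ∀ x, 0 ≤ χ x)
    (mχ : Measurable χ) (m n : ℕ) (hd : d = u / 4 ^ (m + 3)) :
    PB u d χ V bb (m + 1) (n + 1) ≤ ENNReal.ofReal G * PB u d χ V bb (m + 1) n := by
  -- left side
  have h1 : PB u d χ V bb (m + 1) (n + 1) = SL (m + 1) (fun l => ∑ c : Fin 3, pb bb l *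
      ∑ Q1 : Fin 3, ENNReal.ofReal (bb Q1) * II (V Q1 c) (AQ u d χ (n + 1) (Q1 :: (l ++ [c])))) := by
    unfold PB
    rw [← SL_sum]
    congr 1
    funext l
    rw [Finset.sum_comm]
    refine Finset.sum_congr rfl fun c _ => ?_
    rw [Finset.mul_sum]
    refine Finset.sum_congr rfl fun Q1 _ => ?_
    ring
  rw [h1]
  -- the bound, with the head of `l`
  have h2 : SL (m + 1) (fun l => ∑ c : Fin 3, pb bb l *
      ∑ Q1 : Fin 3, ENNReal.ofReal (bb Q1) * II (V Q1 c) (AQ u d χ (n + 1) (Q1 :: (l ++ [c])))) ≤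
      ∑ Q2 : Fin 3, SL m (fun l => ∑ c : Fin 3, pb bb (Q2 :: l) * (ENNReal.ofReal (G * bb c) *
        ∑ k0 : Fin 3, II (V Q2 k0) (AQ u d χ n ((Q2 :: (l ++ [c])) ++ [k0])))) := by
    rw [SL_succ]
    refine Finset.sum_le_sum fun Q2 _ => SL_mono m fun l hl => Finset.sum_le_sum fun c _ => ?_
    refine mul_le_mul_right ?_ _
    have h3 := stepB hc hG hb Q2 c (B := fun k0 => AQ u d χ n ((Q2 :: (l ++ [c])) ++ [k0]))
      (fun k y => AQ_nonneg χ0 n _ y) (fun k => AQ_meas mχ n _)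
    have h4 : ∀ Q1 : Fin 3, AQ u d χ (n + 1) (Q1 :: ((Q2 :: l) ++ [c])) =
        fun x => ∑ k : Fin 5, W k * ∑ e : Fin 3, pd Q1 e *
          (fun k0 => AQ u d χ n ((Q2 :: (l ++ [c])) ++ [k0])) (cl k) (4 * x - sv k - u * dl Q1 e) := fun Q1 =>
      AQ_succ χ n Q1 (Q2 :: (l ++ [c])) (by rw [hd]; simp [hl])
    simp only [h4]
    exact h3
  refine h2.trans (le_of_eq ?_)
  -- regroup
  unfold PB
  rw [Finset.mul_sum]
  refine Finset.sum_congr rfl fun Q2 _ => ?_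
  rw [SL_snoc, ← SL_sum, ← SL_mul]
  congr 1
  funext l
  rw [Finset.mul_sum]
  refine Finset.sum_congr rfl fun c _ => ?_
  rw [Finset.mul_sum, Finset.mul_sum, Finset.mul_sum]
  refine Finset.sum_congr rfl fun k0 _ => ?_
  rw [pb_cons, pb_snoc, ENNReal.ofReal_mul hG]
  have e : (Q2 :: (l ++ [c])) ++ [k0] = Q2 :: ((l ++ [c]) ++ [k0]) := rfl
  rw [e]
  ring

theorem PB_step0 (hc : Co u c0 C0 G GA h V hA VA bb) (hG : 0 ≤ G) (hb : ∀ c, 0 ≤ bb c) (χ0 : ∀ x, 0 ≤ χ x)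
    (mχ : Measurable χ) (n : ℕ) (hd : d = u / 4 ^ 2) :
    PB u d χ V bb 0 (n + 1) ≤ ENNReal.ofReal G * PB u d χ V bb 0 n := by
  have h1 : PB u d χ V bb 0 (n + 1) = ∑ c : Fin 3,
      ∑ Q1 : Fin 3, ENNReal.ofReal (bb Q1) * II (V Q1 c) (AQ u d χ (n + 1) (Q1 :: [c])) := by
    unfold PB
    simp only [SL_zero, pb_nil, mul_one, List.nil_append]
    exact Finset.sum_comm
  have h0 : PB u d χ V bb 0 n = ∑ c : Fin 3,
      ENNReal.ofReal (bb c) * ∑ k0 : Fin 3, II (V c k0) (AQ u d χ n ([c] ++ [k0])) := by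
    unfold PB
    simp only [SL_zero, pb_nil, mul_one, List.nil_append, Finset.mul_sum]
    rfl
  rw [h1, h0, Finset.mul_sum]
  refine Finset.sum_le_sum fun c _ => ?_
  have h3 := stepB hc hG hb c c (B := fun k0 => AQ u d χ n ([c] ++ [k0]))
    (fun k y => AQ_nonneg χ0 n _ y) (fun k => AQ_meas mχ n _)
  have h4 : ∀ Q1 : Fin 3, AQ u d χ (n + 1) (Q1 :: [c]) =
      fun x => ∑ k : Fin 5, W k * ∑ e : Fin 3, pd Q1 e *
        (fun k0 => AQ u d χ n ([c] ++ [k0])) (cl k) (4 * x - sv k - u * dl Q1 e) := fun Q1 =>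
    AQ_succ χ n Q1 [c] (by rw [hd]; rfl)
  simp only [h4]
  refine h3.trans (le_of_eq ?_)
  rw [ENNReal.ofReal_mul hG, mul_assoc]

theorem PB_step' (hc : Co u c0 C0 G GA h V hA VA bb) (hG : 0 ≤ G) (hb : ∀ c, 0 ≤ bb c) (χ0 : ∀ x, 0 ≤ χ x)
    (mχ : Measurable χ) (m n : ℕ) (hd : d = u / 4 ^ (m + 2)) :
    PB u d χ V bb m (n + 1) ≤ ENNReal.ofReal G * PB u d χ V bb m n := by
  rcases m with _ | m
  · exact PB_step0 hc hG hb χ0 mχ n hd
  · exact PB_step hc hG hb χ0 mχ m n hd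

/-- the functional of the filling phase, `i + 1` classes pushed, `s` initial ones left -/
def PA (u d : ℝ) (χ : ℝ → ℝ) (VA : Fin 3 → ℝ → ℝ) (bb : Fin 3 → ℝ) (i s n : ℕ) : ENNReal :=
  SL i (fun l => ∑ c : Fin 3, pb bb l * II (VA c) (AQ u d χ n (List.replicate s 2 ++ (l ++ [c]))))

theorem PA_step (hc : Co u c0 C0 G GA h V hA VA bb) (hG : 0 ≤ GA) (hb : ∀ c, 0 ≤ bb c) (χ0 : ∀ x, 0 ≤ χ x)
    (mχ : Measurable χ) (i s n : ℕ) (hd : d = u / 4 ^ (i + s + 2)) :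
    PA u d χ VA bb i (s + 1) (n + 1) ≤ ENNReal.ofReal GA * PA u d χ VA bb (i + 1) s n := by
  have h2 : PA u d χ VA bb i (s + 1) (n + 1) ≤
      SL i (fun l => ∑ c : Fin 3, pb bb l * (ENNReal.ofReal (GA * bb c) *
        ∑ k0 : Fin 3, II (VA k0) (AQ u d χ n ((List.replicate s 2 ++ (l ++ [c])) ++ [k0])))) := by
    unfold PA
    refine SL_mono i fun l hl => Finset.sum_le_sum fun c _ => ?_
    refine mul_le_mul_right ?_ _
    have h3 := stepA hc hG hb c (B := fun k0 => AQ u d χ n ((List.replicate s 2 ++ (l ++ [c])) ++ [k0]))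
      (fun k y => AQ_nonneg χ0 n _ y) (fun k => AQ_meas mχ n _)
    have h4 : AQ u d χ (n + 1) (List.replicate (s + 1) 2 ++ (l ++ [c])) =
        fun x => ∑ k : Fin 5, W k *
          (fun k0 => AQ u d χ n ((List.replicate s 2 ++ (l ++ [c])) ++ [k0])) (cl k) (4 * x - sv k) := by
      have e1 : List.replicate (s + 1) (2 : Fin 3) ++ (l ++ [c]) = 2 :: (List.replicate s 2 ++ (l ++ [c])) := by
        rw [List.replicate_succ, List.cons_append]
      rw [e1]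
      exact AQ_succ2 χ n _ (by
        rw [hd]
        have : (List.replicate s (2 : Fin 3) ++ (l ++ [c])).length + 1 = i + s + 2 := by
          simp [hl]; omega
        rw [this])
    rw [h4]
    exact h3
  refine h2.trans (le_of_eq ?_)
  unfold PA
  rw [SL_snoc, ← SL_sum, ← SL_mul]
  congr 1
  funext l
  rw [Finset.mul_sum]
  refine Finset.sum_congr rfl fun c _ => ?_
  rw [Finset.mul_sum, Finset.mul_sum, Finset.mul_sum]
  refine Finset.sum_congr rfl fun k0 _ => ?_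
  rw [pb_snoc, ENNReal.ofReal_mul hG]
  have e : (List.replicate s 2 ++ (l ++ [c])) ++ [k0] = List.replicate s 2 ++ ((l ++ [c]) ++ [k0]) :=
    List.append_assoc _ _ _
  rw [e]
  ring

theorem PA_start (hc : Co u c0 C0 G GA h V hA VA bb) (hG : 0 ≤ GA) (hb : ∀ c, 0 ≤ bb c) (hb1 : ∀ c, bb c ≤ 1)
    (χ0 : ∀ x, 0 ≤ χ x) (mχ : Measurable χ) (s n : ℕ) (hd : d = u / 4 ^ (s + 1)) :
    II (VA 2) (AQ u d χ (n + 1) (List.replicate (s + 1) 2)) ≤ ENNReal.ofReal GA * PA u d χ VA bb 0 s n := by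
  have h3 := stepA hc hG hb 2 (B := fun k0 => AQ u d χ n (List.replicate s 2 ++ [k0]))
    (fun k y => AQ_nonneg χ0 n _ y) (fun k => AQ_meas mχ n _)
  have h4 : AQ u d χ (n + 1) (List.replicate (s + 1) 2) =
      fun x => ∑ k : Fin 5, W k *
        (fun k0 => AQ u d χ n (List.replicate s 2 ++ [k0])) (cl k) (4 * x - sv k) := by
    rw [List.replicate_succ]
    exact AQ_succ2 χ n _ (by rw [hd, List.length_replicate])
  rw [h4]
  refine h3.trans ?_
  have h5 : PA u d χ VA bb 0 s n = ∑ k0 : Fin 3, II (VA k0) (AQ u d χ n (List.replicate s 2 ++ [k0])) := by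
    unfold PA
    rw [SL_zero]
    refine Finset.sum_congr rfl fun c _ => ?_
    rw [pb_nil, one_mul, List.nil_append]
  rw [h5]
  refine mul_le_mul_left (ENNReal.ofReal_le_ofReal ?_) _
  calc GA * bb 2 ≤ GA * 1 := mul_le_mul_of_nonneg_left (hb1 2) hG
    _ = GA := mul_one _

/-- from the filling phase to the full queue -/
theorem PA_end (hc : Co u c0 C0 G GA h V hA VA bb) (hC : 0 ≤ C0) (mχ : Measurable χ) (m n : ℕ) :
    PA u d χ VA bb (m + 1) 0 n ≤ ENNReal.ofReal C0 * PB u d χ V bb m n := by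
  unfold PA PB
  rw [SL_succ, Finset.mul_sum]
  refine Finset.sum_le_sum fun Q1 _ => ?_
  rw [← SL_mul]
  refine SL_mono m fun l _ => ?_
  rw [Finset.mul_sum]
  refine Finset.sum_le_sum fun c _ => ?_
  have h1 := II_dom (V := V Q1 c) (V' := VA c) (B := AQ u d χ n (Q1 :: (l ++ [c]))) (C := C0)
    (hc.mV Q1 c) (AQ_meas mχ n _) hC (hc.dom Q1 c)
  have e : List.replicate 0 (2 : Fin 3) ++ ((Q1 :: l) ++ [c]) = Q1 :: (l ++ [c]) := rfl
  rw [e, pb_cons]
  calc ENNReal.ofReal (bb Q1) * pb bb l * II (VA c) (AQ u d χ n (Q1 :: (l ++ [c])))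
      ≤ ENNReal.ofReal (bb Q1) * pb bb l * (ENNReal.ofReal C0 * II (V Q1 c) (AQ u d χ n (Q1 :: (l ++ [c])))) :=
        mul_le_mul_right h1 _
    _ = _ := by ring

/-- bound of the functionals from a bound of the integrals -/
theorem PB_le {K : ENNReal} (hb : ∀ c, 0 ≤ bb c) (hs : ∑ c, bb c ≤ 1) (m n : ℕ)
    (hK : ∀ (Q1 c : Fin 3) (l : List (Fin 3)), l.length = m → II (V Q1 c) (AQ u d χ n (Q1 :: (l ++ [c]))) ≤ K) :
    PB u d χ V bb m n ≤ 3 * K := by
  have h1 : PB u d χ V bb m n ≤ ∑ Q1 : Fin 3, SL m (fun l => (3 * K) * pb bb (Q1 :: l)) := by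
    unfold PB
    refine Finset.sum_le_sum fun Q1 _ => SL_mono m fun l hl => ?_
    calc ∑ c : Fin 3, ENNReal.ofReal (bb Q1) * pb bb l * II (V Q1 c) (AQ u d χ n (Q1 :: (l ++ [c])))
        ≤ ∑ c : Fin 3, ENNReal.ofReal (bb Q1) * pb bb l * K :=
          Finset.sum_le_sum fun c _ => mul_le_mul_right (hK Q1 c l hl) _
      _ = (3 * K) * pb bb (Q1 :: l) := by
          rw [Finset.sum_const, Finset.card_univ, Fintype.card_fin, pb_cons, nsmul_eq_mul]
          push_cast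
          ring
  refine h1.trans ?_
  rw [← SL_succ m (fun l => (3 * K) * pb bb l), SL_mul]
  calc 3 * K * SL (m + 1) (pb bb) ≤ 3 * K * 1 := mul_le_mul_right (SL_pb hb hs _) _
    _ = 3 * K := mul_one _

theorem PA_le {K : ENNReal} (hb : ∀ c, 0 ≤ bb c) (hs : ∑ c, bb c ≤ 1) (i s n : ℕ)
    (hK : ∀ (c : Fin 3) (l : List (Fin 3)), l.length = i →
      II (VA c) (AQ u d χ n (List.replicate s 2 ++ (l ++ [c]))) ≤ K) :
    PA u d χ VA bb i s n ≤ 3 * K := by
  have h1 : PA u d χ VA bb i s n ≤ SL i (fun l => (3 * K) * pb bb l) := by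
    unfold PA
    refine SL_mono i fun l hl => ?_
    calc ∑ c : Fin 3, pb bb l * II (VA c) (AQ u d χ n (List.replicate s 2 ++ (l ++ [c])))
        ≤ ∑ c : Fin 3, pb bb l * K :=
          Finset.sum_le_sum fun c _ => mul_le_mul_right (hK c l hl) _
      _ = (3 * K) * pb bb l := by
          rw [Finset.sum_const, Finset.card_univ, Fintype.card_fin, nsmul_eq_mul]
          push_cast
          ring
  refine h1.trans ?_
  rw [SL_mul]
  calc 3 * K * SL i (pb bb) ≤ 3 * K * 1 := mul_le_mul_right (SL_pb hb hs _) _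
    _ = 3 * K := mul_one _

end

end

end Pool.Agent.FCQ.C
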