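import Pool.Agent.FCQ.C.G3

/-!
# The delayed chain: growth in the normalised variable
-/

set_option autoImplicit false

namespace Pool.Agent.FCQ.C

open MeasureTheory Set

noncomputable section

theorem av_rep (s : ℕ) (F : ℝ → ℝ) : ∀ (c X : ℝ), av c (List.replicate s 2) F X = F X := by
  induction s with
  | zero => intro c X; rfl
  | succ s ih =>
    intro c X
    rw [List.replicate_succ, av_cons, Fin.sum_univ_three, pd20, pd21, pd22, dl21, mul_zero, sub_zero]
    simp only [ih]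
    ring

theorem FF1_lower {d : ℝ} (hd0 : 0 ≤ d) (hd : d ≤ 1/64) {χ : ℝ → ℝ} (χ0 : ∀ x, 0 ≤ χ x)
    (χ1 : ∀ x, |x| ≤ 167/100 → 1 ≤ χ x) {X : ℝ} (hX : |X| ≤ 61/32) : 1/4 ≤ FF d χ 1 X := by
  rw [show (1:ℕ) = 0 + 1 from rfl, FF_succ]
  exact TT_lower hd0 χ0 (R := 167/100) (by linarith) (by linarith) (by linarith) χ1

theorem FF2_lower {d : ℝ} (hd0 : 0 ≤ d) (hd : d ≤ 1/64) {χ : ℝ → ℝ} (χ0 : ∀ x, 0 ≤ χ x)
    (χ1 : ∀ x, |x| ≤ 167/100 → 1 ≤ χ x) {X : ℝ} (hX : |X| ≤ 253/128) : 1/16 ≤ FF d χ 2 X := by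
  rw [show (2:ℕ) = 1 + 1 from rfl, FF_succ]
  have h := TT_lower hd0 (FF_nonneg χ0 1) (R := 61/32) (m := 1/4) hX (by linarith) (by linarith)
    (fun x hx => FF1_lower hd0 hd χ0 χ1 hx)
  linarith

theorem AQ2_lower {u d : ℝ} (hu0 : 0 ≤ u) (hu : u ≤ 1/4) (hd0 : 0 ≤ d) (hd : d ≤ 1/64) {χ : ℝ → ℝ}
    (χ0 : ∀ x, 0 ≤ χ x) (χ1 : ∀ x, |x| ≤ 167/100 → 1 ≤ χ x) (Q : List (Fin 3)) (hQ : 2 ≤ Q.length)
    {X : ℝ} (hX : |X| ≤ 63/32) : 1/128 ≤ AQ u d χ 2 Q X := by
  match Q, hQ with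
  | [q1, q2], _ =>
    have hF0 := FF_nonneg (d := d) χ0 2
    have h : 1/16/2/2 ≤ av (u / 4) [q1, q2] (FF d χ 2) X := by
      apply av_pick q1 _ hF0 (by norm_num)
      intro e1 h1
      apply av_pick q2 _ hF0 (by norm_num)
      intro e2 h2
      have g1 : |X - u / 4 * dl q1 e1| ≤ 63/32 := shift_bd (by positivity) hX (by linarith) h1
      have g2 : |X - u / 4 * dl q1 e1 - u / 4 / 4 * dl q2 e2| ≤ 63/32 := shift_bd (by positivity) g1 (by linarith) h2
      exact FF2_lower hd0 hd χ0 χ1 (by linarith)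
    unfold AQ
    linarith
  | q1 :: q2 :: q3 :: l, _ =>
    have h := av_lower hu0 hu (FF_nonneg (d := d) χ0 2) (m := 1/16) (by norm_num)
      (fun x hx => FF2_lower hd0 hd χ0 χ1 hx) q1 q2 q3 l hX
    unfold AQ
    linarith

theorem II_base {V B : ℝ → ℝ} {C0 : ℝ} (hC0 : 0 ≤ C0) (VC : ∀ x, V x ≤ C0)
    (sup : ∀ x, V x ≠ 0 → |x| ≤ 63/32) (hB : ∀ x, |x| ≤ 63/32 → 1/128 ≤ B x) :
    II V B ≤ ENNReal.ofReal (65536 * C0) := by
  have h1 : II V B ≤ ∫⁻ x in Icc (-2 : ℝ) 2, ENNReal.ofReal (C0 * 128 ^ 2) := by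
    rw [← lintegral_indicator measurableSet_Icc]
    refine lintegral_mono fun x => ?_
    by_cases hV : V x = 0
    · show ENNReal.ofReal (V x) * _ ≤ _
      rw [hV, ENNReal.ofReal_zero, zero_mul]
      exact zero_le
    · have h2 := sup x hV
      have h3 := hB x h2
      have h4 : x ∈ Icc (-2 : ℝ) 2 := by
        rw [mem_Icc]
        rw [abs_le] at h2
        constructor <;> linarith
      rw [indicator_of_mem h4]
      show ENNReal.ofReal (V x) * (ENNReal.ofReal (B x))⁻¹ ^ 2 ≤ _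
      rw [ENNReal.ofReal_mul hC0]
      exact mul_le_mul' (ENNReal.ofReal_le_ofReal (VC x)) (GMID.inv_sq_le (by norm_num) h3)
  refine h1.trans ?_
  rw [lintegral_const, Measure.restrict_apply MeasurableSet.univ, univ_inter, Real.volume_Icc,
    ← ENNReal.ofReal_mul (by positivity)]
  apply ENNReal.ofReal_le_ofReal
  linarith

section
variable {u d c0 C0 G GA : ℝ} {h : Fin 3 → ℝ → ℝ} {V : Fin 3 → Fin 3 → ℝ → ℝ} {hA : ℝ → ℝ}
variable {VA : Fin 3 → ℝ → ℝ} {bb : Fin 3 → ℝ} {χ : ℝ → ℝ}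

theorem PB_iter (hc : Co u c0 C0 G GA h V hA VA bb) (hG : 0 ≤ G) (hb : ∀ c, 0 ≤ bb c) (χ0 : ∀ x, 0 ≤ χ x)
    (mχ : Measurable χ) (m n : ℕ) (hd : d = u / 4 ^ (m + 2)) (k : ℕ) :
    PB u d χ V bb m (n + k) ≤ ENNReal.ofReal (G ^ k) * PB u d χ V bb m n := by
  induction k with
  | zero => rw [pow_zero, ENNReal.ofReal_one, one_mul, add_zero]
  | succ k ih =>
    have h1 := PB_step' hc hG hb χ0 mχ m (n + k) hd
    refine h1.trans ((mul_le_mul_right ih _).trans (le_of_eq ?_))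
    rw [← mul_assoc, ← ENNReal.ofReal_mul hG, pow_succ']

theorem PA_iter (hc : Co u c0 C0 G GA h V hA VA bb) (hG : 0 ≤ GA) (hb : ∀ c, 0 ≤ bb c) (χ0 : ∀ x, 0 ≤ χ x)
    (mχ : Measurable χ) (k : ℕ) : ∀ (i s n : ℕ), d = u / 4 ^ (i + s + k + 1) →
    PA u d χ VA bb i (s + k) (n + k) ≤ ENNReal.ofReal (GA ^ k) * PA u d χ VA bb (i + k) s n := by
  induction k with
  | zero => intro i s n _; rw [pow_zero, ENNReal.ofReal_one, one_mul, add_zero, add_zero, add_zero]
  | succ k ih =>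
    intro i s n hd
    have hd1 : d = u / 4 ^ (i + (s + k) + 2) := by rw [hd]; congr 2; omega
    have h1 := PA_step hc hG hb χ0 mχ i (s + k) (n + k) hd1
    have h2 := ih (i + 1) s n (by rw [hd]; congr 2; omega)
    have e : i + 1 + k = i + (k + 1) := by omega
    rw [e] at h2
    refine h1.trans ((mul_le_mul_right h2 _).trans (le_of_eq ?_))
    rw [← mul_assoc, ← ENNReal.ofReal_mul hG, pow_succ']

/-- the growth of the first functional -/
theorem II_growth (hc : Co u c0 C0 G GA h V hA VA bb) (hG : 1 ≤ G) (hGA : G ≤ GA) (hC0 : 0 ≤ C0)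
    (hb : ∀ c, 0 ≤ bb c) (hb1 : ∀ c, bb c ≤ 1)
    (χ0 : ∀ x, 0 ≤ χ x) (χ1 : ∀ x, |x| ≤ 167/100 → 1 ≤ χ x)
    (mχ : Measurable χ) (m : ℕ) (hu0 : 0 ≤ u) (hu : u ≤ 1/4) (hd : d = u / 4 ^ (m + 2)) (n : ℕ) :
    II (VA 2) (FF d χ (n + 2)) ≤ ENNReal.ofReal (196608 * (C0 + C0 ^ 2) * ((GA / G) ^ (m + 2) * G ^ n)) := by
  have hGA0 : 0 ≤ GA := by linarith
  have hG0 : 0 ≤ G := by linarith
  have hGp : 0 < G := by linarith
  have hq1 : 1 ≤ GA / G := by rw [le_div_iff₀ hGp]; linarith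
  have hd0 : 0 ≤ d := by rw [hd]; positivity
  have hd1 : d ≤ 1/64 := by
    rw [hd, div_le_iff₀ (by positivity)]
    have h1 : (16:ℝ) ≤ 4 ^ (m + 2) := by
      rw [pow_add]
      have : (1:ℝ) ≤ 4 ^ m := one_le_pow₀ (by norm_num)
      nlinarith
    linarith
  -- the start
  have hrep : ∀ n, AQ u d χ n (List.replicate (m + 2) 2) = FF d χ n := fun n => by
    funext X; exact av_rep _ _ _ _
  have baseV : ∀ (Q1 c : Fin 3) (l : List (Fin 3)), l.length = m →
      II (V Q1 c) (AQ u d χ 2 (Q1 :: (l ++ [c]))) ≤ ENNReal.ofReal (65536 * C0) := fun Q1 c l hl =>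
    II_base hC0 (hc.VC Q1 c) (hc.sup Q1 c) fun x hx =>
      AQ2_lower hu0 hu hd0 hd1 χ0 χ1 _ (by simp) hx
  have baseA : ∀ (i s : ℕ), i + s = m + 1 → ∀ (c : Fin 3) (l : List (Fin 3)), l.length = i →
      II (VA c) (AQ u d χ 2 (List.replicate s 2 ++ (l ++ [c]))) ≤ ENNReal.ofReal (65536 * C0) := fun i s his c l hl =>
    II_base hC0 (hc.VAC c) (hc.supA c) fun x hx =>
      AQ2_lower hu0 hu hd0 hd1 χ0 χ1 _ (by simp [hl]; omega) hx
  have e3 : (3 : ENNReal) * ENNReal.ofReal (65536 * C0) = ENNReal.ofReal (196608 * C0) := by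
    have : (3 : ENNReal) = ENNReal.ofReal 3 := by norm_num
    rw [this, ← ENNReal.ofReal_mul (by norm_num)]
    congr 1; ring
  rw [← hrep (n + 2)]
  rcases Nat.eq_zero_or_pos n with hn | hn
  · subst hn
    have h1 : II (VA 2) (AQ u d χ (0 + 2) (List.replicate (m + 2) 2)) ≤ ENNReal.ofReal (65536 * C0) :=
      II_base hC0 (hc.VAC 2) (hc.supA 2) fun x hx => AQ2_lower hu0 hu hd0 hd1 χ0 χ1 _ (by simp) hx
    refine h1.trans (ENNReal.ofReal_le_ofReal ?_)
    have h2 : 1 ≤ (GA / G) ^ (m + 2) := one_le_pow₀ hq1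
    rw [pow_zero, mul_one]
    nlinarith [sq_nonneg C0]
  · have hds : d = u / 4 ^ (m + 1 + 1) := hd
    have h1 := PA_start hc hGA0 hb hb1 χ0 mχ (m + 1) (n + 1) hds
    have e1 : n + 1 + 1 = n + 2 := rfl
    have e2 : m + 1 + 1 = m + 2 := rfl
    rw [e1, e2] at h1
    refine h1.trans ?_
    rcases Nat.lt_or_ge (m + 2) n with hnj | hnj
    · -- long: fill the queue, then the full chain
      have hd2 : d = u / 4 ^ (0 + 0 + (m + 1) + 1) := by rw [hd]; congr 2; omega
      have h2 := PA_iter hc hGA0 hb χ0 mχ (m + 1) 0 0 (n + 1 - (m + 1)) hd2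
      have e4 : n + 1 - (m + 1) + (m + 1) = n + 1 := by omega
      rw [e4, Nat.zero_add] at h2
      have h3 := PA_end (u := u) (d := d) (bb := bb) (χ := χ) hc hC0 mχ m (n + 1 - (m + 1))
      have h4 := PB_iter hc hG0 hb χ0 mχ m 2 hd (n + 1 - (m + 1) - 2)
      have e5 : 2 + (n + 1 - (m + 1) - 2) = n + 1 - (m + 1) := by omega
      rw [e5] at h4
      have h5 := PB_le (u := u) (d := d) (χ := χ) (V := V) (bb := bb) hb hc.bs m 2 baseV
      rw [e3] at h5
      calc ENNReal.ofReal GA * PA u d χ VA bb 0 (m + 1) (n + 1)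
          ≤ ENNReal.ofReal GA * (ENNReal.ofReal (GA ^ (m + 1)) * (ENNReal.ofReal C0 *
              (ENNReal.ofReal (G ^ (n + 1 - (m + 1) - 2)) * ENNReal.ofReal (196608 * C0)))) := by
            refine mul_le_mul_right (h2.trans (mul_le_mul_right ?_ _)) _
            refine h3.trans (mul_le_mul_right (h4.trans (mul_le_mul_right h5 _)) _)
        _ = ENNReal.ofReal (GA * (GA ^ (m + 1) * (C0 * (G ^ (n + 1 - (m + 1) - 2) * (196608 * C0))))) := by
            rw [← ENNReal.ofReal_mul (by positivity), ← ENNReal.ofReal_mul hC0, ← ENNReal.ofReal_mul (by positivity),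
              ← ENNReal.ofReal_mul hGA0]
        _ ≤ _ := by
            apply ENNReal.ofReal_le_ofReal
            have e7 : n + 1 - (m + 1) - 2 = n - (m + 2) := by omega
            rw [e7]
            have e8 : GA * (GA ^ (m + 1) * (C0 * (G ^ (n - (m + 2)) * (196608 * C0))))
                = 196608 * C0 ^ 2 * (GA ^ (m + 2) * G ^ (n - (m + 2))) := by
              rw [pow_succ GA (m + 1)]; ring
            have e9 : GA ^ (m + 2) * G ^ (n - (m + 2)) = (GA / G) ^ (m + 2) * G ^ n := by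
              have : G ^ n = G ^ (m + 2) * G ^ (n - (m + 2)) := by
                rw [← pow_add]; congr 1; omega
              rw [this, div_pow]
              field_simp
            rw [e8, e9]
            have h9 : 0 ≤ (GA / G) ^ (m + 2) * G ^ n := by positivity
            nlinarith
    · -- short: only the filling phase
      have hd2 : d = u / 4 ^ (0 + (m + 2 - n) + (n - 1) + 1) := by rw [hd]; congr 2; omega
      have h2 := PA_iter hc hGA0 hb χ0 mχ (n - 1) 0 (m + 2 - n) 2 hd2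
      have e4 : 2 + (n - 1) = n + 1 := by omega
      have e5 : m + 2 - n + (n - 1) = m + 1 := by omega
      rw [e4, e5, Nat.zero_add] at h2
      have h5 := PA_le (u := u) (d := d) (χ := χ) (VA := VA) (bb := bb) hb hc.bs (n - 1) (m + 2 - n) 2
        (baseA (n - 1) (m + 2 - n) (by omega))
      rw [e3] at h5
      calc ENNReal.ofReal GA * PA u d χ VA bb 0 (m + 1) (n + 1)
          ≤ ENNReal.ofReal GA * (ENNReal.ofReal (GA ^ (n - 1)) * ENNReal.ofReal (196608 * C0)) :=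
            mul_le_mul_right (h2.trans (mul_le_mul_right h5 _)) _
        _ = ENNReal.ofReal (GA * (GA ^ (n - 1) * (196608 * C0))) := by
            rw [← ENNReal.ofReal_mul (by positivity), ← ENNReal.ofReal_mul hGA0]
        _ ≤ _ := by
            apply ENNReal.ofReal_le_ofReal
            have e8 : GA * (GA ^ (n - 1) * (196608 * C0)) = 196608 * C0 * GA ^ n := by
              have : GA ^ n = GA * GA ^ (n - 1) := by
                rw [← pow_succ']; congr 1; omega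
              rw [this]; ring
            have e9 : GA ^ n = (GA / G) ^ n * G ^ n := by
              rw [← mul_pow, div_mul_cancel₀ _ hGp.ne']
            have h10 : (GA / G) ^ n ≤ (GA / G) ^ (m + 2) := pow_le_pow_right₀ hq1 hnj
            rw [e8, e9]
            have h11 : (GA / G) ^ n * G ^ n ≤ (GA / G) ^ (m + 2) * G ^ n :=
              mul_le_mul_of_nonneg_right h10 (by positivity)
            have h12 : 0 ≤ (GA / G) ^ (m + 2) * G ^ n := by positivity
            nlinarith [mul_le_mul_of_nonneg_left h11 (by positivity : (0:ℝ) ≤ 196608 * C0),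
              mul_nonneg (sq_nonneg C0) h12]

end

end

end Pool.Agent.FCQ.C
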