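import Pool.Agent.FCQ.C.Chk

/-!
# Soundness of the checker: real functions from tables
-/

set_option autoImplicit false

namespace Pool.Agent.FCQ.C

theorem allB_iff (f : ℕ → Bool) (n : ℕ) : allB f n = true ↔ ∀ i < n, f i = true := by
  induction n with
  | zero => simp [allB]
  | succ n ih =>
    have h : allB f (n+1) = cond (f n) (allB f n) false := rfl
    rw [h]
    constructor
    · intro hh i hi
      cases hf : f n with
      | false => rw [hf] at hh; exact absurd hh (by simp)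
      | true =>
        rw [hf] at hh
        rcases Nat.lt_succ_iff_lt_or_eq.1 hi with h1 | h1
        · exact ih.1 hh i h1
        · rw [h1]; exact hf
    · intro hh
      rw [hh n (Nat.lt_succ_self n)]
      exact ih.2 (fun i hi => hh i (Nat.lt_succ_of_lt hi))

theorem frc_eq (x : ℕ) (g : ℕ → Bool) : frc x g = g x := by cases x <;> rfl

theorem cond_true {a b : Bool} : cond a b false = true ↔ a = true ∧ b = true := by
  cases a <;> simp

/-- the real function of a table -/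
noncomputable def rf (n : ℕ) (f : ℕ → ℕ) (x : ℝ) : ℝ :=
  ((f (⌊(n:ℝ) * x⌋ + 12 * (n:ℤ)).toNat : ℕ) : ℝ)

/-- `y` lies in the cell `q` -/
def cell (n : ℕ) (y : ℝ) (q : ℕ) : Prop := ⌊(n:ℝ) * y⌋ + 12 * (n:ℤ) = (q:ℤ)

theorem rf_nonneg (n : ℕ) (f : ℕ → ℕ) (x : ℝ) : 0 ≤ rf n f x := Nat.cast_nonneg _

theorem rf_cell {n : ℕ} {f : ℕ → ℕ} {y : ℝ} {q : ℕ} (h : cell n y q) : rf n f y = (f q : ℝ) := by
  unfold rf; rw [h]; simp

theorem fl_sub (n : ℕ) (y : ℝ) (c : ℕ) : ⌊(n:ℝ) * (y - (c:ℝ))⌋ = ⌊(n:ℝ) * y⌋ - ((c * n : ℕ) : ℤ) := by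
  have : (n:ℝ) * (y - (c:ℝ)) = (n:ℝ) * y - ((c * n : ℕ) : ℝ) := by push_cast; ring
  rw [this, Int.floor_sub_natCast]

theorem fl_add (n : ℕ) (y : ℝ) (c : ℕ) : ⌊(n:ℝ) * (y + (c:ℝ))⌋ = ⌊(n:ℝ) * y⌋ + ((c * n : ℕ) : ℤ) := by
  have : (n:ℝ) * (y + (c:ℝ)) = (n:ℝ) * y + ((c * n : ℕ) : ℝ) := by push_cast; ring
  rw [this, Int.floor_add_natCast]

theorem rf_sub {n : ℕ} {f : ℕ → ℕ} {y : ℝ} {q : ℕ} (c : ℕ) (h : cell n y q) :
    rf n f (y - (c:ℝ)) = (f (q - c * n) : ℝ) := by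
  unfold rf; rw [fl_sub]
  unfold cell at h
  have : ⌊(n:ℝ) * y⌋ - ((c * n : ℕ) : ℤ) + 12 * (n:ℤ) = (q:ℤ) - ((c * n : ℕ) : ℤ) := by rw [← h]; ring
  rw [this]
  have h2 : ((q:ℤ) - ((c * n : ℕ) : ℤ)).toNat = q - c * n := by omega
  rw [h2]

theorem rf_add {n : ℕ} {f : ℕ → ℕ} {y : ℝ} {q : ℕ} (c : ℕ) (h : cell n y q) :
    rf n f (y + (c:ℝ)) = (f (q + c * n) : ℝ) := by
  unfold rf; rw [fl_add]
  unfold cell at h
  have : ⌊(n:ℝ) * y⌋ + ((c * n : ℕ) : ℤ) + 12 * (n:ℤ) = (q:ℤ) + ((c * n : ℕ) : ℤ) := by rw [← h]; ring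
  rw [this]
  have h2 : ((q:ℤ) + ((c * n : ℕ) : ℤ)).toNat = q + c * n := by omega
  rw [h2]

theorem cell_add {n : ℕ} {y : ℝ} {q : ℕ} (c : ℕ) (h : cell n y q) : cell n (y + (c:ℝ)) (q + c * n) := by
  unfold cell at h ⊢; rw [fl_add]; push_cast; linarith

theorem cell_sub {n : ℕ} {y : ℝ} {q : ℕ} (c : ℕ) (hc : c * n ≤ q) (h : cell n y q) :
    cell n (y - (c:ℝ)) (q - c * n) := by
  unfold cell at h ⊢; rw [fl_sub]; push_cast [Nat.cast_sub hc]; linarith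

/-- `4 Σ W_k f(y - sv_k)` -/
noncomputable def HR (n : ℕ) (f : ℕ → ℕ) (y : ℝ) : ℝ :=
  6 * rf n f y + (4 * (rf n f (y + 3) + rf n f (y - 3)) + (rf n f (y + 6) + rf n f (y - 6)))

theorem H1_def (f : ℕ → ℕ) (n y : ℕ) : H1 f n y
    = 6 * f y + (4 * (f (y + 3 * n) + f (y - 3 * n)) + (f (y + 6 * n) + f (y - 6 * n))) := rfl

theorem H1_eq {n : ℕ} {f : ℕ → ℕ} {y : ℝ} {q : ℕ} (h : cell n y q) : HR n f y = (H1 f n q : ℝ) := by
  have h1 := rf_add (f := f) 3 h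
  have h2 := rf_sub (f := f) 3 h
  have h3 := rf_add (f := f) 6 h
  have h4 := rf_sub (f := f) 6 h
  norm_num at h1 h2 h3 h4
  unfold HR
  rw [H1_def, rf_cell h, h1, h2, h3, h4]
  push_cast
  ring

theorem HR_nonneg (n : ℕ) (f : ℕ → ℕ) (y : ℝ) : 0 ≤ HR n f y := by
  have := rf_nonneg n f
  unfold HR
  have h1 := this y; have h2 := this (y+3); have h3 := this (y-3); have h4 := this (y+6); have h5 := this (y-6)
  positivity

theorem mn_le1 (a b : ℕ) : mn a b ≤ a := by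
  unfold mn
  cases h : Nat.ble a b with
  | true => exact le_refl _
  | false =>
    have : ¬ a ≤ b := fun hh => by rw [Nat.ble_eq_true_of_le hh] at h; exact absurd h (by simp)
    show b ≤ a
    omega

theorem mn_le2 (a b : ℕ) : mn a b ≤ b := by
  unfold mn
  cases h : Nat.ble a b with
  | true => exact Nat.le_of_ble_eq_true h
  | false => exact le_refl _

theorem le_mx1 (a b : ℕ) : a ≤ mx a b := by
  unfold mx
  cases h : Nat.ble a b with
  | true => exact Nat.le_of_ble_eq_true h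
  | false => exact le_refl _

theorem le_mx2 (a b : ℕ) : b ≤ mx a b := by
  unfold mx
  cases h : Nat.ble a b with
  | true => exact le_refl _
  | false =>
    have : ¬ a ≤ b := fun hh => by rw [Nat.ble_eq_true_of_le hh] at h; exact absurd h (by simp)
    show b ≤ a
    omega

theorem KK_def (h t : ℕ) : KK h t = 14495514624 * (h * (h * h)) / (t * (t * t)) + 1 := rfl

theorem KK_le {h t : ℕ} {T : ℝ} (ht : 0 < t) (hT : (t:ℝ) ≤ T) :
    1048576 * (24 * (h:ℝ) / T) ^ 3 ≤ (KK h t : ℝ) := by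
  have ht' : (0:ℝ) < (t:ℝ) := by exact_mod_cast ht
  have hb : 0 < t * (t * t) := by positivity
  have h1 : 14495514624 * (h * (h * h)) < (14495514624 * (h * (h * h)) / (t * (t * t)) + 1) * (t * (t * t)) := by
    have h2 := Nat.div_add_mod (14495514624 * (h * (h * h))) (t * (t * t))
    have h3 := Nat.mod_lt (14495514624 * (h * (h * h))) hb
    have h4 : (14495514624 * (h * (h * h)) / (t * (t * t)) + 1) * (t * (t * t))
      = t * (t * t) * (14495514624 * (h * (h * h)) / (t * (t * t))) + t * (t * t) := by ring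
    rw [h4]; omega
  rw [← KK_def] at h1
  have h2 : (14495514624:ℝ) * ((h:ℝ) * ((h:ℝ) * (h:ℝ))) ≤ (KK h t : ℝ) * ((t:ℝ) * ((t:ℝ) * (t:ℝ))) := by
    exact_mod_cast h1.le
  have h3 : (24 * (h:ℝ) / T) ^ 3 ≤ (24 * (h:ℝ) / (t:ℝ)) ^ 3 := by
    apply pow_le_pow_left₀
    · have : (0:ℝ) < T := lt_of_lt_of_le ht' hT
      positivity
    · apply div_le_div_of_nonneg_left _ ht' hT
      positivity
  have h4 : 1048576 * (24 * (h:ℝ) / (t:ℝ)) ^ 3 = (14495514624:ℝ) * ((h:ℝ) * ((h:ℝ) * (h:ℝ))) / ((t:ℝ) * ((t:ℝ) * (t:ℝ))) := by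
    field_simp
    ring
  have h5 : 1048576 * (24 * (h:ℝ) / (t:ℝ)) ^ 3 ≤ (KK h t : ℝ) := by
    rw [h4, div_le_iff₀ (by positivity)]
    exact h2
  linarith

/-! ### Shifts -/

theorem cell_iff {n : ℕ} {y : ℝ} {q : ℕ} : cell n y q ↔ (q:ℝ) ≤ (n:ℝ) * y + 12 * n ∧ (n:ℝ) * y + 12 * n < q + 1 := by
  unfold cell
  have h0 : ⌊(n:ℝ) * y⌋ + 12 * (n:ℤ) = ⌊(n:ℝ) * y + ((12 * n : ℕ) : ℝ)⌋ := by
    rw [Int.floor_add_natCast]; push_cast; ring
  rw [h0, Int.floor_eq_iff]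
  push_cast
  constructor
  · rintro ⟨h1, h2⟩; exact ⟨by exact_mod_cast h1, by exact_mod_cast h2⟩
  · rintro ⟨h1, h2⟩; exact ⟨by exact_mod_cast h1, by exact_mod_cast h2⟩

section shift
variable {n i : ℕ} {y s : ℝ} {q : ℕ}

theorem sh_add (h : cell n y q) (h1 : (i:ℝ) ≤ n * s) (h2 : (n:ℝ) * s ≤ i + 1) :
    cell n (y + s) (q + i) ∨ cell n (y + s) (q + (i + 1)) := by
  rw [cell_iff] at h
  simp only [cell_iff]
  push_cast
  have e : (n:ℝ) * (y + s) = n * y + n * s := by ring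
  rw [e]
  by_cases hc : (n:ℝ) * y + n * s + 12 * n < q + i + 1
  · left; exact ⟨by linarith [h.1], hc⟩
  · right; push Not at hc; exact ⟨by linarith, by linarith [h.2]⟩

theorem sh_sub (hq : i + 1 ≤ q) (h : cell n y q) (h1 : (i:ℝ) ≤ n * s) (h2 : (n:ℝ) * s ≤ i + 1) :
    cell n (y - s) (q - (i + 1)) ∨ cell n (y - s) (q - i) := by
  rw [cell_iff] at h
  simp only [cell_iff]
  rw [Nat.cast_sub hq, Nat.cast_sub (by omega)]
  push_cast
  have e : (n:ℝ) * (y - s) = n * y - n * s := by ring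
  rw [e]
  by_cases hc : (n:ℝ) * y - n * s + 12 * n < q - i
  · left; exact ⟨by linarith [h.1], by linarith⟩
  · right; push Not at hc; exact ⟨by linarith, by linarith [h.2]⟩

theorem sh_add2 (h : cell n y q) (h1 : (i:ℝ) ≤ n * s) (h2 : (n:ℝ) * s ≤ i + 1) :
    cell n (y + 2 * s) (q + (i + i)) ∨ cell n (y + 2 * s) (q + (i + i + 1)) ∨ cell n (y + 2 * s) (q + (i + i + 1 + 1)) := by
  rw [cell_iff] at h
  simp only [cell_iff]
  push_cast
  have e : (n:ℝ) * (y + 2 * s) = n * y + 2 * (n * s) := by ring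
  rw [e]
  by_cases hc : (n:ℝ) * y + 2 * (n * s) + 12 * n < q + (i + i) + 1
  · left; exact ⟨by linarith [h.1], hc⟩
  · right; push Not at hc
    by_cases hd : (n:ℝ) * y + 2 * (n * s) + 12 * n < q + (i + i + 1) + 1
    · left; exact ⟨by linarith, hd⟩
    · right; push Not at hd; exact ⟨by linarith, by linarith [h.2]⟩

theorem sh_sub2 (hq : i + i + 2 ≤ q) (h : cell n y q) (h1 : (i:ℝ) ≤ n * s) (h2 : (n:ℝ) * s ≤ i + 1) :
    cell n (y - 2 * s) (q - (i + i + 1 + 1)) ∨ cell n (y - 2 * s) (q - (i + i + 1)) ∨ cell n (y - 2 * s) (q - (i + i)) := by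
  rw [cell_iff] at h
  simp only [cell_iff]
  rw [Nat.cast_sub (by omega : i + i + 1 + 1 ≤ q), Nat.cast_sub (by omega : i + i + 1 ≤ q), Nat.cast_sub (by omega : i + i ≤ q)]
  push_cast
  have e : (n:ℝ) * (y - 2 * s) = n * y - 2 * (n * s) := by ring
  rw [e]
  by_cases hc : (n:ℝ) * y - 2 * (n * s) + 12 * n < q - (i + i + 1)
  · left; exact ⟨by linarith [h.1], by linarith⟩
  · right; push Not at hc
    by_cases hd : (n:ℝ) * y - 2 * (n * s) + 12 * n < q - (i + i)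
    · left; exact ⟨by linarith, by linarith⟩
    · right; push Not at hd; exact ⟨by linarith, by linarith [h.2]⟩

/-- the index of `z/4` -/
theorem cell_quarter {z : ℝ} {a b : ℕ} (ha : (a:ℝ) ≤ (n:ℝ) * z + 48 * n) (hb : (n:ℝ) * z + 48 * n < b + 1)
    (f : ℕ → ℕ) (C : ℝ) (hC : ∀ m : ℕ, a ≤ m → m ≤ b → (f (m / 4) : ℝ) ≤ C) : rf n f (z / 4) ≤ C := by
  have h0 : 0 ≤ (n:ℝ) * z + 48 * n := le_trans (Nat.cast_nonneg _) ha
  obtain ⟨m, hm⟩ : ∃ m : ℕ, ⌊(n:ℝ) * z + 48 * n⌋ = (m:ℤ) := ⟨_, (Int.toNat_of_nonneg (Int.floor_nonneg.2 h0)).symm⟩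
  have hm1 : (m:ℝ) ≤ (n:ℝ) * z + 48 * n := by
    have := Int.floor_le ((n:ℝ) * z + 48 * n); rw [hm] at this; exact_mod_cast this
  have hm2 : (n:ℝ) * z + 48 * n < m + 1 := by
    have := Int.lt_floor_add_one ((n:ℝ) * z + 48 * n); rw [hm] at this; exact_mod_cast this
  have ham : a ≤ m := by
    have : (a:ℝ) < m + 1 := lt_of_le_of_lt ha hm2
    have h3 : a < m + 1 := by exact_mod_cast this
    omega
  have hmb : m ≤ b := by
    have : (m:ℝ) < b + 1 := lt_of_le_of_lt hm1 hb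
    have h3 : m < b + 1 := by exact_mod_cast this
    omega
  have hc : cell n (z / 4) (m / 4) := by
    rw [cell_iff]
    have e : (n:ℝ) * (z / 4) + 12 * n = ((n:ℝ) * z + 48 * n) / 4 := by ring
    rw [e]
    have h5 : 4 * (m / 4) ≤ m := Nat.mul_div_le m 4
    have h6 : m + 1 ≤ 4 * (m / 4 + 1) := by omega
    have h5' : (4:ℝ) * ((m / 4 : ℕ) : ℝ) ≤ m := by exact_mod_cast h5
    have h6' : (m:ℝ) + 1 ≤ 4 * (((m / 4 : ℕ) : ℝ) + 1) := by exact_mod_cast h6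
    constructor
    · linarith
    · linarith
  rw [rf_cell hc]
  exact hC m ham hmb

end shift

end Pool.Agent.FCQ.C
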