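import Pool.Agent.FCQ.C.Sound

/-!
# Soundness of the checker: the inequality for one digit
-/

set_option autoImplicit false

namespace Pool.Agent.FCQ.C

def a1 (f : ℕ → ℕ) (n i q : ℕ) : ℕ := mn (H1 f n (q + i)) (H1 f n (q + (i + 1)))
def b1' (f : ℕ → ℕ) (n i q : ℕ) : ℕ := mn (H1 f n (q - (i + 1))) (H1 f n (q - i))
def a2 (f : ℕ → ℕ) (n i q : ℕ) : ℕ :=
  mn (H1 f n (q + (i + i))) (mn (H1 f n (q + (i + i + 1))) (H1 f n (q + (i + i + 1 + 1))))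
def b2' (f : ℕ → ℕ) (n i q : ℕ) : ℕ :=
  mn (H1 f n (q - (i + i + 1 + 1))) (mn (H1 f n (q - (i + i + 1))) (H1 f n (q - (i + i))))

theorem CC_eq (f : ℕ → ℕ) (n i h q b0 b1 b2 : ℕ) (g : ℕ → ℕ → ℕ → ℕ → ℕ → ℕ → Bool) :
    CC f n i h q b0 b1 b2 g =
      g (b0 * KK h (H1 f n q + (4 * b1' f n i q + b2' f n i q)))
        (4 * b0 * KK h (a1 f n i q + (4 * H1 f n q + b1' f n i q)))
        (b0 * KK h (H1 f n q + (4 * a1 f n i q + a2 f n i q)))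
        (3 * b1 * KK h (3 * (H1 f n q + b1' f n i q)))
        (3 * b1 * KK h (3 * (H1 f n q + a1 f n i q)))
        (6 * b2 * KK h (6 * H1 f n q)) := by
  unfold CC AA
  simp only [frc_eq]
  rfl

theorem SS_def (v : ℕ → ℕ → ℕ) (n i q K00 K01 K02 K10 K12 K21 : ℕ) :
    SS v n i q K00 K01 K02 K10 K12 K21 =
      K00 * mx (v 0 ((q + 36 * n - (i + 1)) / 4)) (v 0 ((q + 36 * n - i) / 4))
      + (K01 * v 0 ((q + 36 * n) / 4)
      + (K02 * mx (v 0 ((q + 36 * n + i) / 4)) (v 0 ((q + 36 * n + (i + 1)) / 4))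
      + (K10 * mx (v 1 ((2 * (q + 36 * n) - (i + 1)) / 8)) (v 1 ((2 * (q + 36 * n) + 1 - i) / 8))
      + (K12 * mx (v 1 ((2 * (q + 36 * n) + i) / 8)) (v 1 ((2 * (q + 36 * n) + (i + 1 + 1)) / 8))
      + K21 * v 2 ((q + 36 * n) / 4))))) := rfl

/-- the sum over the classes and `e` for one digit, `hv = h(r)`, `y = r + sv_k`, `s = 6 t'` -/
noncomputable def SR (n : ℕ) (f : ℕ → ℕ) (v : ℕ → ℕ → ℕ) (hv b0 b1 b2 y s : ℝ) : ℝ :=
  b0 * (1/6) * (24 * hv / (HR n f y + (4 * HR n f (y - s) + HR n f (y - 2 * s)))) ^ 3 * rf n (v 0) ((y - s) / 4)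
  + (b0 * (2/3) * (24 * hv / (HR n f (y + s) + (4 * HR n f y + HR n f (y - s)))) ^ 3 * rf n (v 0) (y / 4)
  + (b0 * (1/6) * (24 * hv / (HR n f y + (4 * HR n f (y + s) + HR n f (y + 2 * s)))) ^ 3 * rf n (v 0) ((y + s) / 4)
  + (b1 * (1/2) * (24 * hv / (3 * (HR n f y + HR n f (y - s)))) ^ 3 * rf n (v 1) ((y - s / 2) / 4)
  + (b1 * (1/2) * (24 * hv / (3 * (HR n f y + HR n f (y + s)))) ^ 3 * rf n (v 1) ((y + s / 2) / 4)
  + b2 * (24 * hv / (6 * HR n f y)) ^ 3 * rf n (v 2) (y / 4)))))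

section
variable {n i : ℕ} {y s : ℝ} {q : ℕ} {f : ℕ → ℕ}

theorem a1_le (h : cell n y q) (h1 : (i:ℝ) ≤ n * s) (h2 : (n:ℝ) * s ≤ i + 1) :
    (a1 f n i q : ℝ) ≤ HR n f (y + s) := by
  rcases sh_add h h1 h2 with hc | hc
  · rw [H1_eq hc]; exact_mod_cast mn_le1 _ _
  · rw [H1_eq hc]; exact_mod_cast mn_le2 _ _

theorem b1_le (hq : i + i + 2 ≤ q) (h : cell n y q) (h1 : (i:ℝ) ≤ n * s) (h2 : (n:ℝ) * s ≤ i + 1) :
    (b1' f n i q : ℝ) ≤ HR n f (y - s) := by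
  rcases sh_sub (by omega) h h1 h2 with hc | hc
  · rw [H1_eq hc]; exact_mod_cast mn_le1 _ _
  · rw [H1_eq hc]; exact_mod_cast mn_le2 _ _

theorem a2_le (h : cell n y q) (h1 : (i:ℝ) ≤ n * s) (h2 : (n:ℝ) * s ≤ i + 1) :
    (a2 f n i q : ℝ) ≤ HR n f (y + 2 * s) := by
  rcases sh_add2 h h1 h2 with hc | hc | hc
  · rw [H1_eq hc]; exact_mod_cast mn_le1 _ _
  · rw [H1_eq hc]; exact_mod_cast (mn_le2 _ _).trans (mn_le1 _ _)
  · rw [H1_eq hc]; exact_mod_cast (mn_le2 _ _).trans (mn_le2 _ _)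

theorem b2_le (hq : i + i + 2 ≤ q) (h : cell n y q) (h1 : (i:ℝ) ≤ n * s) (h2 : (n:ℝ) * s ≤ i + 1) :
    (b2' f n i q : ℝ) ≤ HR n f (y - 2 * s) := by
  rcases sh_sub2 hq h h1 h2 with hc | hc | hc
  · rw [H1_eq hc]; exact_mod_cast mn_le1 _ _
  · rw [H1_eq hc]; exact_mod_cast (mn_le2 _ _).trans (mn_le1 _ _)
  · rw [H1_eq hc]; exact_mod_cast (mn_le2 _ _).trans (mn_le2 _ _)

theorem vA (g : ℕ → ℕ) (hq : i + i + 2 ≤ q) (h : cell n y q) (h1 : (i:ℝ) ≤ n * s) (h2 : (n:ℝ) * s ≤ i + 1) :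
    rf n g ((y - s) / 4) ≤ (mx (g ((q + 36 * n - (i + 1)) / 4)) (g ((q + 36 * n - i) / 4)) : ℕ) := by
  rw [cell_iff] at h
  have e : (n:ℝ) * (y - s) + 48 * n = n * y + 12 * n + 36 * n - n * s := by ring
  apply cell_quarter (a := q + 36 * n - (i + 1)) (b := q + 36 * n - i)
  · rw [e, Nat.cast_sub (by omega)]; push_cast; linarith [h.1]
  · rw [e, Nat.cast_sub (by omega)]; push_cast; linarith [h.2]
  · intro m hm1 hm2
    have : m = q + 36 * n - (i + 1) ∨ m = q + 36 * n - i := by omega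
    rcases this with rfl | rfl
    · exact_mod_cast le_mx1 _ _
    · exact_mod_cast le_mx2 _ _

theorem vB (g : ℕ → ℕ) (h : cell n y q) : rf n g (y / 4) ≤ (g ((q + 36 * n) / 4) : ℝ) := by
  rw [cell_iff] at h
  apply cell_quarter (a := q + 36 * n) (b := q + 36 * n)
  · push_cast; linarith [h.1]
  · push_cast; linarith [h.2]
  · intro m hm1 hm2
    have : m = q + 36 * n := by omega
    rw [this]

theorem vC (g : ℕ → ℕ) (h : cell n y q) (h1 : (i:ℝ) ≤ n * s) (h2 : (n:ℝ) * s ≤ i + 1) :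
    rf n g ((y + s) / 4) ≤ (mx (g ((q + 36 * n + i) / 4)) (g ((q + 36 * n + (i + 1)) / 4)) : ℕ) := by
  rw [cell_iff] at h
  have e : (n:ℝ) * (y + s) + 48 * n = n * y + 12 * n + 36 * n + n * s := by ring
  apply cell_quarter (a := q + 36 * n + i) (b := q + 36 * n + (i + 1))
  · rw [e]; push_cast; linarith [h.1]
  · rw [e]; push_cast; linarith [h.2]
  · intro m hm1 hm2
    have : m = q + 36 * n + i ∨ m = q + 36 * n + (i + 1) := by omega
    rcases this with rfl | rfl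
    · exact_mod_cast le_mx1 _ _
    · exact_mod_cast le_mx2 _ _

theorem vD (g : ℕ → ℕ) (hq : i + i + 2 ≤ q) (h : cell n y q) (h1 : (i:ℝ) ≤ n * s) (h2 : (n:ℝ) * s ≤ i + 1) :
    rf n g ((y - s / 2) / 4) ≤ (mx (g ((2 * (q + 36 * n) - (i + 1)) / 8)) (g ((2 * (q + 36 * n) + 1 - i) / 8)) : ℕ) := by
  rw [cell_iff] at h
  have e : (n:ℝ) * (y - s / 2) + 48 * n = n * y + 12 * n + 36 * n - (n * s) / 2 := by ring
  have ha : 2 * ((2 * (q + 36 * n) - (i + 1)) / 2) ≤ 2 * (q + 36 * n) - (i + 1) := by omega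
  have hb : 2 * (q + 36 * n) + 1 - i + 1 ≤ 2 * ((2 * (q + 36 * n) + 1 - i) / 2 + 1) := by omega
  have ha' : (2:ℝ) * (((2 * (q + 36 * n) - (i + 1)) / 2 : ℕ) : ℝ) ≤ ((2 * (q + 36 * n) - (i + 1) : ℕ) : ℝ) := by
    exact_mod_cast ha
  have hb' : ((2 * (q + 36 * n) + 1 - i : ℕ) : ℝ) + 1 ≤ 2 * ((((2 * (q + 36 * n) + 1 - i) / 2 : ℕ) : ℝ) + 1) := by
    exact_mod_cast hb
  rw [Nat.cast_sub (by omega)] at ha' hb'
  push_cast at ha' hb'
  apply cell_quarter (a := (2 * (q + 36 * n) - (i + 1)) / 2) (b := (2 * (q + 36 * n) + 1 - i) / 2)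
  · rw [e]; linarith [h.1]
  · rw [e]; linarith [h.2]
  · intro m hm1 hm2
    have e1 : (2 * (q + 36 * n) - (i + 1)) / 2 / 4 = (2 * (q + 36 * n) - (i + 1)) / 8 := by
      rw [Nat.div_div_eq_div_mul]
    have e2 : (2 * (q + 36 * n) + 1 - i) / 2 / 4 = (2 * (q + 36 * n) + 1 - i) / 8 := by
      rw [Nat.div_div_eq_div_mul]
    have : m = (2 * (q + 36 * n) - (i + 1)) / 2 ∨ m = (2 * (q + 36 * n) + 1 - i) / 2 := by omega
    rcases this with hh | hh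
    · rw [hh, e1]; exact_mod_cast le_mx1 _ _
    · rw [hh, e2]; exact_mod_cast le_mx2 _ _

theorem vE (g : ℕ → ℕ) (h : cell n y q) (h1 : (i:ℝ) ≤ n * s) (h2 : (n:ℝ) * s ≤ i + 1) :
    rf n g ((y + s / 2) / 4) ≤ (mx (g ((2 * (q + 36 * n) + i) / 8)) (g ((2 * (q + 36 * n) + (i + 1 + 1)) / 8)) : ℕ) := by
  rw [cell_iff] at h
  have e : (n:ℝ) * (y + s / 2) + 48 * n = n * y + 12 * n + 36 * n + (n * s) / 2 := by ring
  have ha : 2 * ((2 * (q + 36 * n) + i) / 2) ≤ 2 * (q + 36 * n) + i := by omega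
  have hb : 2 * (q + 36 * n) + (i + 1 + 1) + 1 ≤ 2 * ((2 * (q + 36 * n) + (i + 1 + 1)) / 2 + 1) := by omega
  have ha' : (2:ℝ) * (((2 * (q + 36 * n) + i) / 2 : ℕ) : ℝ) ≤ ((2 * (q + 36 * n) + i : ℕ) : ℝ) := by
    exact_mod_cast ha
  have hb' : ((2 * (q + 36 * n) + (i + 1 + 1) : ℕ) : ℝ) + 1 ≤ 2 * ((((2 * (q + 36 * n) + (i + 1 + 1)) / 2 : ℕ) : ℝ) + 1) := by
    exact_mod_cast hb
  push_cast at ha' hb'
  apply cell_quarter (a := (2 * (q + 36 * n) + i) / 2) (b := (2 * (q + 36 * n) + (i + 1 + 1)) / 2)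
  · rw [e]; linarith [h.1]
  · rw [e]; linarith [h.2]
  · intro m hm1 hm2
    have e1 : (2 * (q + 36 * n) + i) / 2 / 4 = (2 * (q + 36 * n) + i) / 8 := by
      rw [Nat.div_div_eq_div_mul]
    have e2 : (2 * (q + 36 * n) + (i + 1 + 1)) / 2 / 4 = (2 * (q + 36 * n) + (i + 1 + 1)) / 8 := by
      rw [Nat.div_div_eq_div_mul]
    have : m = (2 * (q + 36 * n) + i) / 2 ∨ m = (2 * (q + 36 * n) + (i + 1 + 1)) / 2 := by omega
    rcases this with hh | hh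
    · rw [hh, e1]; exact_mod_cast le_mx1 _ _
    · rw [hh, e2]; exact_mod_cast le_mx2 _ _

theorem term_le {b : ℕ} {h t : ℕ} {T V : ℝ} {V' : ℕ} (w : ℝ) (w' : ℕ) (hw : 6 * w = w') (hw0 : 0 ≤ w)
    (ht : 0 < h → 0 < t) (hT : (t:ℝ) ≤ T) (hV0 : 0 ≤ V) (hV : V ≤ V') :
    6 * 1048576 * ((b:ℝ) * w * (24 * (h:ℝ) / T) ^ 3 * V) ≤ (w' * b * KK h t * V' : ℝ) := by
  have hT0 : 0 ≤ T := le_trans (Nat.cast_nonneg _) hT
  have hK : 1048576 * (24 * (h:ℝ) / T) ^ 3 ≤ (KK h t : ℝ) := by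
    rcases Nat.eq_zero_or_pos h with h0 | h0
    · subst h0
      simp
    · exact KK_le (ht h0) hT
  have hx : 0 ≤ (24 * (h:ℝ) / T) ^ 3 := by positivity
  have e : 6 * 1048576 * ((b:ℝ) * w * (24 * (h:ℝ) / T) ^ 3 * V)
      = (w' * b : ℝ) * ((1048576 * (24 * (h:ℝ) / T) ^ 3) * V) := by rw [← hw]; ring
  rw [e]
  have h3 : (1048576 * (24 * (h:ℝ) / T) ^ 3) * V ≤ (KK h t : ℝ) * V' := by
    apply mul_le_mul hK hV hV0 (Nat.cast_nonneg _)
  calc (w' * b : ℝ) * ((1048576 * (24 * (h:ℝ) / T) ^ 3) * V) ≤ (w' * b : ℝ) * ((KK h t : ℝ) * V') := by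
        apply mul_le_mul_of_nonneg_left h3; positivity
    _ = _ := by ring

theorem SR_le {b0 b1 b2 h : ℕ} (v : ℕ → ℕ → ℕ) (hq : i + i + 2 ≤ q) (hc : cell n y q)
    (h1 : (i:ℝ) ≤ n * s) (h2 : (n:ℝ) * s ≤ i + 1) (hh : 0 < h → 0 < H1 f n q) :
    6 * 1048576 * SR n f v (h:ℝ) b0 b1 b2 y s ≤
      (SS v n i q (b0 * KK h (H1 f n q + (4 * b1' f n i q + b2' f n i q)))
        (4 * b0 * KK h (a1 f n i q + (4 * H1 f n q + b1' f n i q)))
        (b0 * KK h (H1 f n q + (4 * a1 f n i q + a2 f n i q)))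
        (3 * b1 * KK h (3 * (H1 f n q + b1' f n i q)))
        (3 * b1 * KK h (3 * (H1 f n q + a1 f n i q)))
        (6 * b2 * KK h (6 * H1 f n q)) : ℕ) := by
  have e0 := H1_eq (f := f) hc
  have k1 := a1_le (f := f) hc h1 h2
  have k2 := b1_le (f := f) hq hc h1 h2
  have k3 := a2_le (f := f) hc h1 h2
  have k4 := b2_le (f := f) hq hc h1 h2
  have t1 := term_le (b := b0) (h := h) (t := H1 f n q + (4 * b1' f n i q + b2' f n i q))
    (T := HR n f y + (4 * HR n f (y - s) + HR n f (y - 2 * s))) (1/6) 1 (by norm_num) (by norm_num)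
    (fun h0 => by have := hh h0; omega) (by push_cast; linarith) (rf_nonneg n (v 0) _) (vA (v 0) hq hc h1 h2)
  have t2 := term_le (b := b0) (h := h) (t := a1 f n i q + (4 * H1 f n q + b1' f n i q))
    (T := HR n f (y + s) + (4 * HR n f y + HR n f (y - s))) (2/3) 4 (by norm_num) (by norm_num)
    (fun h0 => by have := hh h0; omega) (by push_cast; linarith) (rf_nonneg n (v 0) _) (vB (v 0) hc)
  have t3 := term_le (b := b0) (h := h) (t := H1 f n q + (4 * a1 f n i q + a2 f n i q))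
    (T := HR n f y + (4 * HR n f (y + s) + HR n f (y + 2 * s))) (1/6) 1 (by norm_num) (by norm_num)
    (fun h0 => by have := hh h0; omega) (by push_cast; linarith) (rf_nonneg n (v 0) _) (vC (v 0) hc h1 h2)
  have t4 := term_le (b := b1) (h := h) (t := 3 * (H1 f n q + b1' f n i q))
    (T := 3 * (HR n f y + HR n f (y - s))) (1/2) 3 (by norm_num) (by norm_num)
    (fun h0 => by have := hh h0; omega) (by push_cast; linarith) (rf_nonneg n (v 1) _) (vD (v 1) hq hc h1 h2)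
  have t5 := term_le (b := b1) (h := h) (t := 3 * (H1 f n q + a1 f n i q))
    (T := 3 * (HR n f y + HR n f (y + s))) (1/2) 3 (by norm_num) (by norm_num)
    (fun h0 => by have := hh h0; omega) (by push_cast; linarith) (rf_nonneg n (v 1) _) (vE (v 1) hc h1 h2)
  have t6 := term_le (b := b2) (h := h) (t := 6 * H1 f n q)
    (T := 6 * HR n f y) 1 6 (by norm_num) (by norm_num)
    (fun h0 => by have := hh h0; omega) (by push_cast; linarith) (rf_nonneg n (v 2) _) (vB (v 2) hc)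
  rw [SS_def]
  push_cast
  unfold SR
  push_cast at t1 t2 t3 t4 t5 t6
  linarith

end

end Pool.Agent.FCQ.C
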