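import Pool.Agent.FCQ.C.Sound2

/-!
# Soundness of the checker: one window
-/

set_option autoImplicit false

namespace Pool.Agent.FCQ.C

theorem chk1_def (n M i b0 b1 b2 G : ℕ) (f : ℕ → ℕ) (v : ℕ → ℕ → ℕ → ℕ) (bc : ℕ → ℕ) (Q2 p : ℕ) :
    chk1 n M i b0 b1 b2 G f v bc Q2 p =
  (frc (f p) fun h =>
  cond (CC f n i h p b0 b1 b2 fun K00 K01 K02 K10 K12 K21 =>
      allB (fun c => Nat.ble
        (600 * (SS (fun Q => v Q c) n i p K00 K01 K02 K10 K12 K21))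
        (G * (100663296 * (bc c * v Q2 0 p)))) 3)
  (cond (CC f n i h (p + 3 * n) b0 b1 b2 fun K00 K01 K02 K10 K12 K21 =>
      CC f n i h (p - 3 * n) b0 b1 b2 fun L00 L01 L02 L10 L12 L21 =>
      allB (fun c => Nat.ble
        (400 * (
          (SS (fun Q => v Q c) n i (p + 3 * n) K00 K01 K02 K10 K12 K21) +
          (SS (fun Q => v Q c) n i (p - 3 * n) L00 L01 L02 L10 L12 L21)))
        (G * (100663296 * (bc c * v Q2 1 p)))) 3)
  (CC f n i h (p + 6 * n) b0 b1 b2 fun K00 K01 K02 K10 K12 K21 =>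
      CC f n i h (p - 6 * n) b0 b1 b2 fun L00 L01 L02 L10 L12 L21 =>
      allB (fun c => Nat.ble
        (100 * (
          (SS (fun Q => v Q c) n i (p + 6 * n) K00 K01 K02 K10 K12 K21) +
          (SS (fun Q => v Q c) n i (p - 6 * n) L00 L01 L02 L10 L12 L21)))
        (G * (100663296 * (bc c * v Q2 2 p)))) 3)
    false) false) := rfl

section
variable {n M i b0 b1 b2 G : ℕ} {f : ℕ → ℕ} {v : ℕ → ℕ → ℕ → ℕ} {bc : ℕ → ℕ} {Q2 p : ℕ} {r s : ℝ}

theorem H1_pos0 (h : 0 < f p) : 0 < H1 f n p := by rw [H1_def]; omega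

theorem H1_pos3 (h : 0 < f p) : 0 < H1 f n (p + 3 * n) := by
  rw [H1_def]
  have : p + 3 * n - 3 * n = p := by omega
  rw [this]; omega

theorem H1_pos3' (hp : 3 * n ≤ p) (h : 0 < f p) : 0 < H1 f n (p - 3 * n) := by
  rw [H1_def]
  have : p - 3 * n + 3 * n = p := by omega
  rw [this]; omega

theorem H1_pos6 (h : 0 < f p) : 0 < H1 f n (p + 6 * n) := by
  rw [H1_def]
  have : p + 6 * n - 6 * n = p := by omega
  rw [this]; omega

theorem H1_pos6' (hp : 6 * n ≤ p) (h : 0 < f p) : 0 < H1 f n (p - 6 * n) := by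
  rw [H1_def]
  have : p - 6 * n + 6 * n = p := by omega
  rw [this]; omega

theorem chk1_sound (hchk : chk1 n M i b0 b1 b2 G f v bc Q2 p = true) (hc : cell n r p)
    (hp : i + i + 2 + 6 * n ≤ p) (h1 : (i:ℝ) ≤ n * s) (h2 : (n:ℝ) * s ≤ i + 1) (c : ℕ) (hc3 : c < 3) :
    (3/8) * SR n f (fun Q => v Q c) (f p) b0 b1 b2 r s ≤ (G/100) * bc c * rf n (v Q2 0) r ∧
    (1/4) * (SR n f (fun Q => v Q c) (f p) b0 b1 b2 (r + 3) s + SR n f (fun Q => v Q c) (f p) b0 b1 b2 (r - 3) s)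
      ≤ (G/100) * bc c * rf n (v Q2 1) r ∧
    (1/16) * (SR n f (fun Q => v Q c) (f p) b0 b1 b2 (r + 6) s + SR n f (fun Q => v Q c) (f p) b0 b1 b2 (r - 6) s)
      ≤ (G/100) * bc c * rf n (v Q2 2) r := by
  rw [chk1_def, frc_eq, cond_true, cond_true, CC_eq, CC_eq, CC_eq, CC_eq, CC_eq, allB_iff, allB_iff, allB_iff] at hchk
  obtain ⟨k0, k1, k2⟩ := hchk
  have k0 := Nat.le_of_ble_eq_true (k0 c hc3)
  have k1 := Nat.le_of_ble_eq_true (k1 c hc3)
  have k2 := Nat.le_of_ble_eq_true (k2 c hc3)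
  have c3 : cell n (r + 3) (p + 3 * n) := by have := cell_add 3 hc; exact_mod_cast this
  have c3' : cell n (r - 3) (p - 3 * n) := by have := cell_sub 3 (by omega) hc; exact_mod_cast this
  have c6 : cell n (r + 6) (p + 6 * n) := by have := cell_add 6 hc; exact_mod_cast this
  have c6' : cell n (r - 6) (p - 6 * n) := by have := cell_sub 6 (by omega) hc; exact_mod_cast this
  have s0 := SR_le (b0 := b0) (b1 := b1) (b2 := b2) (h := f p) (f := f) (fun Q => v Q c) (by omega) hc h1 h2 H1_pos0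
  have s3 := SR_le (b0 := b0) (b1 := b1) (b2 := b2) (h := f p) (f := f) (fun Q => v Q c) (by omega) c3 h1 h2 H1_pos3
  have s3' := SR_le (b0 := b0) (b1 := b1) (b2 := b2) (h := f p) (f := f) (fun Q => v Q c) (by omega) c3' h1 h2
    (H1_pos3' (by omega))
  have s6 := SR_le (b0 := b0) (b1 := b1) (b2 := b2) (h := f p) (f := f) (fun Q => v Q c) (by omega) c6 h1 h2 H1_pos6
  have s6' := SR_le (b0 := b0) (b1 := b1) (b2 := b2) (h := f p) (f := f) (fun Q => v Q c) (by omega) c6' h1 h2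
    (H1_pos6' (by omega))
  have r0 := rf_cell (f := v Q2 0) hc
  have r1 := rf_cell (f := v Q2 1) hc
  have r2 := rf_cell (f := v Q2 2) hc
  rw [r0, r1, r2]
  generalize (SS (fun Q => v Q c) n i p _ _ _ _ _ _ : ℕ) = X0 at k0 s0
  generalize (SS (fun Q => v Q c) n i (p + 3 * n) _ _ _ _ _ _ : ℕ) = X3 at k1 s3
  generalize (SS (fun Q => v Q c) n i (p - 3 * n) _ _ _ _ _ _ : ℕ) = Y3 at k1 s3'
  generalize (SS (fun Q => v Q c) n i (p + 6 * n) _ _ _ _ _ _ : ℕ) = X6 at k2 s6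
  generalize (SS (fun Q => v Q c) n i (p - 6 * n) _ _ _ _ _ _ : ℕ) = Y6 at k2 s6'
  have k0' : (600:ℝ) * (X0:ℝ) ≤ (G:ℝ) * (100663296 * ((bc c : ℝ) * (v Q2 0 p : ℝ))) := by
    exact_mod_cast k0
  have k1' : (400:ℝ) * ((X3:ℝ) + (Y3:ℝ)) ≤ (G:ℝ) * (100663296 * ((bc c : ℝ) * (v Q2 1 p : ℝ))) := by
    exact_mod_cast k1
  have k2' : (100:ℝ) * ((X6:ℝ) + (Y6:ℝ)) ≤ (G:ℝ) * (100663296 * ((bc c : ℝ) * (v Q2 2 p : ℝ))) := by
    exact_mod_cast k2
  refine ⟨?_, ?_, ?_⟩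
  · linarith
  · linarith
  · linarith

end

end Pool.Agent.FCQ.C
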